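import Mathlib
import Pool.Agent.H7.Abc.Count

/-!
Definitions for the count of exceptions to the weak abc inequality over a number field.

For `x` in a number field the zero divisor of `x` is cut into pieces according to the exponents.
A `Tool` says which exponents are let free in the zero divisor of `y` (`F0`), in the pole divisor
of `y` (`F1`) and in the zero divisor of `y - 1` (`G`); the exponents in `F0` and `F1` are
multiples of `e`.
-/

namespace Pool.Agent.AbcE

open NumberField IsDedekindDomain Pool.Agent.H7.Abc

variable {K : Type*} [Field K] [NumberField K]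

/-- The logarithm of the norm of `v`. -/
noncomputable def ln (v : HeightOneSpectrum (𝓞 K)) : ℝ :=
  Real.log (Ideal.absNorm v.asIdeal : ℝ)

open Classical in
/-- The size of the part of the zero divisor of `x` with exponents in `A`. -/
noncomputable def sz (x : K) (A : Set ℕ) : ℝ :=
  ∑ᶠ v : HeightOneSpectrum (𝓞 K),
    if 0 < ord v x ∧ (ord v x).toNat ∈ A then (ord v x : ℝ) * ln v else 0

open Classical in
/-- The radical of the part of the zero divisor of `x` with exponents in `A`. -/
noncomputable def rd (x : K) (A : Set ℕ) : ℝ :=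
  ∑ᶠ v : HeightOneSpectrum (𝓞 K),
    if 0 < ord v x ∧ (ord v x).toNat ∈ A then ln v else 0

/-- The archimedean part of the height. -/
noncomputable def arch (x : K) : ℝ :=
  ∑ w : InfinitePlace K, (w.mult : ℝ) * Real.log (max 1 (w x))

/-- A tool: which exponents are let free. -/
structure Tool where
  /-- the power -/
  e : ℕ
  /-- free exponents in the zero divisor of `y` -/
  F0 : Set ℕ
  /-- free exponents in the pole divisor of `y` -/
  F1 : Set ℕ
  /-- free exponents in the zero divisor of `y - 1` -/
  G : Set ℕ
  he : 1 ≤ e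
  h0 : ∀ n ∈ F0, e ∣ n
  h1 : ∀ n ∈ F1, e ∣ n

open Classical in
/-- The exponents of `y` which are kept. -/
noncomputable def kf (T : Tool) (y : K) (v : HeightOneSpectrum (𝓞 K)) : ℤ :=
  if (0 < ord v y ∧ (ord v y).toNat ∈ T.F0) ∨ (ord v y < 0 ∧ (-ord v y).toNat ∈ T.F1) then 0
  else ord v y

open Classical in
/-- The positive exponents of `y - 1` which are kept. -/
noncomputable def jf (T : Tool) (y : K) (v : HeightOneSpectrum (𝓞 K)) : ℤ :=
  if 0 < ord v (y - 1) ∧ (ord v (y - 1)).toNat ∉ T.G then ord v (y - 1) else 0

/-- The kept radical. -/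
noncomputable def RK (T : Tool) (y : K) : ℝ :=
  rd y T.F0ᶜ + rd y⁻¹ T.F1ᶜ + rd (y - 1) T.Gᶜ

/-- The overshoot. -/
noncomputable def Ov (T : Tool) (y : K) : ℝ :=
  (sz y T.F0 + sz y⁻¹ T.F1) / (T.e : ℝ) - sz (y - 1) T.Gᶜ - arch (y - 1)⁻¹

end Pool.Agent.AbcE
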