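import Mathlib
import Pool.Agent.AbcE.Defs

/-! Classes at an infinite place. -/

namespace Pool.Agent.AbcE

open NumberField IsDedekindDomain Pool.Agent.H7.Abc

namespace ArchAux

/-- Inside a sector `‖s - 1‖ ≤ ‖s ^ e - 1‖`. -/
theorem sector {e : ℕ} (he : 1 ≤ e) {a b : ℂ} (ha : a ≠ 0) (hb : b ≠ 0)
    (h : |Complex.arg a - Complex.arg b| ≤ Real.pi / (2 * e)) :
    ‖a / b - 1‖ ≤ ‖(a / b) ^ e - 1‖ := by
  set s := a / b with hs
  have hs0 : s ≠ 0 := div_ne_zero ha hb
  have he0 : (0 : ℝ) < e := by exact_mod_cast he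
  set θ := Complex.arg a - Complex.arg b with hθ
  have hrep : s = (‖s‖ : ℂ) * Complex.exp (θ * Complex.I) := by
    have h1 := Complex.norm_mul_exp_arg_mul_I a
    have h2 := Complex.norm_mul_exp_arg_mul_I b
    have hbn : (‖b‖ : ℂ) ≠ 0 := by exact_mod_cast (norm_ne_zero_iff.mpr hb)
    have hexp : Complex.exp (θ * Complex.I) =
        Complex.exp (Complex.arg a * Complex.I) / Complex.exp (Complex.arg b * Complex.I) := by
      rw [← Complex.exp_sub]
      congr 1
      rw [hθ]
      push_cast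
      ring
    rw [hexp, hs, norm_div]
    push_cast
    rw [div_mul_div_comm, h1, h2]
  have hre : ∀ k ∈ Finset.range e, 0 ≤ (s ^ k).re := by
    intro k hk
    have hk' : (k : ℝ) < e := by exact_mod_cast Finset.mem_range.mp hk
    have hpow : s ^ k = ((‖s‖ ^ k : ℝ) : ℂ) * Complex.exp (((k : ℝ) * θ : ℝ) * Complex.I) := by
      conv_lhs => rw [hrep]
      rw [mul_pow, ← Complex.exp_nat_mul]
      push_cast
      congr 2
      ring
    rw [hpow, Complex.re_ofReal_mul, Complex.exp_ofReal_mul_I_re]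
    refine mul_nonneg (by positivity) (Real.cos_nonneg_of_mem_Icc ?_)
    have hb2 : |(k : ℝ) * θ| ≤ Real.pi / 2 := by
      rw [abs_mul, abs_of_nonneg (by positivity : (0 : ℝ) ≤ k)]
      calc (k : ℝ) * |θ| ≤ e * (Real.pi / (2 * e)) :=
            mul_le_mul hk'.le h (abs_nonneg _) he0.le
        _ = Real.pi / 2 := by field_simp
    exact ⟨by linarith [(abs_le.mp hb2).1], (abs_le.mp hb2).2⟩
  have hsum : 1 ≤ ‖∑ k ∈ Finset.range e, s ^ k‖ := by
    refine le_trans ?_ (Complex.re_le_norm _)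
    rw [Complex.re_sum]
    have h0 : (0 : ℕ) ∈ Finset.range e := Finset.mem_range.mpr he
    calc (1 : ℝ) = (s ^ 0).re := by simp
      _ ≤ ∑ k ∈ Finset.range e, (s ^ k).re :=
          Finset.single_le_sum (f := fun k => (s ^ k).re) hre h0
  rw [← geom_sum_mul, norm_mul]
  exact le_mul_of_one_le_left (norm_nonneg _) hsum

/-- Equal floors are close. -/
theorem close_of_floor {a b r : ℝ} (hr : 0 < r) (h : ⌊a / r⌋ = ⌊b / r⌋) : |a - b| ≤ r := by
  have h1 := Int.abs_sub_lt_one_of_floor_eq_floor h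
  rw [← sub_div, abs_div, abs_of_pos hr, div_lt_one hr] at h1
  exact h1.le

/-- The index of a point in the grid. -/
noncomputable def gi (r : ℝ) (z : ℂ) : ℤ × ℤ := (⌊z.re / r⌋, ⌊z.im / r⌋)

theorem norm_sub_le_of_gi {r : ℝ} (hr : 0 < r) {z1 z2 : ℂ} (h : gi r z1 = gi r z2) :
    ‖z1 - z2‖ ≤ 2 * r := by
  have h1 := close_of_floor hr (congrArg Prod.fst h)
  have h2 := close_of_floor hr (congrArg Prod.snd h)
  calc ‖z1 - z2‖ ≤ |(z1 - z2).re| + |(z1 - z2).im| := Complex.norm_le_abs_re_add_abs_im _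
    _ ≤ 2 * r := by
      rw [Complex.sub_re, Complex.sub_im]
      linarith

/-- A finite set of indices gives a finite classification. -/
theorem exists_class {α β : Type*} (g : α → β) (S : Finset β) :
    ∃ c : α → Fin (S.card + 1), ∀ a b, g a ∈ S → g b ∈ S → c a = c b → g a = g b := by
  classical
  refine ⟨fun a => if h : g a ∈ S then (S.equivFin ⟨g a, h⟩).castSucc else Fin.last _, ?_⟩
  intro a b ha hb hab
  simp only [dif_pos ha, dif_pos hb] at hab
  have h1 := Fin.castSucc_injective _ hab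
  have h2 := S.equivFin.injective h1
  exact congrArg Subtype.val h2

/-- The range of a floor. -/
theorem floor_mem {a B : ℝ} (h : |a| ≤ B) : ⌊a⌋ ∈ Finset.Icc (-⌈B⌉) ⌈B⌉ := by
  rw [Finset.mem_Icc]
  constructor
  · rw [Int.le_floor]
    push_cast
    linarith [(abs_le.mp h).1, Int.le_ceil B]
  · have h1 : ((⌊a⌋ : ℤ) : ℝ) ≤ ((⌈B⌉ : ℤ) : ℝ) :=
      (Int.floor_le a).trans (((abs_le.mp h).2).trans (Int.le_ceil B))
    exact_mod_cast h1

theorem exp_one_lt : Real.exp 1 < 2.72 := by
  have := Real.exp_one_lt_d9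
  norm_num at this ⊢
  linarith

/-- From a floor of a logarithm to bounds. -/
theorem bounds_of_floor {a : ℝ} (ha : 0 < a) {m : ℤ} (h : ⌊Real.log a⌋ = m) :
    Real.exp m ≤ a ∧ a < Real.exp 1 * Real.exp m := by
  rw [Int.floor_eq_iff] at h
  constructor
  · calc Real.exp m ≤ Real.exp (Real.log a) := Real.exp_le_exp.mpr h.1
      _ = a := Real.exp_log ha
  · calc a = Real.exp (Real.log a) := (Real.exp_log ha).symm
      _ < Real.exp (m + 1) := Real.exp_lt_exp.mpr h.2
      _ = Real.exp 1 * Real.exp m := by rw [Real.exp_add, mul_comm]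

/-- The number of grid indices. -/
theorem card_Icc_le {ρ : ℝ} (hρ : 0 < ρ) (hρ1 : ρ ≤ 1) :
    ((Finset.Icc (-⌈22 / ρ⌉) ⌈22 / ρ⌉).card : ℝ) ≤ 47 * ρ⁻¹ := by
  have hL : (0 : ℝ) ≤ 22 / ρ := by positivity
  have hL0 : 0 ≤ ⌈22 / ρ⌉ := Int.ceil_nonneg hL
  have h1 : ((Finset.Icc (-⌈22 / ρ⌉) ⌈22 / ρ⌉).card : ℤ) = 2 * ⌈22 / ρ⌉ + 1 := by
    rw [Int.card_Icc]
    rw [Int.toNat_of_nonneg (by omega)]
    ring
  have h2 : ((Finset.Icc (-⌈22 / ρ⌉) ⌈22 / ρ⌉).card : ℝ) = 2 * (⌈22 / ρ⌉ : ℝ) + 1 := by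
    exact_mod_cast h1
  rw [h2]
  have h3 := (Int.ceil_lt_add_one (22 / ρ)).le
  have h4 : 1 ≤ ρ⁻¹ := (one_le_inv₀ hρ).mpr hρ1
  rw [div_eq_mul_inv] at h3
  rw [div_eq_mul_inv]
  linarith

end ArchAux

open ArchAux in
/-- Classes at an infinite place. -/
theorem arch_class (K : Type*) [Field K] [NumberField K] (e : ℕ) (he : 1 ≤ e) :
    ∃ C : ℝ, 0 < C ∧ ∀ (w : InfinitePlace K) (ρ : ℝ) (m n : ℤ), 0 < ρ → ρ ≤ 1 →
      ∃ (N : ℕ) (c : K → K → Fin N), (N : ℝ) ≤ C * (ρ⁻¹) ^ w.mult ∧
        ∀ y1 y2 t1 t2 : K, y1 ≠ 0 → y2 ≠ 0 → y1 ≠ 1 → y2 ≠ 1 → t1 ≠ 0 → t2 ≠ 0 →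
          ⌊Real.log (w y1)⌋ = m → ⌊Real.log (w y2)⌋ = m →
          ⌊Real.log (w (y1 - 1))⌋ = n → ⌊Real.log (w (y2 - 1))⌋ = n →
          y1 * t2 ^ e = y2 * t1 ^ e → c y1 t1 = c y2 t2 →
            w (t1 / t2 - 1) ≤ ρ * min 1 (w (y2 - 1)) := by
  classical
  refine ⟨(4 * e + 2) * 2209, by positivity, ?_⟩
  intro w ρ m n hρ hρ1
  have he0 : (0 : ℝ) < e := by exact_mod_cast he
  have hr : (0 : ℝ) < ρ / 8 := by positivity
  have hα : (0 : ℝ) < Real.pi / (2 * e) := by positivity
  set z : K → ℂ := fun y => if m ≤ -2 then w.embedding y / (Real.exp m : ℂ)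
    else (w.embedding y - 1) / (Real.exp n : ℂ) with hz
  set L : ℤ := ⌈22 / ρ⌉ with hL
  set S : Finset (ℤ × ℤ × ℤ) :=
    Finset.Icc (-(2 * (e : ℤ))) (2 * e) ×ˢ (Finset.Icc (-L) L ×ˢ
      (if w.IsReal then {0} else Finset.Icc (-L) L)) with hS
  set g : K × K → ℤ × ℤ × ℤ := fun p =>
    (⌊Complex.arg (w.embedding p.2) / (Real.pi / (2 * e))⌋, gi (ρ / 8) (z p.1)) with hg
  obtain ⟨c, hc⟩ := exists_class g S
  refine ⟨S.card + 1, fun y t => c (y, t), ?_, ?_⟩
  · -- the number of classes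
    have h1 : ((Finset.Icc (-L) L).card : ℝ) ≤ 47 * ρ⁻¹ := card_Icc_le hρ hρ1
    have hinv : 1 ≤ ρ⁻¹ := (one_le_inv₀ hρ).mpr hρ1
    have h2 : ((Finset.Icc (-(2 * (e : ℤ))) (2 * e)).card : ℝ) = 4 * e + 1 := by
      have : ((Finset.Icc (-(2 * (e : ℤ))) (2 * e)).card : ℤ) = 4 * e + 1 := by
        rw [Int.card_Icc, Int.toNat_of_nonneg (by omega)]
        ring
      exact_mod_cast this
    have h3 : (((Finset.Icc (-L) L).card : ℝ) *
        ((if w.IsReal then ({0} : Finset ℤ) else Finset.Icc (-L) L).card : ℝ)) ≤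
        2209 * (ρ⁻¹) ^ w.mult := by
      by_cases hw : w.IsReal
      · rw [if_pos hw, InfinitePlace.mult, if_pos hw]
        simp only [Finset.card_singleton, Nat.cast_one, mul_one, pow_one]
        linarith
      · rw [if_neg hw, InfinitePlace.mult, if_neg hw]
        calc ((Finset.Icc (-L) L).card : ℝ) * (Finset.Icc (-L) L).card
            ≤ (47 * ρ⁻¹) * (47 * ρ⁻¹) := mul_le_mul h1 h1 (Nat.cast_nonneg _) (by linarith)
          _ = 2209 * ρ⁻¹ ^ 2 := by ring
    have h4 : 1 ≤ (ρ⁻¹) ^ w.mult := one_le_pow₀ hinv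
    push_cast
    rw [hS, Finset.card_product, Finset.card_product]
    push_cast
    rw [h2]
    calc (4 * (e : ℝ) + 1) * (((Finset.Icc (-L) L).card : ℝ) *
          ((if w.IsReal then ({0} : Finset ℤ) else Finset.Icc (-L) L).card : ℝ)) + 1
        ≤ (4 * (e : ℝ) + 1) * (2209 * (ρ⁻¹) ^ w.mult) + (ρ⁻¹) ^ w.mult := by gcongr
      _ ≤ (4 * (e : ℝ) + 2) * 2209 * ρ⁻¹ ^ w.mult := by nlinarith
  · intro y1 y2 t1 t2 hy1 hy2 h11 h21 ht1 ht2 hm1 hm2 hn1 hn2 hyt hcc
    have hnorm : ∀ x : K, ‖w.embedding x‖ = w x := fun x => InfinitePlace.norm_embedding_eq w x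
    have hpos : ∀ x : K, x ≠ 0 → 0 < w x := fun x hx => by
      rw [← hnorm, norm_pos_iff]
      exact (map_ne_zero _).mpr hx
    -- membership
    have hzn : ∀ y : K, y ≠ 0 → y ≠ 1 → ⌊Real.log (w y)⌋ = m → ⌊Real.log (w (y - 1))⌋ = n →
        ‖z y‖ ≤ 2.72 := by
      intro y hy hy' hm hn
      have b1 := bounds_of_floor (hpos y hy) hm
      have b2 := bounds_of_floor (hpos (y - 1) (sub_ne_zero.mpr hy')) hn
      simp only [hz]
      split_ifs
      · rw [norm_div, hnorm, Complex.norm_real, Real.norm_eq_abs, abs_of_pos (Real.exp_pos _),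
          div_le_iff₀ (Real.exp_pos _)]
        exact b1.2.le.trans (mul_le_mul_of_nonneg_right exp_one_lt.le (Real.exp_pos _).le)
      · have : w.embedding y - 1 = w.embedding (y - 1) := by rw [map_sub, map_one]
        rw [this, norm_div, hnorm, Complex.norm_real, Real.norm_eq_abs,
          abs_of_pos (Real.exp_pos _), div_le_iff₀ (Real.exp_pos _)]
        exact b2.2.le.trans (mul_le_mul_of_nonneg_right exp_one_lt.le (Real.exp_pos _).le)
    have hreal : w.IsReal → ∀ y : K, (z y).im = 0 := by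
      intro hw y
      have him : ∀ x : K, (w.embedding x).im = 0 := by
        intro x
        have := InfinitePlace.isReal_iff.mp hw
        rw [← ComplexEmbedding.IsReal.coe_embedding_apply this x]
        exact Complex.ofReal_im _
      simp only [hz]
      split_ifs
      · rw [Complex.div_ofReal_im, him, zero_div]
      · have : w.embedding y - 1 = w.embedding (y - 1) := by rw [map_sub, map_one]
        rw [this, Complex.div_ofReal_im, him, zero_div]
    have hmem : ∀ y t : K, y ≠ 0 → y ≠ 1 → ⌊Real.log (w y)⌋ = m → ⌊Real.log (w (y - 1))⌋ = n →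
        g (y, t) ∈ S := by
      intro y t hy hy' hm hn
      have hzy := hzn y hy hy' hm hn
      have hb : (2.72 : ℝ) / (ρ / 8) ≤ 22 / ρ := by
        rw [div_le_div_iff₀ hr hρ]
        linarith
      have hre : |(z y).re / (ρ / 8)| ≤ 22 / ρ := by
        rw [abs_div, abs_of_pos hr]
        refine le_trans ?_ hb
        gcongr
        exact (Complex.abs_re_le_norm _).trans hzy
      have him : |(z y).im / (ρ / 8)| ≤ 22 / ρ := by
        rw [abs_div, abs_of_pos hr]
        refine le_trans ?_ hb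
        gcongr
        exact (Complex.abs_im_le_norm _).trans hzy
      simp only [hS, hg, gi, Finset.mem_product]
      refine ⟨?_, floor_mem hre, ?_⟩
      · have harg : |Complex.arg (w.embedding t) / (Real.pi / (2 * e))| ≤ 2 * e := by
          rw [abs_div, abs_of_pos hα, div_le_iff₀ hα]
          calc |Complex.arg (w.embedding t)| ≤ Real.pi := Complex.abs_arg_le_pi _
            _ = 2 * e * (Real.pi / (2 * e)) := by field_simp
        have := floor_mem harg
        have hce : ⌈(2 * e : ℝ)⌉ = 2 * (e : ℤ) := by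
          rw [show (2 * e : ℝ) = ((2 * (e : ℤ) : ℤ) : ℝ) by push_cast; ring, Int.ceil_intCast]
        rwa [hce] at this
      · by_cases hw : w.IsReal
        · rw [if_pos hw, hreal hw y, zero_div, Int.floor_zero]
          exact Finset.mem_singleton_self _
        · rw [if_neg hw]
          exact floor_mem him
    have hgeq := hc (y1, t1) (y2, t2) (hmem y1 t1 hy1 h11 hm1 hn1) (hmem y2 t2 hy2 h21 hm2 hn2) hcc
    simp only [hg, Prod.mk.injEq] at hgeq
    obtain ⟨hsec, hgi⟩ := hgeq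
    have hclose : ‖z y1 - z y2‖ ≤ ρ / 4 := by
      have := norm_sub_le_of_gi hr hgi
      linarith
    have hE1 : w.embedding t1 ≠ 0 := (map_ne_zero _).mpr ht1
    have hE2 : w.embedding t2 ≠ 0 := (map_ne_zero _).mpr ht2
    have hsect := sector he hE1 hE2 (close_of_floor hα hsec)
    have hquot : (t1 / t2) ^ e - 1 = (y1 - y2) / y2 := by
      have ht2e : t2 ^ e ≠ 0 := pow_ne_zero _ ht2
      rw [div_pow, sub_div, div_self hy2]
      congr 1
      rw [div_eq_div_iff ht2e hy2]
      linear_combination -hyt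
    have hmain : w (t1 / t2 - 1) ≤ w (y1 - y2) / w y2 := by
      rw [← map_div₀ w, ← hquot, ← hnorm, ← hnorm]
      simpa only [map_sub, map_div₀, map_pow, map_one] using hsect
    refine hmain.trans ?_
    have hwy2 : 0 < w y2 := hpos y2 hy2
    have hwy21 : 0 < w (y2 - 1) := hpos _ (sub_ne_zero.mpr h21)
    have b1 := bounds_of_floor hwy2 hm2
    have b2 := bounds_of_floor hwy21 hn2
    have htri1 : w (y2 - 1) ≤ w y2 + 1 := by
      rw [← hnorm, ← hnorm, map_sub, map_one]
      exact (norm_sub_le _ _).trans (by rw [norm_one])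
    have htri2 : 1 ≤ w (y2 - 1) + w y2 := by
      rw [← hnorm, ← hnorm, map_sub, map_one]
      calc (1 : ℝ) = ‖w.embedding y2 - (w.embedding y2 - 1)‖ := by
            rw [sub_sub_cancel, norm_one]
        _ ≤ ‖w.embedding y2‖ + ‖w.embedding y2 - 1‖ := norm_sub_le _ _
        _ = _ := add_comm _ _
    by_cases hm : m ≤ -2
    · have hzz : z y1 - z y2 = w.embedding (y1 - y2) / (Real.exp m : ℂ) := by
        simp only [hz, if_pos hm]
        rw [map_sub]
        ring
      rw [hzz, norm_div, hnorm, Complex.norm_real, Real.norm_eq_abs, abs_of_pos (Real.exp_pos _),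
        div_le_iff₀ (Real.exp_pos _)] at hclose
      have hsmall : w y2 ≤ 0.37 := by
        have hme : Real.exp m ≤ Real.exp (-2) := by
          apply Real.exp_le_exp.mpr
          exact_mod_cast hm
        have h1 : w y2 < Real.exp (-1) := by
          calc w y2 < Real.exp 1 * Real.exp m := b1.2
            _ ≤ Real.exp 1 * Real.exp (-2) := by gcongr
            _ = Real.exp (-1) := by rw [← Real.exp_add]; norm_num
        have h2 := Real.exp_neg_one_lt_d9
        norm_num at h2 ⊢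
        linarith
      rw [div_le_iff₀ hwy2]
      have hmin : (1 / 4 : ℝ) ≤ min 1 (w (y2 - 1)) := by
        rw [le_min_iff]
        constructor
        · norm_num
        · norm_num at hsmall ⊢
          linarith
      calc w (y1 - y2) ≤ ρ / 4 * Real.exp m := hclose
        _ ≤ ρ / 4 * w y2 := by gcongr; exact b1.1
        _ = ρ * (1 / 4) * w y2 := by ring
        _ ≤ ρ * min 1 (w (y2 - 1)) * w y2 := by gcongr
    · have hzz : z y1 - z y2 = w.embedding (y1 - y2) / (Real.exp n : ℂ) := by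
        simp only [hz, if_neg hm]
        rw [map_sub]
        ring
      rw [hzz, norm_div, hnorm, Complex.norm_real, Real.norm_eq_abs, abs_of_pos (Real.exp_pos _),
        div_le_iff₀ (Real.exp_pos _)] at hclose
      have hbig : 0.36 ≤ w y2 := by
        have hme : Real.exp (-1) ≤ Real.exp m := by
          apply Real.exp_le_exp.mpr
          have : -1 ≤ m := by omega
          exact_mod_cast this
        have h2 := Real.exp_neg_one_gt_d9
        norm_num at h2 ⊢
        linarith [b1.1]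
      rw [div_le_iff₀ hwy2]
      have hcl : w (y1 - y2) ≤ ρ / 4 * w (y2 - 1) := hclose.trans (by gcongr; exact b2.1)
      refine hcl.trans ?_
      norm_num at hbig
      rcases le_total 1 (w (y2 - 1)) with h | h
      · rw [min_eq_left h]
        nlinarith
      · rw [min_eq_right h]
        nlinarith [mul_nonneg (mul_nonneg hρ.le hwy21.le)
          (by linarith : (0 : ℝ) ≤ w y2 - 1 / 4)]

end Pool.Agent.AbcE
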