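import Mathlib

/-! The linear programme (generated branch and bound certificate). -/

namespace Pool.Agent.AbcE

/-- The linear programme, sorted, in coordinates. -/
theorem lp_core {a00 a01 a02 a03 a04 a10 a11 a12 a13 a14 a20 a21 a22 a23 a24 b0 b1 b2 h L : ℝ}
    (p00 : 0 ≤ a00)
    (p01 : 0 ≤ a01)
    (p02 : 0 ≤ a02)
    (p03 : 0 ≤ a03)
    (p04 : 0 ≤ a04)
    (q0 : 0 ≤ b0)
    (p10 : 0 ≤ a10)
    (p11 : 0 ≤ a11)
    (p12 : 0 ≤ a12)
    (p13 : 0 ≤ a13)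
    (p14 : 0 ≤ a14)
    (q1 : 0 ≤ b1)
    (p20 : 0 ≤ a20)
    (p21 : 0 ≤ a21)
    (p22 : 0 ≤ a22)
    (p23 : 0 ≤ a23)
    (p24 : 0 ≤ a24)
    (q2 : 0 ≤ b2)
    (hs0 : a00 + 2 * a01 + 3 * a02 + 4 * a03 + b0 ≤ h)
    (ht0 : 5 * a04 ≤ b0)
    (hs1 : a10 + 2 * a11 + 3 * a12 + 4 * a13 + b1 ≤ h)
    (ht1 : 5 * a14 ≤ b1)
    (hs2 : a20 + 2 * a21 + 3 * a22 + 4 * a23 + b2 ≤ h)
    (ht2 : 5 * a24 ≤ b2)
    (hR : a00 + a01 + a02 + a03 + a04 + a10 + a11 + a12 + a13 + a14 + a20 + a21 + a22 + a23 + a24 ≤ L)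
    (ho0 : a10 + a11 + a12 + a13 + a14 ≤ a00 + a01 + a02 + a03 + a04)
    (ho1 : a20 + a21 + a22 + a23 + a24 ≤ a10 + a11 + a12 + a13 + a14)
    (hh : 0 ≤ h)
    (hL0 : 49 / 50 * h ≤ L) (hL1 : L ≤ 11 / 10 * h)
    (t0 : (a10 + 2 * a11 ≤ h ∧ (93 * L - 13 * h) / 133 < a00 + a01 + a02 + a03 + a04 + a12 + a13 + a14 + a20 + a21 + a22 + a23 + a24) ∨
      (h ≤ a10 + 2 * a11 ∧ (93 * L - 13 * h) / 133 < a00 + a01 + a02 + a03 + a04 + a12 + a13 + a14 + a20 + a21 + a22 + a23 + a24 + (a10 + 2 * a11 - h)))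
    (t1 : (a00 + a20 ≤ h ∧ (93 * L - 13 * h) / 133 < a01 + a02 + a03 + a04 + a10 + a11 + a12 + a13 + a14 + a21 + a22 + a23 + a24) ∨
      (h ≤ a00 + a20 ∧ (93 * L - 13 * h) / 133 < a01 + a02 + a03 + a04 + a10 + a11 + a12 + a13 + a14 + a21 + a22 + a23 + a24 + (a00 + a20 - h)))
    (t2 : (a01 + 2 * a03 + a10 + a21 + 2 * a23 ≤ h ∧ (93 * L - 13 * h) / 133 < a00 + a02 + a04 + a11 + a12 + a13 + a14 + a20 + a22 + a24) ∨
      (h ≤ a01 + 2 * a03 + a10 + a21 + 2 * a23 ∧ (93 * L - 13 * h) / 133 < a00 + a02 + a04 + a11 + a12 + a13 + a14 + a20 + a22 + a24 + (a01 + 2 * a03 + a10 + a21 + 2 * a23 - h)))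
    (t3 : (a02 + a10 + 2 * a11 + a22 ≤ h ∧ (93 * L - 13 * h) / 133 < a00 + a01 + a03 + a04 + a12 + a13 + a14 + a20 + a21 + a23 + a24) ∨
      (h ≤ a02 + a10 + 2 * a11 + a22 ∧ (93 * L - 13 * h) / 133 < a00 + a01 + a03 + a04 + a12 + a13 + a14 + a20 + a21 + a23 + a24 + (a02 + a10 + 2 * a11 + a22 - h)))
    (t4 : (a00 + 2 * a01 + a12 + a22 ≤ h ∧ (93 * L - 13 * h) / 133 < a02 + a03 + a04 + a10 + a11 + a13 + a14 + a20 + a21 + a23 + a24) ∨
      (h ≤ a00 + 2 * a01 + a12 + a22 ∧ (93 * L - 13 * h) / 133 < a02 + a03 + a04 + a10 + a11 + a13 + a14 + a20 + a21 + a23 + a24 + (a00 + 2 * a01 + a12 + a22 - h)))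
    (t5 : (a00 + 2 * a01 + 3 * a02 + a10 + 2 * a11 + a20 + 2 * a21 + 3 * a22 ≤ h ∧ (93 * L - 13 * h) / 133 < a03 + a04 + a12 + a13 + a14 + a23 + a24) ∨
      (h ≤ a00 + 2 * a01 + 3 * a02 + a10 + 2 * a11 + a20 + 2 * a21 + 3 * a22 ∧ (93 * L - 13 * h) / 133 < a03 + a04 + a12 + a13 + a14 + a23 + a24 + (a00 + 2 * a01 + 3 * a02 + a10 + 2 * a11 + a20 + 2 * a21 + 3 * a22 - h)))
    (t6 : (a00 + a10 + 2 * a11 + 3 * a12 + a20 + 3 * a22 ≤ h ∧ (93 * L - 13 * h) / 133 < a01 + a02 + a03 + a04 + a13 + a14 + a21 + a23 + a24) ∨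
      (h ≤ a00 + a10 + 2 * a11 + 3 * a12 + a20 + 3 * a22 ∧ (93 * L - 13 * h) / 133 < a01 + a02 + a03 + a04 + a13 + a14 + a21 + a23 + a24 + (a00 + a10 + 2 * a11 + 3 * a12 + a20 + 3 * a22 - h)))
    (t7 : (a00 + 2 * a01 + 3 * a02 + a13 + a23 ≤ h ∧ (93 * L - 13 * h) / 133 < a03 + a04 + a10 + a11 + a12 + a14 + a20 + a21 + a22 + a24) ∨
      (h ≤ a00 + 2 * a01 + 3 * a02 + a13 + a23 ∧ (93 * L - 13 * h) / 133 < a03 + a04 + a10 + a11 + a12 + a14 + a20 + a21 + a22 + a24 + (a00 + 2 * a01 + 3 * a02 + a13 + a23 - h)))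
    (t8 : (a01 + 2 * a03 + a11 + 2 * a13 + a20 + 2 * a21 ≤ h ∧ (93 * L - 13 * h) / 133 < a00 + a02 + a04 + a10 + a12 + a14 + a22 + a23 + a24) ∨
      (h ≤ a01 + 2 * a03 + a11 + 2 * a13 + a20 + 2 * a21 ∧ (93 * L - 13 * h) / 133 < a00 + a02 + a04 + a10 + a12 + a14 + a22 + a23 + a24 + (a01 + 2 * a03 + a11 + 2 * a13 + a20 + 2 * a21 - h)))
    (t9 : (a00 + 2 * a01 + 3 * a02 + a11 + 2 * a13 + a21 + 2 * a23 ≤ h ∧ (93 * L - 13 * h) / 133 < a03 + a04 + a10 + a12 + a14 + a20 + a22 + a24) ∨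
      (h ≤ a00 + 2 * a01 + 3 * a02 + a11 + 2 * a13 + a21 + 2 * a23 ∧ (93 * L - 13 * h) / 133 < a03 + a04 + a10 + a12 + a14 + a20 + a22 + a24 + (a00 + 2 * a01 + 3 * a02 + a11 + 2 * a13 + a21 + 2 * a23 - h)))
    (t10 : (a02 + a12 + a20 + 2 * a21 + 4 * a23 ≤ h ∧ (93 * L - 13 * h) / 133 < a00 + a01 + a03 + a04 + a10 + a11 + a13 + a14 + a22 + a24) ∨
      (h ≤ a02 + a12 + a20 + 2 * a21 + 4 * a23 ∧ (93 * L - 13 * h) / 133 < a00 + a01 + a03 + a04 + a10 + a11 + a13 + a14 + a22 + a24 + (a02 + a12 + a20 + 2 * a21 + 4 * a23 - h)))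
    (t11 : (a00 + 2 * a01 + a10 + 3 * a12 + a20 + 3 * a22 ≤ h ∧ (93 * L - 13 * h) / 133 < a02 + a03 + a04 + a11 + a13 + a14 + a21 + a23 + a24) ∨
      (h ≤ a00 + 2 * a01 + a10 + 3 * a12 + a20 + 3 * a22 ∧ (93 * L - 13 * h) / 133 < a02 + a03 + a04 + a11 + a13 + a14 + a21 + a23 + a24 + (a00 + 2 * a01 + a10 + 3 * a12 + a20 + 3 * a22 - h)))
    (t12 : (a03 + a13 + a20 + 4 * a23 ≤ h ∧ (93 * L - 13 * h) / 133 < a00 + a01 + a02 + a04 + a10 + a11 + a12 + a14 + a21 + a22 + a24) ∨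
      (h ≤ a03 + a13 + a20 + 4 * a23 ∧ (93 * L - 13 * h) / 133 < a00 + a01 + a02 + a04 + a10 + a11 + a12 + a14 + a21 + a22 + a24 + (a03 + a13 + a20 + 4 * a23 - h)))
    (t13 : (a01 + 2 * a03 + a10 + 3 * a12 + a21 + 2 * a23 ≤ h ∧ (93 * L - 13 * h) / 133 < a00 + a02 + a04 + a11 + a13 + a14 + a20 + a22 + a24) ∨
      (h ≤ a01 + 2 * a03 + a10 + 3 * a12 + a21 + 2 * a23 ∧ (93 * L - 13 * h) / 133 < a00 + a02 + a04 + a11 + a13 + a14 + a20 + a22 + a24 + (a01 + 2 * a03 + a10 + 3 * a12 + a21 + 2 * a23 - h)))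
    (t14 : (a00 + 2 * a01 + a10 + 2 * a11 + 4 * a13 ≤ h ∧ (93 * L - 13 * h) / 133 < a02 + a03 + a04 + a12 + a14 + a20 + a21 + a22 + a23 + a24) ∨
      (h ≤ a00 + 2 * a01 + a10 + 2 * a11 + 4 * a13 ∧ (93 * L - 13 * h) / 133 < a02 + a03 + a04 + a12 + a14 + a20 + a21 + a22 + a23 + a24 + (a00 + 2 * a01 + a10 + 2 * a11 + 4 * a13 - h)))
    (t15 : (a00 + 2 * a01 + 3 * a02 + 4 * a03 + b0 + a10 + 2 * a11 + a20 + 3 * a22 ≤ h ∧ (93 * L - 13 * h) / 133 < a12 + a13 + a14 + a21 + a23 + a24) ∨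
      (h ≤ a00 + 2 * a01 + 3 * a02 + 4 * a03 + b0 + a10 + 2 * a11 + a20 + 3 * a22 ∧ (93 * L - 13 * h) / 133 < a12 + a13 + a14 + a21 + a23 + a24 + (a00 + 2 * a01 + 3 * a02 + 4 * a03 + b0 + a10 + 2 * a11 + a20 + 3 * a22 - h)))
    (t16 : (a00 + 2 * a01 + 3 * a02 + a10 + 2 * a11 + 3 * a12 + b1 + a20 + 2 * a21 + 3 * a22 ≤ h ∧ (93 * L - 13 * h) / 133 < a03 + a04 + a13 + a23 + a24) ∨
      (h ≤ a00 + 2 * a01 + 3 * a02 + a10 + 2 * a11 + 3 * a12 + b1 + a20 + 2 * a21 + 3 * a22 ∧ (93 * L - 13 * h) / 133 < a03 + a04 + a13 + a23 + a24 + (a00 + 2 * a01 + 3 * a02 + a10 + 2 * a11 + 3 * a12 + b1 + a20 + 2 * a21 + 3 * a22 - h)))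
    (t17 : (a00 + 2 * a01 + a10 + 2 * a11 + 3 * a12 + a20 + 2 * a21 + 3 * a22 + 4 * a23 ≤ h ∧ (93 * L - 13 * h) / 133 < a02 + a03 + a04 + a13 + a14 + a24) ∨
      (h ≤ a00 + 2 * a01 + a10 + 2 * a11 + 3 * a12 + a20 + 2 * a21 + 3 * a22 + 4 * a23 ∧ (93 * L - 13 * h) / 133 < a02 + a03 + a04 + a13 + a14 + a24 + (a00 + 2 * a01 + a10 + 2 * a11 + 3 * a12 + a20 + 2 * a21 + 3 * a22 + 4 * a23 - h)))
    (t18 : (a00 + 4 * a03 + a10 + 2 * a11 + 3 * a12 + b1 + a20 ≤ h ∧ (93 * L - 13 * h) / 133 < a01 + a02 + a04 + a13 + a21 + a22 + a23 + a24) ∨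
      (h ≤ a00 + 4 * a03 + a10 + 2 * a11 + 3 * a12 + b1 + a20 ∧ (93 * L - 13 * h) / 133 < a01 + a02 + a04 + a13 + a21 + a22 + a23 + a24 + (a00 + 4 * a03 + a10 + 2 * a11 + 3 * a12 + b1 + a20 - h)))
    (t19 : (a01 + 2 * a03 + a10 + 2 * a11 + 4 * a13 + b1 + a21 + 2 * a23 ≤ h ∧ (93 * L - 13 * h) / 133 < a00 + a02 + a04 + a12 + a20 + a22 + a24) ∨
      (h ≤ a01 + 2 * a03 + a10 + 2 * a11 + 4 * a13 + b1 + a21 + 2 * a23 ∧ (93 * L - 13 * h) / 133 < a00 + a02 + a04 + a12 + a20 + a22 + a24 + (a01 + 2 * a03 + a10 + 2 * a11 + 4 * a13 + b1 + a21 + 2 * a23 - h)))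
    (t20 : (a02 + a12 + a20 + 2 * a21 + 3 * a22 ≤ h ∧ (93 * L - 13 * h) / 133 < a00 + a01 + a03 + a04 + a10 + a11 + a13 + a14 + a23 + a24) ∨
      (h ≤ a02 + a12 + a20 + 2 * a21 + 3 * a22 ∧ (93 * L - 13 * h) / 133 < a00 + a01 + a03 + a04 + a10 + a11 + a13 + a14 + a23 + a24 + (a02 + a12 + a20 + 2 * a21 + 3 * a22 - h)))
    (t21 : (a03 + a10 + 3 * a12 + a23 ≤ h ∧ (93 * L - 13 * h) / 133 < a00 + a01 + a02 + a04 + a11 + a13 + a14 + a20 + a21 + a22 + a24) ∨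
      (h ≤ a03 + a10 + 3 * a12 + a23 ∧ (93 * L - 13 * h) / 133 < a00 + a01 + a02 + a04 + a11 + a13 + a14 + a20 + a21 + a22 + a24 + (a03 + a10 + 3 * a12 + a23 - h)))
    (t22 : (a03 + a13 + a20 + 2 * a21 + 3 * a22 ≤ h ∧ (93 * L - 13 * h) / 133 < a00 + a01 + a02 + a04 + a10 + a11 + a12 + a14 + a23 + a24) ∨
      (h ≤ a03 + a13 + a20 + 2 * a21 + 3 * a22 ∧ (93 * L - 13 * h) / 133 < a00 + a01 + a02 + a04 + a10 + a11 + a12 + a14 + a23 + a24 + (a03 + a13 + a20 + 2 * a21 + 3 * a22 - h)))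
    (t23 : (a00 + 2 * a01 + a10 + 2 * a11 + 3 * a12 + a20 + 2 * a21 + 4 * a23 ≤ h ∧ (93 * L - 13 * h) / 133 < a02 + a03 + a04 + a13 + a14 + a22 + a24) ∨
      (h ≤ a00 + 2 * a01 + a10 + 2 * a11 + 3 * a12 + a20 + 2 * a21 + 4 * a23 ∧ (93 * L - 13 * h) / 133 < a02 + a03 + a04 + a13 + a14 + a22 + a24 + (a00 + 2 * a01 + a10 + 2 * a11 + 3 * a12 + a20 + 2 * a21 + 4 * a23 - h)))
    (t24 : (a00 + 2 * a01 + 4 * a03 + a12 + a22 ≤ h ∧ (93 * L - 13 * h) / 133 < a02 + a04 + a10 + a11 + a13 + a14 + a20 + a21 + a23 + a24) ∨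
      (h ≤ a00 + 2 * a01 + 4 * a03 + a12 + a22 ∧ (93 * L - 13 * h) / 133 < a02 + a04 + a10 + a11 + a13 + a14 + a20 + a21 + a23 + a24 + (a00 + 2 * a01 + 4 * a03 + a12 + a22 - h)))
    (t25 : (a00 + a11 + 2 * a13 + a21 + 2 * a23 ≤ h ∧ (93 * L - 13 * h) / 133 < a01 + a02 + a03 + a04 + a10 + a12 + a14 + a20 + a22 + a24) ∨
      (h ≤ a00 + a11 + 2 * a13 + a21 + 2 * a23 ∧ (93 * L - 13 * h) / 133 < a01 + a02 + a03 + a04 + a10 + a12 + a14 + a20 + a22 + a24 + (a00 + a11 + 2 * a13 + a21 + 2 * a23 - h)))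
    (t26 : (a02 + a12 + a20 + 2 * a21 ≤ h ∧ (93 * L - 13 * h) / 133 < a00 + a01 + a03 + a04 + a10 + a11 + a13 + a14 + a22 + a23 + a24) ∨
      (h ≤ a02 + a12 + a20 + 2 * a21 ∧ (93 * L - 13 * h) / 133 < a00 + a01 + a03 + a04 + a10 + a11 + a13 + a14 + a22 + a23 + a24 + (a02 + a12 + a20 + 2 * a21 - h)))
    (t27 : (a00 + 2 * a01 + a10 + 2 * a11 + a20 + 2 * a21 ≤ h ∧ (93 * L - 13 * h) / 133 < a02 + a03 + a04 + a12 + a13 + a14 + a22 + a23 + a24) ∨
      (h ≤ a00 + 2 * a01 + a10 + 2 * a11 + a20 + 2 * a21 ∧ (93 * L - 13 * h) / 133 < a02 + a03 + a04 + a12 + a13 + a14 + a22 + a23 + a24 + (a00 + 2 * a01 + a10 + 2 * a11 + a20 + 2 * a21 - h)))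
    (t28 : (a00 + 2 * a01 + a11 + 2 * a13 + a21 + 2 * a23 ≤ h ∧ (93 * L - 13 * h) / 133 < a02 + a03 + a04 + a10 + a12 + a14 + a20 + a22 + a24) ∨
      (h ≤ a00 + 2 * a01 + a11 + 2 * a13 + a21 + 2 * a23 ∧ (93 * L - 13 * h) / 133 < a02 + a03 + a04 + a10 + a12 + a14 + a20 + a22 + a24 + (a00 + 2 * a01 + a11 + 2 * a13 + a21 + 2 * a23 - h)))
    (t29 : (a00 + 2 * a01 + 3 * a02 + a10 + 2 * a11 + a20 + 2 * a21 ≤ h ∧ (93 * L - 13 * h) / 133 < a03 + a04 + a12 + a13 + a14 + a22 + a23 + a24) ∨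
      (h ≤ a00 + 2 * a01 + 3 * a02 + a10 + 2 * a11 + a20 + 2 * a21 ∧ (93 * L - 13 * h) / 133 < a03 + a04 + a12 + a13 + a14 + a22 + a23 + a24 + (a00 + 2 * a01 + 3 * a02 + a10 + 2 * a11 + a20 + 2 * a21 - h)))
    (t30 : (a00 + 2 * a01 + 3 * a02 + a12 + a22 ≤ h ∧ (93 * L - 13 * h) / 133 < a03 + a04 + a10 + a11 + a13 + a14 + a20 + a21 + a23 + a24) ∨
      (h ≤ a00 + 2 * a01 + 3 * a02 + a12 + a22 ∧ (93 * L - 13 * h) / 133 < a03 + a04 + a10 + a11 + a13 + a14 + a20 + a21 + a23 + a24 + (a00 + 2 * a01 + 3 * a02 + a12 + a22 - h)))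
    (t31 : (a01 + 2 * a03 + a10 + 2 * a11 + a21 + 2 * a23 ≤ h ∧ (93 * L - 13 * h) / 133 < a00 + a02 + a04 + a12 + a13 + a14 + a20 + a22 + a24) ∨
      (h ≤ a01 + 2 * a03 + a10 + 2 * a11 + a21 + 2 * a23 ∧ (93 * L - 13 * h) / 133 < a00 + a02 + a04 + a12 + a13 + a14 + a20 + a22 + a24 + (a01 + 2 * a03 + a10 + 2 * a11 + a21 + 2 * a23 - h)))
    (t32 : (a00 + 4 * a03 + a11 + 2 * a13 + a21 + 2 * a23 ≤ h ∧ (93 * L - 13 * h) / 133 < a01 + a02 + a04 + a10 + a12 + a14 + a20 + a22 + a24) ∨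
      (h ≤ a00 + 4 * a03 + a11 + 2 * a13 + a21 + 2 * a23 ∧ (93 * L - 13 * h) / 133 < a01 + a02 + a04 + a10 + a12 + a14 + a20 + a22 + a24 + (a00 + 4 * a03 + a11 + 2 * a13 + a21 + 2 * a23 - h)))
    (t33 : (a02 + a10 + 2 * a11 + 3 * a12 + 4 * a13 + a22 ≤ h ∧ (93 * L - 13 * h) / 133 < a00 + a01 + a03 + a04 + a14 + a20 + a21 + a23 + a24) ∨
      (h ≤ a02 + a10 + 2 * a11 + 3 * a12 + 4 * a13 + a22 ∧ (93 * L - 13 * h) / 133 < a00 + a01 + a03 + a04 + a14 + a20 + a21 + a23 + a24 + (a02 + a10 + 2 * a11 + 3 * a12 + 4 * a13 + a22 - h)))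
    (t34 : (a03 + a10 + 2 * a11 + 4 * a13 + a23 ≤ h ∧ (93 * L - 13 * h) / 133 < a00 + a01 + a02 + a04 + a12 + a14 + a20 + a21 + a22 + a24) ∨
      (h ≤ a03 + a10 + 2 * a11 + 4 * a13 + a23 ∧ (93 * L - 13 * h) / 133 < a00 + a01 + a02 + a04 + a12 + a14 + a20 + a21 + a22 + a24 + (a03 + a10 + 2 * a11 + 4 * a13 + a23 - h)))
    (t35 : (a01 + 2 * a03 + a10 + 2 * a11 + 3 * a12 + 4 * a13 + a21 + 2 * a23 ≤ h ∧ (93 * L - 13 * h) / 133 < a00 + a02 + a04 + a14 + a20 + a22 + a24) ∨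
      (h ≤ a01 + 2 * a03 + a10 + 2 * a11 + 3 * a12 + 4 * a13 + a21 + 2 * a23 ∧ (93 * L - 13 * h) / 133 < a00 + a02 + a04 + a14 + a20 + a22 + a24 + (a01 + 2 * a03 + a10 + 2 * a11 + 3 * a12 + 4 * a13 + a21 + 2 * a23 - h)))
    (t36 : (a02 + a10 + 2 * a11 + 4 * a13 + b1 + a22 ≤ h ∧ (93 * L - 13 * h) / 133 < a00 + a01 + a03 + a04 + a12 + a20 + a21 + a23 + a24) ∨
      (h ≤ a02 + a10 + 2 * a11 + 4 * a13 + b1 + a22 ∧ (93 * L - 13 * h) / 133 < a00 + a01 + a03 + a04 + a12 + a20 + a21 + a23 + a24 + (a02 + a10 + 2 * a11 + 4 * a13 + b1 + a22 - h)))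
    (t37 : (a00 + 2 * a01 + 3 * a02 + a10 + a20 ≤ h ∧ (93 * L - 13 * h) / 133 < a03 + a04 + a11 + a12 + a13 + a14 + a21 + a22 + a23 + a24) ∨
      (h ≤ a00 + 2 * a01 + 3 * a02 + a10 + a20 ∧ (93 * L - 13 * h) / 133 < a03 + a04 + a11 + a12 + a13 + a14 + a21 + a22 + a23 + a24 + (a00 + 2 * a01 + 3 * a02 + a10 + a20 - h)))
    (t38 : (a00 + 3 * a02 + 4 * a03 + b0 + a10 + 2 * a11 + 3 * a12 + a20 + 3 * a22 ≤ h ∧ (93 * L - 13 * h) / 133 < a01 + a13 + a14 + a21 + a23 + a24) ∨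
      (h ≤ a00 + 3 * a02 + 4 * a03 + b0 + a10 + 2 * a11 + 3 * a12 + a20 + 3 * a22 ∧ (93 * L - 13 * h) / 133 < a01 + a13 + a14 + a21 + a23 + a24 + (a00 + 3 * a02 + 4 * a03 + b0 + a10 + 2 * a11 + 3 * a12 + a20 + 3 * a22 - h)))
    (t39 : (a01 + 2 * a03 + a10 + 3 * a12 + 4 * a13 + a21 + 2 * a23 ≤ h ∧ (93 * L - 13 * h) / 133 < a00 + a02 + a04 + a11 + a14 + a20 + a22 + a24) ∨
      (h ≤ a01 + 2 * a03 + a10 + 3 * a12 + 4 * a13 + a21 + 2 * a23 ∧ (93 * L - 13 * h) / 133 < a00 + a02 + a04 + a11 + a14 + a20 + a22 + a24 + (a01 + 2 * a03 + a10 + 3 * a12 + 4 * a13 + a21 + 2 * a23 - h)))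
    (t40 : (a01 + 2 * a03 + a10 + 2 * a11 + 3 * a12 + a21 + 2 * a23 ≤ h ∧ (93 * L - 13 * h) / 133 < a00 + a02 + a04 + a13 + a14 + a20 + a22 + a24) ∨
      (h ≤ a01 + 2 * a03 + a10 + 2 * a11 + 3 * a12 + a21 + 2 * a23 ∧ (93 * L - 13 * h) / 133 < a00 + a02 + a04 + a13 + a14 + a20 + a22 + a24 + (a01 + 2 * a03 + a10 + 2 * a11 + 3 * a12 + a21 + 2 * a23 - h)))
    (t41 : (a00 + 2 * a01 + 4 * a03 + a10 + 2 * a11 + 3 * a12 + 4 * a13 + a20 + 2 * a21 + 4 * a23 ≤ h ∧ (93 * L - 13 * h) / 133 < a02 + a04 + a14 + a22 + a24) ∨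
      (h ≤ a00 + 2 * a01 + 4 * a03 + a10 + 2 * a11 + 3 * a12 + 4 * a13 + a20 + 2 * a21 + 4 * a23 ∧ (93 * L - 13 * h) / 133 < a02 + a04 + a14 + a22 + a24 + (a00 + 2 * a01 + 4 * a03 + a10 + 2 * a11 + 3 * a12 + 4 * a13 + a20 + 2 * a21 + 4 * a23 - h)))
    (t42 : (a02 + a12 + a20 + 2 * a21 + 3 * a22 + 4 * a23 ≤ h ∧ (93 * L - 13 * h) / 133 < a00 + a01 + a03 + a04 + a10 + a11 + a13 + a14 + a24) ∨
      (h ≤ a02 + a12 + a20 + 2 * a21 + 3 * a22 + 4 * a23 ∧ (93 * L - 13 * h) / 133 < a00 + a01 + a03 + a04 + a10 + a11 + a13 + a14 + a24 + (a02 + a12 + a20 + 2 * a21 + 3 * a22 + 4 * a23 - h)))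
    (t43 : (a00 + 3 * a02 + a13 + a23 ≤ h ∧ (93 * L - 13 * h) / 133 < a01 + a03 + a04 + a10 + a11 + a12 + a14 + a20 + a21 + a22 + a24) ∨
      (h ≤ a00 + 3 * a02 + a13 + a23 ∧ (93 * L - 13 * h) / 133 < a01 + a03 + a04 + a10 + a11 + a12 + a14 + a20 + a21 + a22 + a24 + (a00 + 3 * a02 + a13 + a23 - h)))
    (t44 : (a02 + a10 + 2 * a11 + 4 * a13 + a22 ≤ h ∧ (93 * L - 13 * h) / 133 < a00 + a01 + a03 + a04 + a12 + a14 + a20 + a21 + a23 + a24) ∨
      (h ≤ a02 + a10 + 2 * a11 + 4 * a13 + a22 ∧ (93 * L - 13 * h) / 133 < a00 + a01 + a03 + a04 + a12 + a14 + a20 + a21 + a23 + a24 + (a02 + a10 + 2 * a11 + 4 * a13 + a22 - h)))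
    (t45 : (a02 + a12 + a20 + 4 * a23 ≤ h ∧ (93 * L - 13 * h) / 133 < a00 + a01 + a03 + a04 + a10 + a11 + a13 + a14 + a21 + a22 + a24) ∨
      (h ≤ a02 + a12 + a20 + 4 * a23 ∧ (93 * L - 13 * h) / 133 < a00 + a01 + a03 + a04 + a10 + a11 + a13 + a14 + a21 + a22 + a24 + (a02 + a12 + a20 + 4 * a23 - h)))
    : False := by
  rcases t0 with ⟨s0, m0⟩ | ⟨s0, m0⟩
  · rcases t1 with ⟨s1, m1⟩ | ⟨s1, m1⟩
    · rcases t2 with ⟨s2, m2⟩ | ⟨s2, m2⟩
      · rcases t3 with ⟨s3, m3⟩ | ⟨s3, m3⟩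
        · rcases t4 with ⟨s4, m4⟩ | ⟨s4, m4⟩
          · rcases t5 with ⟨s5, m5⟩ | ⟨s5, m5⟩
            · rcases t6 with ⟨s6, m6⟩ | ⟨s6, m6⟩
              · rcases t7 with ⟨s7, m7⟩ | ⟨s7, m7⟩
                · rcases t8 with ⟨s8, m8⟩ | ⟨s8, m8⟩
                  · rcases t9 with ⟨s9, m9⟩ | ⟨s9, m9⟩
                    · rcases t10 with ⟨s10, m10⟩ | ⟨s10, m10⟩
                      · rcases t11 with ⟨s11, m11⟩ | ⟨s11, m11⟩
                        · rcases t12 with ⟨s12, m12⟩ | ⟨s12, m12⟩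
                          · rcases t13 with ⟨s13, m13⟩ | ⟨s13, m13⟩
                            · rcases t14 with ⟨s14, m14⟩ | ⟨s14, m14⟩
                              · rcases t15 with ⟨s15, m15⟩ | ⟨s15, m15⟩
                                · linarith only [ht0, hs1, ht1, hs2, ht2, ho1, hL0, m5, m9, m11, m13, s15, m15, p01, p02, p11, p20, p22, p23, hh]
                                · rcases t16 with ⟨s16, m16⟩ | ⟨s16, m16⟩
                                  · linarith only [hs0, ht0, hs1, ht1, hs2, ht2, hR, ho0, hL0, m8, m12, s14, m14, m16, p01, p02, p11, q1, p22, hh]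
                                  · rcases t17 with ⟨s17, m17⟩ | ⟨s17, m17⟩
                                    · linarith only [hs0, ht0, hs1, ht1, hs2, ht2, hL0, m5, m8, m10, m13, m15, m16, m17, p01, q0, p11, p21, p22, p23, hh]
                                    · linarith only [hs0, ht0, hs1, ht1, hs2, ht2, hR, ho1, hL0, m5, m6, m9, m11, m12, m13, m16, m17, p01, p21, p22, hh]
                              · rcases t18 with ⟨s15, m15⟩ | ⟨s15, m15⟩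
                                · linarith only [hs0, ht0, hs1, ht1, hs2, ht2, ho0, ho1, hL0, m5, m8, m9, m11, m15, p01, p02, p11, q1, p22, p23, hh]
                                · linarith only [hs0, ht0, hs1, ht1, hs2, ht2, hR, m8, m9, m11, m14, m15, p01, p02, p04, p11, p12, p20, p21, p23, hh]
                            · rcases t19 with ⟨s14, m14⟩ | ⟨s14, m14⟩
                              · linarith only [hs0, ht0, hs1, ht1, hs2, ht2, hR, hL0, m6, m9, m10, m11, m13, m14, p01, q0, p10, p20, p22, p23, hh]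
                              · linarith only [hs0, ht0, hs1, ht1, hs2, ht2, hR, ho1, hL0, m2, m6, m8, m9, m10, m11, m13, m14, p01, q0, p22, hh]
                          · linarith only [hs0, ht0, hs1, ht1, hs2, ht2, hR, ho0, ho1, hL0, m2, m5, m6, m9, m12, p11, p21, p22, hh]
                        · linarith only [hs0, ht0, hs1, ht1, hs2, ht2, hR, ho0, hL0, m2, m4, m5, m6, m8, m10, m11, q0, p11, p21, p22, hh]
                      · linarith only [hs0, ht0, hs1, ht1, hs2, ht2, hR, ho0, ho1, hL0, m2, m5, m6, m7, m9, m10, p11, p22, hh]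
                    · linarith only [hs0, ht0, hs1, ht1, hs2, ht2, hR, ho0, ho1, hL0, m5, s6, m6, m7, m9, p00, q0, p11, p22, hh]
                  · linarith only [hs0, ht0, hs1, ht1, hs2, ht2, hR, ho1, hL0, m2, m5, m7, m8, p01, p02, q0, q1, p20, p22, p23, hh]
                · linarith only [hs0, ht0, hs1, ht1, hs2, ht2, hL0, m4, m5, s6, m7, p00, p01, q0, p11, q1, p21, p22, q2, hh]
              · rcases t20 with ⟨s7, m7⟩ | ⟨s7, m7⟩
                · rcases t21 with ⟨s8, m8⟩ | ⟨s8, m8⟩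
                  · rcases t22 with ⟨s9, m9⟩ | ⟨s9, m9⟩
                    · rcases t23 with ⟨s10, m10⟩ | ⟨s10, m10⟩
                      · linarith only [hs0, ht0, hs1, ht1, hs2, ht2, hR, hL0, m4, m5, m6, m7, m8, m9, m10, p01, p11, q1, p21, p23, hh]
                      · rcases t24 with ⟨s11, m11⟩ | ⟨s11, m11⟩
                        · linarith only [hs0, ht0, hs2, ht2, hR, ho0, hL0, m5, m6, m7, m8, m11, p01, p03, p10, p21, p22, hh]
                        · linarith only [hs0, ht0, hs1, ht1, hs2, ht2, hR, ho0, m4, m5, m6, m8, m10, m11, p01, p02, p04, p10, q1, p23, hh]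
                    · linarith only [hs0, ht0, hs1, ht1, hs2, ht2, hR, ho0, ho1, hL0, m4, s5, m9, p01, p02, q0, p11, q1, p20, q2, hh]
                  · linarith only [hs0, ht0, hs1, ht1, hs2, ht2, hR, ho0, hL1, m2, m4, m7, m8, p01, p02, p04, p13, q1, p21, p22, hh]
                · linarith only [hs0, ht0, hs1, ht1, hR, ho0, ho1, hL0, m4, s5, s7, m7, p01, p02, q0, p11, q1, p20, hh]
            · rcases t25 with ⟨s6, m6⟩ | ⟨s6, m6⟩
              · rcases t8 with ⟨s7, m7⟩ | ⟨s7, m7⟩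
                · rcases t26 with ⟨s8, m8⟩ | ⟨s8, m8⟩
                  · rcases t27 with ⟨s9, m9⟩ | ⟨s9, m9⟩
                    · rcases t28 with ⟨s10, m10⟩ | ⟨s10, m10⟩
                      · rcases t29 with ⟨s11, m11⟩ | ⟨s11, m11⟩
                        · rcases t30 with ⟨s12, m12⟩ | ⟨s12, m12⟩
                          · rcases t11 with ⟨s13, m13⟩ | ⟨s13, m13⟩
                            · rcases t31 with ⟨s14, m14⟩ | ⟨s14, m14⟩
                              · rcases t22 with ⟨s15, m15⟩ | ⟨s15, m15⟩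
                                · rcases t32 with ⟨s16, m16⟩ | ⟨s16, m16⟩
                                  · rcases t33 with ⟨s17, m17⟩ | ⟨s17, m17⟩
                                    · linarith only [hs0, ht0, hs1, ht1, hs2, ht2, hR, ho0, ho1, hL0, m5, m11, m13, m14, m15, m16, m17, p01, p12, p13, hh]
                                    · linarith only [hs0, ht0, hs1, ht1, hs2, ht2, hR, ho0, ho1, hL0, m3, m5, m11, m12, m13, m15, m16, m17, p11, p21, hh]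
                                  · rcases t34 with ⟨s17, m17⟩ | ⟨s17, m17⟩
                                    · linarith only [hs0, ht0, hs1, ht1, hs2, ht2, hR, ho1, m5, m11, m12, m14, m15, m16, m17, p01, p04, p10, p12, p13, hh]
                                    · linarith only [hs0, ht0, hs1, ht1, hs2, ht2, hR, hL0, m3, m5, m10, m11, m15, m16, m17, p01, p04, p11, q1, p21, hh]
                                · linarith only [hs0, ht0, hs1, ht1, hR, ho0, ho1, m3, m6, m7, m9, m13, m15, p01, p02, p20, p23, p24, hh]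
                              · linarith only [hs0, ht0, hs1, ht1, hs2, ht2, hR, ho0, m5, m6, m7, m9, m13, m14, p01, p02, q0, p13, p21, q2, hh]
                            · rcases t35 with ⟨s14, m14⟩ | ⟨s14, m14⟩
                              · linarith only [hs0, ht0, hs1, ht1, hs2, ht2, hR, ho0, ho1, m3, m5, m11, m12, m13, m14, p02, p12, p13, p21, p23, hh]
                              · linarith only [hs0, ht0, hs1, ht1, hs2, ht2, hR, ho0, ho1, hL1, m2, m3, m5, m7, m12, m13, m14, p02, q0, p21, hh]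
                          · linarith only [hs0, ht0, hs1, ht1, hs2, ht2, hR, hL0, m3, m4, m8, s11, m12, p00, q0, p11, q1, p21, q2, hh]
                        · rcases t36 with ⟨s12, m12⟩ | ⟨s12, m12⟩
                          · rcases t30 with ⟨s13, m13⟩ | ⟨s13, m13⟩
                            · rcases t9 with ⟨s14, m14⟩ | ⟨s14, m14⟩
                              · linarith only [hs0, ht0, hs1, ht1, hs2, ht2, hR, ho0, m7, m8, m9, m11, m12, m13, m14, p00, q0, p13, p22, p23, hh]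
                              · rcases t10 with ⟨s15, m15⟩ | ⟨s15, m15⟩
                                · linarith only [hs0, ht0, hs1, ht1, hs2, ht2, hR, hL0, m2, m7, m9, m10, m11, m12, m13, m14, m15, p00, p11, p22, hh]
                                · linarith only [hs0, ht0, hs1, ht1, hs2, ht2, hR, ho1, m2, m8, m9, m10, m11, m12, m13, m15, p00, p13, p21, p22, hh]
                            · rcases t13 with ⟨s14, m14⟩ | ⟨s14, m14⟩
                              · linarith only [hs0, ht0, hs1, ht1, hs2, ht2, hR, m7, m8, m9, m12, m13, m14, p00, p03, q0, p13, p21, p22, hh]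
                              · linarith only [hs0, ht0, hs1, ht1, hs2, ht2, hR, ho0, hL1, m2, m4, m8, m10, m12, m13, m14, q0, p13, p21, p22, hh]
                          · rcases t33 with ⟨s13, m13⟩ | ⟨s13, m13⟩
                            · rcases t37 with ⟨s14, m14⟩ | ⟨s14, m14⟩
                              · rcases t9 with ⟨s15, m15⟩ | ⟨s15, m15⟩
                                · linarith only [hs0, ht0, hs1, ht1, hs2, ht2, hR, ho0, ho1, hL0, m2, m11, m12, m13, m14, m15, p00, q0, p13, p23, hh]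
                                · rcases t35 with ⟨s16, m16⟩ | ⟨s16, m16⟩
                                  · linarith only [hs0, ht0, hs1, ht1, hs2, ht2, hR, ho1, hL0, m6, m10, m13, m14, m15, m16, q0, p12, p13, p21, p22, hh]
                                  · linarith only [hs0, ht0, hs1, ht1, hs2, ht2, hR, ho1, m7, m10, m11, m12, m13, m14, m15, m16, q0, p10, p21, p22, hh]
                              · rcases t38 with ⟨s15, m15⟩ | ⟨s15, m15⟩
                                · rcases t39 with ⟨s16, m16⟩ | ⟨s16, m16⟩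
                                  · linarith only [hs0, ht0, hs1, ht1, hs2, ht2, hR, ho1, hL0, m7, m9, m13, m14, m15, m16, p03, q0, p11, p12, p22, hh]
                                  · linarith only [hs0, ht0, hs1, ht1, hs2, ht2, hR, ho1, m7, m10, s12, m13, m14, m15, m16, p00, q0, p11, p21, p22, hh]
                                · rcases t40 with ⟨s16, m16⟩ | ⟨s16, m16⟩
                                  · rcases t41 with ⟨s17, m17⟩ | ⟨s17, m17⟩
                                    · linarith only [hs0, ht0, hs1, ht1, hs2, ht2, hR, ho1, hL0, m13, m14, m15, m17, p03, q0, p13, p21, p22, p23, hh]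
                                    · rcases t42 with ⟨s18, m18⟩ | ⟨s18, m18⟩
                                      · linarith only [hs0, ht0, hs1, ht1, hs2, ht2, hR, hL0, m7, m9, m13, m14, m15, m16, m17, m18, p03, q0, p21, p22, hh]
                                      · linarith only [hs0, ht0, hs1, ht1, hs2, ht2, hR, ho1, m9, m11, m13, m14, m15, m16, m18, p03, q0, p13, p21, p22, hh]
                                  · linarith only [hs0, ht0, hs1, ht1, hs2, ht2, hR, ho0, ho1, m9, m10, m12, m13, m14, m16, q0, p13, p21, p22, q2, hh]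
                            · rcases t43 with ⟨s14, m14⟩ | ⟨s14, m14⟩
                              · rcases t44 with ⟨s15, m15⟩ | ⟨s15, m15⟩
                                · linarith only [hs0, ht0, hs1, ht1, hs2, ht2, hR, ho1, m7, m9, m10, m11, m12, m13, m14, m15, p03, q0, p11, p23, hh]
                                · linarith only [hs0, ht0, hs1, ht1, hs2, ht2, hR, m3, m7, m9, m10, m11, m12, m14, m15, p00, p03, p11, p23, hh]
                              · rcases t45 with ⟨s15, m15⟩ | ⟨s15, m15⟩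
                                · linarith only [hs0, ht0, hs1, ht1, hs2, ht2, hR, m3, m8, m14, m15, p01, p03, q0, p11, p12, q1, p22, hh]
                                · linarith only [hs0, ht0, hs1, ht1, hs2, ht2, hR, hL1, m3, m6, m8, m10, m13, m14, m15, q0, p11, p12, p21, p22, hh]
                      · linarith only [hs0, ht0, hs1, ht1, hs2, ht2, hR, hL1, m2, m4, m6, m7, m10, p03, q0, p11, q1, p21, q2, hh]
                    · linarith only [hR, hL1, m7, m9, p03, p13, p20, hh]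
                  · linarith only [hR, ho0, ho1, hL1, m8, p20, p22, p23, p24, hh]
                · linarith only [hs0, ht0, hs1, ht1, hR, ho1, hL1, m2, m6, m7, p01, p02, q0, p11, p12, q1, p23, hh]
              · linarith only [hs0, ht0, hs1, ht1, hs2, ht2, hR, hL1, m5, m6, p03, q0, p12, q1, q2, hh]
          · linarith only [hs0, hR, hL1, m4, p00, p02, p03, q0, hh]
        · linarith only [hs1, hR, hL1, m3, p10, p12, p13, q1, hh]
      · linarith only [hs0, ht0, hs2, ht2, hR, ho0, hL1, m2, p01, p02, q0, p20, p21, p22, q2, hh]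
    · linarith only [hR, hL1, m1, hh]
  · linarith only [hs1, hR, hL1, m0, p10, p12, p13, q1, hh]

end Pool.Agent.AbcE
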