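import Mathlib
import Pool.Agent.AbcE.LPcore

/-! The linear programme in invariant form. -/

namespace Pool.Agent.AbcE

/-- The class of exponents used for the `e`-th powers: the exponents `2, 4` for `e = 2`, `3` for
`e = 3` and `4` for `e = 4` (the index `i < 4` stands for the exponent `i + 1`, the index `4` for the
exponents at least `5`). -/
def cls (e : ℕ) (i : Fin 5) : Bool :=
  if e = 2 then (i = 1 || i = 3) else if e = 3 then i = 2 else i = 3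

/-- The cost of a choice of free classes `S`; `r` is the group where the free part is arbitrary. -/
noncomputable def cost (a b : Fin 3 → Fin 5 → ℝ) (h : ℝ) (r : Fin 3) (e : ℕ)
    (S : Fin 3 → Fin 5 → Bool) : ℝ :=
  (∑ g, ∑ i, if S g i then 0 else a g i) +
    max 0 ((∑ g, if g = r then 0 else ∑ i, if S g i then b g i else 0) / e +
      (∑ i, if S r i then b r i else 0) - h)

/-- The admissible choices. -/
def Adm (r : Fin 3) (e : ℕ) (S : Fin 3 → Fin 5 → Bool) : Prop :=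
  e = 1 ∨ ((e = 2 ∨ e = 3 ∨ e = 4) ∧ ∀ g, g ≠ r → S g = cls e)

theorem cost_perm (a b : Fin 3 → Fin 5 → ℝ) (h : ℝ) (r : Fin 3) (e : ℕ)
    (S : Fin 3 → Fin 5 → Bool) (p : Equiv.Perm (Fin 3)) :
    cost (fun g => a (p g)) (fun g => b (p g)) h r e S =
      cost a b h (p r) e (fun g => S (p.symm g)) := by
  unfold cost
  have h1 : (∑ g, ∑ i, if S (p.symm g) i then 0 else a g i) =
      ∑ g, ∑ i, if S g i then 0 else a (p g) i := by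
    rw [← Equiv.sum_comp p]
    simp only [Equiv.symm_apply_apply]
  have h2 : (∑ g, if g = p r then 0 else ∑ i, if S (p.symm g) i then b g i else 0) =
      ∑ g, if g = r then 0 else ∑ i, if S g i then b (p g) i else 0 := by
    rw [← Equiv.sum_comp p]
    simp only [Equiv.symm_apply_apply, EmbeddingLike.apply_eq_iff_eq]
  simp only [h1, h2, Equiv.symm_apply_apply]

theorem adm_perm {r : Fin 3} {e : ℕ} {S : Fin 3 → Fin 5 → Bool} (hA : Adm r e S)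
    (p : Equiv.Perm (Fin 3)) : Adm (p r) e (fun g => S (p.symm g)) := by
  rcases hA with h | ⟨h, h'⟩
  · exact Or.inl h
  · refine Or.inr ⟨h, fun g hg => h' _ ?_⟩
    intro hh
    apply hg
    rw [← hh, Equiv.apply_symm_apply]

theorem split_max {K O t h : ℝ} (H : t < K + max 0 (O - h)) :
    (O ≤ h ∧ t < K) ∨ (h ≤ O ∧ t < K + (O - h)) := by
  rcases le_total O h with h1 | h1
  · left
    refine ⟨h1, ?_⟩
    rwa [max_eq_left (by linarith), add_zero] at H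
  · right
    refine ⟨h1, ?_⟩
    rwa [max_eq_right (by linarith)] at H

/-- The sorted case. -/
theorem lp_sorted (a b : Fin 3 → Fin 5 → ℝ) (h L : ℝ) (ha : ∀ g i, 0 ≤ a g i)
    (hb0 : ∀ g, b g 0 = a g 0) (hb1 : ∀ g, b g 1 = 2 * a g 1) (hb2 : ∀ g, b g 2 = 3 * a g 2)
    (hb3 : ∀ g, b g 3 = 4 * a g 3) (hb4 : ∀ g, 5 * a g 4 ≤ b g 4)
    (hs : ∀ g, ∑ i, b g i ≤ h) (hR : ∑ g, ∑ i, a g i ≤ L)
    (ho0 : ∑ i, a 1 i ≤ ∑ i, a 0 i) (ho1 : ∑ i, a 2 i ≤ ∑ i, a 1 i)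
    (hL0 : 49 / 50 * h ≤ L) (hL1 : L ≤ 11 / 10 * h)
    (H : ∀ r e S, Adm r e S → (93 * L - 13 * h) / 133 < cost a b h r e S) : False := by
  have hb4' : ∀ g, 0 ≤ b g 4 := fun g => by have := ha g 4; have := hb4 g; linarith
  have hs0 := hs 0
  have hs1 := hs 1
  have hs2 := hs 2
  simp only [Fin.sum_univ_five, hb0, hb1, hb2, hb3] at hs0 hs1 hs2
  simp only [Fin.sum_univ_five] at ho0 ho1
  simp only [Fin.sum_univ_three, Fin.sum_univ_five] at hR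
  have hh : 0 ≤ h := by
    have := ha 0 0; have := ha 0 1; have := ha 0 2; have := ha 0 3; have := hb4' 0
    linarith
  have t0 : (a 1 0 + 2 * a 1 1 ≤ h ∧ (93 * L - 13 * h) / 133 < a 0 0 + a 0 1 + a 0 2 + a 0 3 + a 0 4 + a 1 2 + a 1 3 + a 1 4 + a 2 0 + a 2 1 + a 2 2 + a 2 3 + a 2 4) ∨
      (h ≤ a 1 0 + 2 * a 1 1 ∧ (93 * L - 13 * h) / 133 < a 0 0 + a 0 1 + a 0 2 + a 0 3 + a 0 4 + a 1 2 + a 1 3 + a 1 4 + a 2 0 + a 2 1 + a 2 2 + a 2 3 + a 2 4 + (a 1 0 + 2 * a 1 1 - h)) := by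
    apply split_max
    have := H 0 1 ![![false, false, false, false, false], ![true, true, false, false, false], ![false, false, false, false, false]] (Or.inl rfl)
    refine lt_of_lt_of_eq this ?_
    simp [cost, Fin.sum_univ_three, Fin.sum_univ_five, hb0, hb1, hb2, hb3]
    try ring_nf
  have t1 : (a 0 0 + a 2 0 ≤ h ∧ (93 * L - 13 * h) / 133 < a 0 1 + a 0 2 + a 0 3 + a 0 4 + a 1 0 + a 1 1 + a 1 2 + a 1 3 + a 1 4 + a 2 1 + a 2 2 + a 2 3 + a 2 4) ∨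
      (h ≤ a 0 0 + a 2 0 ∧ (93 * L - 13 * h) / 133 < a 0 1 + a 0 2 + a 0 3 + a 0 4 + a 1 0 + a 1 1 + a 1 2 + a 1 3 + a 1 4 + a 2 1 + a 2 2 + a 2 3 + a 2 4 + (a 0 0 + a 2 0 - h)) := by
    apply split_max
    have := H 0 1 ![![true, false, false, false, false], ![false, false, false, false, false], ![true, false, false, false, false]] (Or.inl rfl)
    refine lt_of_lt_of_eq this ?_
    simp [cost, Fin.sum_univ_three, Fin.sum_univ_five, hb0, hb1, hb2, hb3]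
    try ring_nf
  have t2 : (a 0 1 + 2 * a 0 3 + a 1 0 + a 2 1 + 2 * a 2 3 ≤ h ∧ (93 * L - 13 * h) / 133 < a 0 0 + a 0 2 + a 0 4 + a 1 1 + a 1 2 + a 1 3 + a 1 4 + a 2 0 + a 2 2 + a 2 4) ∨
      (h ≤ a 0 1 + 2 * a 0 3 + a 1 0 + a 2 1 + 2 * a 2 3 ∧ (93 * L - 13 * h) / 133 < a 0 0 + a 0 2 + a 0 4 + a 1 1 + a 1 2 + a 1 3 + a 1 4 + a 2 0 + a 2 2 + a 2 4 + (a 0 1 + 2 * a 0 3 + a 1 0 + a 2 1 + 2 * a 2 3 - h)) := by
    apply split_max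
    have := H 1 2 ![![false, true, false, true, false], ![true, false, false, false, false], ![false, true, false, true, false]] (Or.inr ⟨by decide, by decide⟩)
    refine lt_of_lt_of_eq this ?_
    simp [cost, Fin.sum_univ_three, Fin.sum_univ_five, hb0, hb1, hb2, hb3]
    try ring_nf
  have t3 : (a 0 2 + a 1 0 + 2 * a 1 1 + a 2 2 ≤ h ∧ (93 * L - 13 * h) / 133 < a 0 0 + a 0 1 + a 0 3 + a 0 4 + a 1 2 + a 1 3 + a 1 4 + a 2 0 + a 2 1 + a 2 3 + a 2 4) ∨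
      (h ≤ a 0 2 + a 1 0 + 2 * a 1 1 + a 2 2 ∧ (93 * L - 13 * h) / 133 < a 0 0 + a 0 1 + a 0 3 + a 0 4 + a 1 2 + a 1 3 + a 1 4 + a 2 0 + a 2 1 + a 2 3 + a 2 4 + (a 0 2 + a 1 0 + 2 * a 1 1 + a 2 2 - h)) := by
    apply split_max
    have := H 1 3 ![![false, false, true, false, false], ![true, true, false, false, false], ![false, false, true, false, false]] (Or.inr ⟨by decide, by decide⟩)
    refine lt_of_lt_of_eq this ?_
    simp [cost, Fin.sum_univ_three, Fin.sum_univ_five, hb0, hb1, hb2, hb3]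
    try ring_nf
  have t4 : (a 0 0 + 2 * a 0 1 + a 1 2 + a 2 2 ≤ h ∧ (93 * L - 13 * h) / 133 < a 0 2 + a 0 3 + a 0 4 + a 1 0 + a 1 1 + a 1 3 + a 1 4 + a 2 0 + a 2 1 + a 2 3 + a 2 4) ∨
      (h ≤ a 0 0 + 2 * a 0 1 + a 1 2 + a 2 2 ∧ (93 * L - 13 * h) / 133 < a 0 2 + a 0 3 + a 0 4 + a 1 0 + a 1 1 + a 1 3 + a 1 4 + a 2 0 + a 2 1 + a 2 3 + a 2 4 + (a 0 0 + 2 * a 0 1 + a 1 2 + a 2 2 - h)) := by
    apply split_max
    have := H 0 3 ![![true, true, false, false, false], ![false, false, true, false, false], ![false, false, true, false, false]] (Or.inr ⟨by decide, by decide⟩)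
    refine lt_of_lt_of_eq this ?_
    simp [cost, Fin.sum_univ_three, Fin.sum_univ_five, hb0, hb1, hb2, hb3]
    try ring_nf
  have t5 : (a 0 0 + 2 * a 0 1 + 3 * a 0 2 + a 1 0 + 2 * a 1 1 + a 2 0 + 2 * a 2 1 + 3 * a 2 2 ≤ h ∧ (93 * L - 13 * h) / 133 < a 0 3 + a 0 4 + a 1 2 + a 1 3 + a 1 4 + a 2 3 + a 2 4) ∨
      (h ≤ a 0 0 + 2 * a 0 1 + 3 * a 0 2 + a 1 0 + 2 * a 1 1 + a 2 0 + 2 * a 2 1 + 3 * a 2 2 ∧ (93 * L - 13 * h) / 133 < a 0 3 + a 0 4 + a 1 2 + a 1 3 + a 1 4 + a 2 3 + a 2 4 + (a 0 0 + 2 * a 0 1 + 3 * a 0 2 + a 1 0 + 2 * a 1 1 + a 2 0 + 2 * a 2 1 + 3 * a 2 2 - h)) := by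
    apply split_max
    have := H 0 1 ![![true, true, true, false, false], ![true, true, false, false, false], ![true, true, true, false, false]] (Or.inl rfl)
    refine lt_of_lt_of_eq this ?_
    simp [cost, Fin.sum_univ_three, Fin.sum_univ_five, hb0, hb1, hb2, hb3]
    try ring_nf
  have t6 : (a 0 0 + a 1 0 + 2 * a 1 1 + 3 * a 1 2 + a 2 0 + 3 * a 2 2 ≤ h ∧ (93 * L - 13 * h) / 133 < a 0 1 + a 0 2 + a 0 3 + a 0 4 + a 1 3 + a 1 4 + a 2 1 + a 2 3 + a 2 4) ∨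
      (h ≤ a 0 0 + a 1 0 + 2 * a 1 1 + 3 * a 1 2 + a 2 0 + 3 * a 2 2 ∧ (93 * L - 13 * h) / 133 < a 0 1 + a 0 2 + a 0 3 + a 0 4 + a 1 3 + a 1 4 + a 2 1 + a 2 3 + a 2 4 + (a 0 0 + a 1 0 + 2 * a 1 1 + 3 * a 1 2 + a 2 0 + 3 * a 2 2 - h)) := by
    apply split_max
    have := H 0 1 ![![true, false, false, false, false], ![true, true, true, false, false], ![true, false, true, false, false]] (Or.inl rfl)
    refine lt_of_lt_of_eq this ?_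
    simp [cost, Fin.sum_univ_three, Fin.sum_univ_five, hb0, hb1, hb2, hb3]
    try ring_nf
  have t7 : (a 0 0 + 2 * a 0 1 + 3 * a 0 2 + a 1 3 + a 2 3 ≤ h ∧ (93 * L - 13 * h) / 133 < a 0 3 + a 0 4 + a 1 0 + a 1 1 + a 1 2 + a 1 4 + a 2 0 + a 2 1 + a 2 2 + a 2 4) ∨
      (h ≤ a 0 0 + 2 * a 0 1 + 3 * a 0 2 + a 1 3 + a 2 3 ∧ (93 * L - 13 * h) / 133 < a 0 3 + a 0 4 + a 1 0 + a 1 1 + a 1 2 + a 1 4 + a 2 0 + a 2 1 + a 2 2 + a 2 4 + (a 0 0 + 2 * a 0 1 + 3 * a 0 2 + a 1 3 + a 2 3 - h)) := by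
    apply split_max
    have := H 0 4 ![![true, true, true, false, false], ![false, false, false, true, false], ![false, false, false, true, false]] (Or.inr ⟨by decide, by decide⟩)
    refine lt_of_lt_of_eq this ?_
    simp [cost, Fin.sum_univ_three, Fin.sum_univ_five, hb0, hb1, hb2, hb3]
    try ring_nf
  have t8 : (a 0 1 + 2 * a 0 3 + a 1 1 + 2 * a 1 3 + a 2 0 + 2 * a 2 1 ≤ h ∧ (93 * L - 13 * h) / 133 < a 0 0 + a 0 2 + a 0 4 + a 1 0 + a 1 2 + a 1 4 + a 2 2 + a 2 3 + a 2 4) ∨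
      (h ≤ a 0 1 + 2 * a 0 3 + a 1 1 + 2 * a 1 3 + a 2 0 + 2 * a 2 1 ∧ (93 * L - 13 * h) / 133 < a 0 0 + a 0 2 + a 0 4 + a 1 0 + a 1 2 + a 1 4 + a 2 2 + a 2 3 + a 2 4 + (a 0 1 + 2 * a 0 3 + a 1 1 + 2 * a 1 3 + a 2 0 + 2 * a 2 1 - h)) := by
    apply split_max
    have := H 2 2 ![![false, true, false, true, false], ![false, true, false, true, false], ![true, true, false, false, false]] (Or.inr ⟨by decide, by decide⟩)
    refine lt_of_lt_of_eq this ?_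
    simp [cost, Fin.sum_univ_three, Fin.sum_univ_five, hb0, hb1, hb2, hb3]
    try ring_nf
  have t9 : (a 0 0 + 2 * a 0 1 + 3 * a 0 2 + a 1 1 + 2 * a 1 3 + a 2 1 + 2 * a 2 3 ≤ h ∧ (93 * L - 13 * h) / 133 < a 0 3 + a 0 4 + a 1 0 + a 1 2 + a 1 4 + a 2 0 + a 2 2 + a 2 4) ∨
      (h ≤ a 0 0 + 2 * a 0 1 + 3 * a 0 2 + a 1 1 + 2 * a 1 3 + a 2 1 + 2 * a 2 3 ∧ (93 * L - 13 * h) / 133 < a 0 3 + a 0 4 + a 1 0 + a 1 2 + a 1 4 + a 2 0 + a 2 2 + a 2 4 + (a 0 0 + 2 * a 0 1 + 3 * a 0 2 + a 1 1 + 2 * a 1 3 + a 2 1 + 2 * a 2 3 - h)) := by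
    apply split_max
    have := H 0 2 ![![true, true, true, false, false], ![false, true, false, true, false], ![false, true, false, true, false]] (Or.inr ⟨by decide, by decide⟩)
    refine lt_of_lt_of_eq this ?_
    simp [cost, Fin.sum_univ_three, Fin.sum_univ_five, hb0, hb1, hb2, hb3]
    try ring_nf
  have t10 : (a 0 2 + a 1 2 + a 2 0 + 2 * a 2 1 + 4 * a 2 3 ≤ h ∧ (93 * L - 13 * h) / 133 < a 0 0 + a 0 1 + a 0 3 + a 0 4 + a 1 0 + a 1 1 + a 1 3 + a 1 4 + a 2 2 + a 2 4) ∨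
      (h ≤ a 0 2 + a 1 2 + a 2 0 + 2 * a 2 1 + 4 * a 2 3 ∧ (93 * L - 13 * h) / 133 < a 0 0 + a 0 1 + a 0 3 + a 0 4 + a 1 0 + a 1 1 + a 1 3 + a 1 4 + a 2 2 + a 2 4 + (a 0 2 + a 1 2 + a 2 0 + 2 * a 2 1 + 4 * a 2 3 - h)) := by
    apply split_max
    have := H 2 3 ![![false, false, true, false, false], ![false, false, true, false, false], ![true, true, false, true, false]] (Or.inr ⟨by decide, by decide⟩)
    refine lt_of_lt_of_eq this ?_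
    simp [cost, Fin.sum_univ_three, Fin.sum_univ_five, hb0, hb1, hb2, hb3]
    try ring_nf
  have t11 : (a 0 0 + 2 * a 0 1 + a 1 0 + 3 * a 1 2 + a 2 0 + 3 * a 2 2 ≤ h ∧ (93 * L - 13 * h) / 133 < a 0 2 + a 0 3 + a 0 4 + a 1 1 + a 1 3 + a 1 4 + a 2 1 + a 2 3 + a 2 4) ∨
      (h ≤ a 0 0 + 2 * a 0 1 + a 1 0 + 3 * a 1 2 + a 2 0 + 3 * a 2 2 ∧ (93 * L - 13 * h) / 133 < a 0 2 + a 0 3 + a 0 4 + a 1 1 + a 1 3 + a 1 4 + a 2 1 + a 2 3 + a 2 4 + (a 0 0 + 2 * a 0 1 + a 1 0 + 3 * a 1 2 + a 2 0 + 3 * a 2 2 - h)) := by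
    apply split_max
    have := H 0 1 ![![true, true, false, false, false], ![true, false, true, false, false], ![true, false, true, false, false]] (Or.inl rfl)
    refine lt_of_lt_of_eq this ?_
    simp [cost, Fin.sum_univ_three, Fin.sum_univ_five, hb0, hb1, hb2, hb3]
    try ring_nf
  have t12 : (a 0 3 + a 1 3 + a 2 0 + 4 * a 2 3 ≤ h ∧ (93 * L - 13 * h) / 133 < a 0 0 + a 0 1 + a 0 2 + a 0 4 + a 1 0 + a 1 1 + a 1 2 + a 1 4 + a 2 1 + a 2 2 + a 2 4) ∨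
      (h ≤ a 0 3 + a 1 3 + a 2 0 + 4 * a 2 3 ∧ (93 * L - 13 * h) / 133 < a 0 0 + a 0 1 + a 0 2 + a 0 4 + a 1 0 + a 1 1 + a 1 2 + a 1 4 + a 2 1 + a 2 2 + a 2 4 + (a 0 3 + a 1 3 + a 2 0 + 4 * a 2 3 - h)) := by
    apply split_max
    have := H 2 4 ![![false, false, false, true, false], ![false, false, false, true, false], ![true, false, false, true, false]] (Or.inr ⟨by decide, by decide⟩)
    refine lt_of_lt_of_eq this ?_
    simp [cost, Fin.sum_univ_three, Fin.sum_univ_five, hb0, hb1, hb2, hb3]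
    try ring_nf
  have t13 : (a 0 1 + 2 * a 0 3 + a 1 0 + 3 * a 1 2 + a 2 1 + 2 * a 2 3 ≤ h ∧ (93 * L - 13 * h) / 133 < a 0 0 + a 0 2 + a 0 4 + a 1 1 + a 1 3 + a 1 4 + a 2 0 + a 2 2 + a 2 4) ∨
      (h ≤ a 0 1 + 2 * a 0 3 + a 1 0 + 3 * a 1 2 + a 2 1 + 2 * a 2 3 ∧ (93 * L - 13 * h) / 133 < a 0 0 + a 0 2 + a 0 4 + a 1 1 + a 1 3 + a 1 4 + a 2 0 + a 2 2 + a 2 4 + (a 0 1 + 2 * a 0 3 + a 1 0 + 3 * a 1 2 + a 2 1 + 2 * a 2 3 - h)) := by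
    apply split_max
    have := H 1 2 ![![false, true, false, true, false], ![true, false, true, false, false], ![false, true, false, true, false]] (Or.inr ⟨by decide, by decide⟩)
    refine lt_of_lt_of_eq this ?_
    simp [cost, Fin.sum_univ_three, Fin.sum_univ_five, hb0, hb1, hb2, hb3]
    try ring_nf
  have t14 : (a 0 0 + 2 * a 0 1 + a 1 0 + 2 * a 1 1 + 4 * a 1 3 ≤ h ∧ (93 * L - 13 * h) / 133 < a 0 2 + a 0 3 + a 0 4 + a 1 2 + a 1 4 + a 2 0 + a 2 1 + a 2 2 + a 2 3 + a 2 4) ∨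
      (h ≤ a 0 0 + 2 * a 0 1 + a 1 0 + 2 * a 1 1 + 4 * a 1 3 ∧ (93 * L - 13 * h) / 133 < a 0 2 + a 0 3 + a 0 4 + a 1 2 + a 1 4 + a 2 0 + a 2 1 + a 2 2 + a 2 3 + a 2 4 + (a 0 0 + 2 * a 0 1 + a 1 0 + 2 * a 1 1 + 4 * a 1 3 - h)) := by
    apply split_max
    have := H 0 1 ![![true, true, false, false, false], ![true, true, false, true, false], ![false, false, false, false, false]] (Or.inl rfl)
    refine lt_of_lt_of_eq this ?_
    simp [cost, Fin.sum_univ_three, Fin.sum_univ_five, hb0, hb1, hb2, hb3]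
    try ring_nf
  have t15 : (a 0 0 + 2 * a 0 1 + 3 * a 0 2 + 4 * a 0 3 + b 0 4 + a 1 0 + 2 * a 1 1 + a 2 0 + 3 * a 2 2 ≤ h ∧ (93 * L - 13 * h) / 133 < a 1 2 + a 1 3 + a 1 4 + a 2 1 + a 2 3 + a 2 4) ∨
      (h ≤ a 0 0 + 2 * a 0 1 + 3 * a 0 2 + 4 * a 0 3 + b 0 4 + a 1 0 + 2 * a 1 1 + a 2 0 + 3 * a 2 2 ∧ (93 * L - 13 * h) / 133 < a 1 2 + a 1 3 + a 1 4 + a 2 1 + a 2 3 + a 2 4 + (a 0 0 + 2 * a 0 1 + 3 * a 0 2 + 4 * a 0 3 + b 0 4 + a 1 0 + 2 * a 1 1 + a 2 0 + 3 * a 2 2 - h)) := by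
    apply split_max
    have := H 0 1 ![![true, true, true, true, true], ![true, true, false, false, false], ![true, false, true, false, false]] (Or.inl rfl)
    refine lt_of_lt_of_eq this ?_
    simp [cost, Fin.sum_univ_three, Fin.sum_univ_five, hb0, hb1, hb2, hb3]
    try ring_nf
  have t16 : (a 0 0 + 2 * a 0 1 + 3 * a 0 2 + a 1 0 + 2 * a 1 1 + 3 * a 1 2 + b 1 4 + a 2 0 + 2 * a 2 1 + 3 * a 2 2 ≤ h ∧ (93 * L - 13 * h) / 133 < a 0 3 + a 0 4 + a 1 3 + a 2 3 + a 2 4) ∨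
      (h ≤ a 0 0 + 2 * a 0 1 + 3 * a 0 2 + a 1 0 + 2 * a 1 1 + 3 * a 1 2 + b 1 4 + a 2 0 + 2 * a 2 1 + 3 * a 2 2 ∧ (93 * L - 13 * h) / 133 < a 0 3 + a 0 4 + a 1 3 + a 2 3 + a 2 4 + (a 0 0 + 2 * a 0 1 + 3 * a 0 2 + a 1 0 + 2 * a 1 1 + 3 * a 1 2 + b 1 4 + a 2 0 + 2 * a 2 1 + 3 * a 2 2 - h)) := by
    apply split_max
    have := H 0 1 ![![true, true, true, false, false], ![true, true, true, false, true], ![true, true, true, false, false]] (Or.inl rfl)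
    refine lt_of_lt_of_eq this ?_
    simp [cost, Fin.sum_univ_three, Fin.sum_univ_five, hb0, hb1, hb2, hb3]
    try ring_nf
  have t17 : (a 0 0 + 2 * a 0 1 + a 1 0 + 2 * a 1 1 + 3 * a 1 2 + a 2 0 + 2 * a 2 1 + 3 * a 2 2 + 4 * a 2 3 ≤ h ∧ (93 * L - 13 * h) / 133 < a 0 2 + a 0 3 + a 0 4 + a 1 3 + a 1 4 + a 2 4) ∨
      (h ≤ a 0 0 + 2 * a 0 1 + a 1 0 + 2 * a 1 1 + 3 * a 1 2 + a 2 0 + 2 * a 2 1 + 3 * a 2 2 + 4 * a 2 3 ∧ (93 * L - 13 * h) / 133 < a 0 2 + a 0 3 + a 0 4 + a 1 3 + a 1 4 + a 2 4 + (a 0 0 + 2 * a 0 1 + a 1 0 + 2 * a 1 1 + 3 * a 1 2 + a 2 0 + 2 * a 2 1 + 3 * a 2 2 + 4 * a 2 3 - h)) := by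
    apply split_max
    have := H 0 1 ![![true, true, false, false, false], ![true, true, true, false, false], ![true, true, true, true, false]] (Or.inl rfl)
    refine lt_of_lt_of_eq this ?_
    simp [cost, Fin.sum_univ_three, Fin.sum_univ_five, hb0, hb1, hb2, hb3]
    try ring_nf
  have t18 : (a 0 0 + 4 * a 0 3 + a 1 0 + 2 * a 1 1 + 3 * a 1 2 + b 1 4 + a 2 0 ≤ h ∧ (93 * L - 13 * h) / 133 < a 0 1 + a 0 2 + a 0 4 + a 1 3 + a 2 1 + a 2 2 + a 2 3 + a 2 4) ∨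
      (h ≤ a 0 0 + 4 * a 0 3 + a 1 0 + 2 * a 1 1 + 3 * a 1 2 + b 1 4 + a 2 0 ∧ (93 * L - 13 * h) / 133 < a 0 1 + a 0 2 + a 0 4 + a 1 3 + a 2 1 + a 2 2 + a 2 3 + a 2 4 + (a 0 0 + 4 * a 0 3 + a 1 0 + 2 * a 1 1 + 3 * a 1 2 + b 1 4 + a 2 0 - h)) := by
    apply split_max
    have := H 0 1 ![![true, false, false, true, false], ![true, true, true, false, true], ![true, false, false, false, false]] (Or.inl rfl)
    refine lt_of_lt_of_eq this ?_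
    simp [cost, Fin.sum_univ_three, Fin.sum_univ_five, hb0, hb1, hb2, hb3]
    try ring_nf
  have t19 : (a 0 1 + 2 * a 0 3 + a 1 0 + 2 * a 1 1 + 4 * a 1 3 + b 1 4 + a 2 1 + 2 * a 2 3 ≤ h ∧ (93 * L - 13 * h) / 133 < a 0 0 + a 0 2 + a 0 4 + a 1 2 + a 2 0 + a 2 2 + a 2 4) ∨
      (h ≤ a 0 1 + 2 * a 0 3 + a 1 0 + 2 * a 1 1 + 4 * a 1 3 + b 1 4 + a 2 1 + 2 * a 2 3 ∧ (93 * L - 13 * h) / 133 < a 0 0 + a 0 2 + a 0 4 + a 1 2 + a 2 0 + a 2 2 + a 2 4 + (a 0 1 + 2 * a 0 3 + a 1 0 + 2 * a 1 1 + 4 * a 1 3 + b 1 4 + a 2 1 + 2 * a 2 3 - h)) := by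
    apply split_max
    have := H 1 2 ![![false, true, false, true, false], ![true, true, false, true, true], ![false, true, false, true, false]] (Or.inr ⟨by decide, by decide⟩)
    refine lt_of_lt_of_eq this ?_
    simp [cost, Fin.sum_univ_three, Fin.sum_univ_five, hb0, hb1, hb2, hb3]
    try ring_nf
  have t20 : (a 0 2 + a 1 2 + a 2 0 + 2 * a 2 1 + 3 * a 2 2 ≤ h ∧ (93 * L - 13 * h) / 133 < a 0 0 + a 0 1 + a 0 3 + a 0 4 + a 1 0 + a 1 1 + a 1 3 + a 1 4 + a 2 3 + a 2 4) ∨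
      (h ≤ a 0 2 + a 1 2 + a 2 0 + 2 * a 2 1 + 3 * a 2 2 ∧ (93 * L - 13 * h) / 133 < a 0 0 + a 0 1 + a 0 3 + a 0 4 + a 1 0 + a 1 1 + a 1 3 + a 1 4 + a 2 3 + a 2 4 + (a 0 2 + a 1 2 + a 2 0 + 2 * a 2 1 + 3 * a 2 2 - h)) := by
    apply split_max
    have := H 2 3 ![![false, false, true, false, false], ![false, false, true, false, false], ![true, true, true, false, false]] (Or.inr ⟨by decide, by decide⟩)
    refine lt_of_lt_of_eq this ?_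
    simp [cost, Fin.sum_univ_three, Fin.sum_univ_five, hb0, hb1, hb2, hb3]
    try ring_nf
  have t21 : (a 0 3 + a 1 0 + 3 * a 1 2 + a 2 3 ≤ h ∧ (93 * L - 13 * h) / 133 < a 0 0 + a 0 1 + a 0 2 + a 0 4 + a 1 1 + a 1 3 + a 1 4 + a 2 0 + a 2 1 + a 2 2 + a 2 4) ∨
      (h ≤ a 0 3 + a 1 0 + 3 * a 1 2 + a 2 3 ∧ (93 * L - 13 * h) / 133 < a 0 0 + a 0 1 + a 0 2 + a 0 4 + a 1 1 + a 1 3 + a 1 4 + a 2 0 + a 2 1 + a 2 2 + a 2 4 + (a 0 3 + a 1 0 + 3 * a 1 2 + a 2 3 - h)) := by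
    apply split_max
    have := H 1 4 ![![false, false, false, true, false], ![true, false, true, false, false], ![false, false, false, true, false]] (Or.inr ⟨by decide, by decide⟩)
    refine lt_of_lt_of_eq this ?_
    simp [cost, Fin.sum_univ_three, Fin.sum_univ_five, hb0, hb1, hb2, hb3]
    try ring_nf
  have t22 : (a 0 3 + a 1 3 + a 2 0 + 2 * a 2 1 + 3 * a 2 2 ≤ h ∧ (93 * L - 13 * h) / 133 < a 0 0 + a 0 1 + a 0 2 + a 0 4 + a 1 0 + a 1 1 + a 1 2 + a 1 4 + a 2 3 + a 2 4) ∨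
      (h ≤ a 0 3 + a 1 3 + a 2 0 + 2 * a 2 1 + 3 * a 2 2 ∧ (93 * L - 13 * h) / 133 < a 0 0 + a 0 1 + a 0 2 + a 0 4 + a 1 0 + a 1 1 + a 1 2 + a 1 4 + a 2 3 + a 2 4 + (a 0 3 + a 1 3 + a 2 0 + 2 * a 2 1 + 3 * a 2 2 - h)) := by
    apply split_max
    have := H 2 4 ![![false, false, false, true, false], ![false, false, false, true, false], ![true, true, true, false, false]] (Or.inr ⟨by decide, by decide⟩)
    refine lt_of_lt_of_eq this ?_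
    simp [cost, Fin.sum_univ_three, Fin.sum_univ_five, hb0, hb1, hb2, hb3]
    try ring_nf
  have t23 : (a 0 0 + 2 * a 0 1 + a 1 0 + 2 * a 1 1 + 3 * a 1 2 + a 2 0 + 2 * a 2 1 + 4 * a 2 3 ≤ h ∧ (93 * L - 13 * h) / 133 < a 0 2 + a 0 3 + a 0 4 + a 1 3 + a 1 4 + a 2 2 + a 2 4) ∨
      (h ≤ a 0 0 + 2 * a 0 1 + a 1 0 + 2 * a 1 1 + 3 * a 1 2 + a 2 0 + 2 * a 2 1 + 4 * a 2 3 ∧ (93 * L - 13 * h) / 133 < a 0 2 + a 0 3 + a 0 4 + a 1 3 + a 1 4 + a 2 2 + a 2 4 + (a 0 0 + 2 * a 0 1 + a 1 0 + 2 * a 1 1 + 3 * a 1 2 + a 2 0 + 2 * a 2 1 + 4 * a 2 3 - h)) := by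
    apply split_max
    have := H 0 1 ![![true, true, false, false, false], ![true, true, true, false, false], ![true, true, false, true, false]] (Or.inl rfl)
    refine lt_of_lt_of_eq this ?_
    simp [cost, Fin.sum_univ_three, Fin.sum_univ_five, hb0, hb1, hb2, hb3]
    try ring_nf
  have t24 : (a 0 0 + 2 * a 0 1 + 4 * a 0 3 + a 1 2 + a 2 2 ≤ h ∧ (93 * L - 13 * h) / 133 < a 0 2 + a 0 4 + a 1 0 + a 1 1 + a 1 3 + a 1 4 + a 2 0 + a 2 1 + a 2 3 + a 2 4) ∨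
      (h ≤ a 0 0 + 2 * a 0 1 + 4 * a 0 3 + a 1 2 + a 2 2 ∧ (93 * L - 13 * h) / 133 < a 0 2 + a 0 4 + a 1 0 + a 1 1 + a 1 3 + a 1 4 + a 2 0 + a 2 1 + a 2 3 + a 2 4 + (a 0 0 + 2 * a 0 1 + 4 * a 0 3 + a 1 2 + a 2 2 - h)) := by
    apply split_max
    have := H 0 3 ![![true, true, false, true, false], ![false, false, true, false, false], ![false, false, true, false, false]] (Or.inr ⟨by decide, by decide⟩)
    refine lt_of_lt_of_eq this ?_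
    simp [cost, Fin.sum_univ_three, Fin.sum_univ_five, hb0, hb1, hb2, hb3]
    try ring_nf
  have t25 : (a 0 0 + a 1 1 + 2 * a 1 3 + a 2 1 + 2 * a 2 3 ≤ h ∧ (93 * L - 13 * h) / 133 < a 0 1 + a 0 2 + a 0 3 + a 0 4 + a 1 0 + a 1 2 + a 1 4 + a 2 0 + a 2 2 + a 2 4) ∨
      (h ≤ a 0 0 + a 1 1 + 2 * a 1 3 + a 2 1 + 2 * a 2 3 ∧ (93 * L - 13 * h) / 133 < a 0 1 + a 0 2 + a 0 3 + a 0 4 + a 1 0 + a 1 2 + a 1 4 + a 2 0 + a 2 2 + a 2 4 + (a 0 0 + a 1 1 + 2 * a 1 3 + a 2 1 + 2 * a 2 3 - h)) := by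
    apply split_max
    have := H 0 2 ![![true, false, false, false, false], ![false, true, false, true, false], ![false, true, false, true, false]] (Or.inr ⟨by decide, by decide⟩)
    refine lt_of_lt_of_eq this ?_
    simp [cost, Fin.sum_univ_three, Fin.sum_univ_five, hb0, hb1, hb2, hb3]
    try ring_nf
  have t26 : (a 0 2 + a 1 2 + a 2 0 + 2 * a 2 1 ≤ h ∧ (93 * L - 13 * h) / 133 < a 0 0 + a 0 1 + a 0 3 + a 0 4 + a 1 0 + a 1 1 + a 1 3 + a 1 4 + a 2 2 + a 2 3 + a 2 4) ∨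
      (h ≤ a 0 2 + a 1 2 + a 2 0 + 2 * a 2 1 ∧ (93 * L - 13 * h) / 133 < a 0 0 + a 0 1 + a 0 3 + a 0 4 + a 1 0 + a 1 1 + a 1 3 + a 1 4 + a 2 2 + a 2 3 + a 2 4 + (a 0 2 + a 1 2 + a 2 0 + 2 * a 2 1 - h)) := by
    apply split_max
    have := H 2 3 ![![false, false, true, false, false], ![false, false, true, false, false], ![true, true, false, false, false]] (Or.inr ⟨by decide, by decide⟩)
    refine lt_of_lt_of_eq this ?_
    simp [cost, Fin.sum_univ_three, Fin.sum_univ_five, hb0, hb1, hb2, hb3]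
    try ring_nf
  have t27 : (a 0 0 + 2 * a 0 1 + a 1 0 + 2 * a 1 1 + a 2 0 + 2 * a 2 1 ≤ h ∧ (93 * L - 13 * h) / 133 < a 0 2 + a 0 3 + a 0 4 + a 1 2 + a 1 3 + a 1 4 + a 2 2 + a 2 3 + a 2 4) ∨
      (h ≤ a 0 0 + 2 * a 0 1 + a 1 0 + 2 * a 1 1 + a 2 0 + 2 * a 2 1 ∧ (93 * L - 13 * h) / 133 < a 0 2 + a 0 3 + a 0 4 + a 1 2 + a 1 3 + a 1 4 + a 2 2 + a 2 3 + a 2 4 + (a 0 0 + 2 * a 0 1 + a 1 0 + 2 * a 1 1 + a 2 0 + 2 * a 2 1 - h)) := by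
    apply split_max
    have := H 0 1 ![![true, true, false, false, false], ![true, true, false, false, false], ![true, true, false, false, false]] (Or.inl rfl)
    refine lt_of_lt_of_eq this ?_
    simp [cost, Fin.sum_univ_three, Fin.sum_univ_five, hb0, hb1, hb2, hb3]
    try ring_nf
  have t28 : (a 0 0 + 2 * a 0 1 + a 1 1 + 2 * a 1 3 + a 2 1 + 2 * a 2 3 ≤ h ∧ (93 * L - 13 * h) / 133 < a 0 2 + a 0 3 + a 0 4 + a 1 0 + a 1 2 + a 1 4 + a 2 0 + a 2 2 + a 2 4) ∨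
      (h ≤ a 0 0 + 2 * a 0 1 + a 1 1 + 2 * a 1 3 + a 2 1 + 2 * a 2 3 ∧ (93 * L - 13 * h) / 133 < a 0 2 + a 0 3 + a 0 4 + a 1 0 + a 1 2 + a 1 4 + a 2 0 + a 2 2 + a 2 4 + (a 0 0 + 2 * a 0 1 + a 1 1 + 2 * a 1 3 + a 2 1 + 2 * a 2 3 - h)) := by
    apply split_max
    have := H 0 2 ![![true, true, false, false, false], ![false, true, false, true, false], ![false, true, false, true, false]] (Or.inr ⟨by decide, by decide⟩)
    refine lt_of_lt_of_eq this ?_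
    simp [cost, Fin.sum_univ_three, Fin.sum_univ_five, hb0, hb1, hb2, hb3]
    try ring_nf
  have t29 : (a 0 0 + 2 * a 0 1 + 3 * a 0 2 + a 1 0 + 2 * a 1 1 + a 2 0 + 2 * a 2 1 ≤ h ∧ (93 * L - 13 * h) / 133 < a 0 3 + a 0 4 + a 1 2 + a 1 3 + a 1 4 + a 2 2 + a 2 3 + a 2 4) ∨
      (h ≤ a 0 0 + 2 * a 0 1 + 3 * a 0 2 + a 1 0 + 2 * a 1 1 + a 2 0 + 2 * a 2 1 ∧ (93 * L - 13 * h) / 133 < a 0 3 + a 0 4 + a 1 2 + a 1 3 + a 1 4 + a 2 2 + a 2 3 + a 2 4 + (a 0 0 + 2 * a 0 1 + 3 * a 0 2 + a 1 0 + 2 * a 1 1 + a 2 0 + 2 * a 2 1 - h)) := by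
    apply split_max
    have := H 0 1 ![![true, true, true, false, false], ![true, true, false, false, false], ![true, true, false, false, false]] (Or.inl rfl)
    refine lt_of_lt_of_eq this ?_
    simp [cost, Fin.sum_univ_three, Fin.sum_univ_five, hb0, hb1, hb2, hb3]
    try ring_nf
  have t30 : (a 0 0 + 2 * a 0 1 + 3 * a 0 2 + a 1 2 + a 2 2 ≤ h ∧ (93 * L - 13 * h) / 133 < a 0 3 + a 0 4 + a 1 0 + a 1 1 + a 1 3 + a 1 4 + a 2 0 + a 2 1 + a 2 3 + a 2 4) ∨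
      (h ≤ a 0 0 + 2 * a 0 1 + 3 * a 0 2 + a 1 2 + a 2 2 ∧ (93 * L - 13 * h) / 133 < a 0 3 + a 0 4 + a 1 0 + a 1 1 + a 1 3 + a 1 4 + a 2 0 + a 2 1 + a 2 3 + a 2 4 + (a 0 0 + 2 * a 0 1 + 3 * a 0 2 + a 1 2 + a 2 2 - h)) := by
    apply split_max
    have := H 0 3 ![![true, true, true, false, false], ![false, false, true, false, false], ![false, false, true, false, false]] (Or.inr ⟨by decide, by decide⟩)
    refine lt_of_lt_of_eq this ?_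
    simp [cost, Fin.sum_univ_three, Fin.sum_univ_five, hb0, hb1, hb2, hb3]
    try ring_nf
  have t31 : (a 0 1 + 2 * a 0 3 + a 1 0 + 2 * a 1 1 + a 2 1 + 2 * a 2 3 ≤ h ∧ (93 * L - 13 * h) / 133 < a 0 0 + a 0 2 + a 0 4 + a 1 2 + a 1 3 + a 1 4 + a 2 0 + a 2 2 + a 2 4) ∨
      (h ≤ a 0 1 + 2 * a 0 3 + a 1 0 + 2 * a 1 1 + a 2 1 + 2 * a 2 3 ∧ (93 * L - 13 * h) / 133 < a 0 0 + a 0 2 + a 0 4 + a 1 2 + a 1 3 + a 1 4 + a 2 0 + a 2 2 + a 2 4 + (a 0 1 + 2 * a 0 3 + a 1 0 + 2 * a 1 1 + a 2 1 + 2 * a 2 3 - h)) := by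
    apply split_max
    have := H 1 2 ![![false, true, false, true, false], ![true, true, false, false, false], ![false, true, false, true, false]] (Or.inr ⟨by decide, by decide⟩)
    refine lt_of_lt_of_eq this ?_
    simp [cost, Fin.sum_univ_three, Fin.sum_univ_five, hb0, hb1, hb2, hb3]
    try ring_nf
  have t32 : (a 0 0 + 4 * a 0 3 + a 1 1 + 2 * a 1 3 + a 2 1 + 2 * a 2 3 ≤ h ∧ (93 * L - 13 * h) / 133 < a 0 1 + a 0 2 + a 0 4 + a 1 0 + a 1 2 + a 1 4 + a 2 0 + a 2 2 + a 2 4) ∨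
      (h ≤ a 0 0 + 4 * a 0 3 + a 1 1 + 2 * a 1 3 + a 2 1 + 2 * a 2 3 ∧ (93 * L - 13 * h) / 133 < a 0 1 + a 0 2 + a 0 4 + a 1 0 + a 1 2 + a 1 4 + a 2 0 + a 2 2 + a 2 4 + (a 0 0 + 4 * a 0 3 + a 1 1 + 2 * a 1 3 + a 2 1 + 2 * a 2 3 - h)) := by
    apply split_max
    have := H 0 2 ![![true, false, false, true, false], ![false, true, false, true, false], ![false, true, false, true, false]] (Or.inr ⟨by decide, by decide⟩)
    refine lt_of_lt_of_eq this ?_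
    simp [cost, Fin.sum_univ_three, Fin.sum_univ_five, hb0, hb1, hb2, hb3]
    try ring_nf
  have t33 : (a 0 2 + a 1 0 + 2 * a 1 1 + 3 * a 1 2 + 4 * a 1 3 + a 2 2 ≤ h ∧ (93 * L - 13 * h) / 133 < a 0 0 + a 0 1 + a 0 3 + a 0 4 + a 1 4 + a 2 0 + a 2 1 + a 2 3 + a 2 4) ∨
      (h ≤ a 0 2 + a 1 0 + 2 * a 1 1 + 3 * a 1 2 + 4 * a 1 3 + a 2 2 ∧ (93 * L - 13 * h) / 133 < a 0 0 + a 0 1 + a 0 3 + a 0 4 + a 1 4 + a 2 0 + a 2 1 + a 2 3 + a 2 4 + (a 0 2 + a 1 0 + 2 * a 1 1 + 3 * a 1 2 + 4 * a 1 3 + a 2 2 - h)) := by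
    apply split_max
    have := H 1 3 ![![false, false, true, false, false], ![true, true, true, true, false], ![false, false, true, false, false]] (Or.inr ⟨by decide, by decide⟩)
    refine lt_of_lt_of_eq this ?_
    simp [cost, Fin.sum_univ_three, Fin.sum_univ_five, hb0, hb1, hb2, hb3]
    try ring_nf
  have t34 : (a 0 3 + a 1 0 + 2 * a 1 1 + 4 * a 1 3 + a 2 3 ≤ h ∧ (93 * L - 13 * h) / 133 < a 0 0 + a 0 1 + a 0 2 + a 0 4 + a 1 2 + a 1 4 + a 2 0 + a 2 1 + a 2 2 + a 2 4) ∨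
      (h ≤ a 0 3 + a 1 0 + 2 * a 1 1 + 4 * a 1 3 + a 2 3 ∧ (93 * L - 13 * h) / 133 < a 0 0 + a 0 1 + a 0 2 + a 0 4 + a 1 2 + a 1 4 + a 2 0 + a 2 1 + a 2 2 + a 2 4 + (a 0 3 + a 1 0 + 2 * a 1 1 + 4 * a 1 3 + a 2 3 - h)) := by
    apply split_max
    have := H 1 4 ![![false, false, false, true, false], ![true, true, false, true, false], ![false, false, false, true, false]] (Or.inr ⟨by decide, by decide⟩)
    refine lt_of_lt_of_eq this ?_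
    simp [cost, Fin.sum_univ_three, Fin.sum_univ_five, hb0, hb1, hb2, hb3]
    try ring_nf
  have t35 : (a 0 1 + 2 * a 0 3 + a 1 0 + 2 * a 1 1 + 3 * a 1 2 + 4 * a 1 3 + a 2 1 + 2 * a 2 3 ≤ h ∧ (93 * L - 13 * h) / 133 < a 0 0 + a 0 2 + a 0 4 + a 1 4 + a 2 0 + a 2 2 + a 2 4) ∨
      (h ≤ a 0 1 + 2 * a 0 3 + a 1 0 + 2 * a 1 1 + 3 * a 1 2 + 4 * a 1 3 + a 2 1 + 2 * a 2 3 ∧ (93 * L - 13 * h) / 133 < a 0 0 + a 0 2 + a 0 4 + a 1 4 + a 2 0 + a 2 2 + a 2 4 + (a 0 1 + 2 * a 0 3 + a 1 0 + 2 * a 1 1 + 3 * a 1 2 + 4 * a 1 3 + a 2 1 + 2 * a 2 3 - h)) := by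
    apply split_max
    have := H 1 2 ![![false, true, false, true, false], ![true, true, true, true, false], ![false, true, false, true, false]] (Or.inr ⟨by decide, by decide⟩)
    refine lt_of_lt_of_eq this ?_
    simp [cost, Fin.sum_univ_three, Fin.sum_univ_five, hb0, hb1, hb2, hb3]
    try ring_nf
  have t36 : (a 0 2 + a 1 0 + 2 * a 1 1 + 4 * a 1 3 + b 1 4 + a 2 2 ≤ h ∧ (93 * L - 13 * h) / 133 < a 0 0 + a 0 1 + a 0 3 + a 0 4 + a 1 2 + a 2 0 + a 2 1 + a 2 3 + a 2 4) ∨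
      (h ≤ a 0 2 + a 1 0 + 2 * a 1 1 + 4 * a 1 3 + b 1 4 + a 2 2 ∧ (93 * L - 13 * h) / 133 < a 0 0 + a 0 1 + a 0 3 + a 0 4 + a 1 2 + a 2 0 + a 2 1 + a 2 3 + a 2 4 + (a 0 2 + a 1 0 + 2 * a 1 1 + 4 * a 1 3 + b 1 4 + a 2 2 - h)) := by
    apply split_max
    have := H 1 3 ![![false, false, true, false, false], ![true, true, false, true, true], ![false, false, true, false, false]] (Or.inr ⟨by decide, by decide⟩)
    refine lt_of_lt_of_eq this ?_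
    simp [cost, Fin.sum_univ_three, Fin.sum_univ_five, hb0, hb1, hb2, hb3]
    try ring_nf
  have t37 : (a 0 0 + 2 * a 0 1 + 3 * a 0 2 + a 1 0 + a 2 0 ≤ h ∧ (93 * L - 13 * h) / 133 < a 0 3 + a 0 4 + a 1 1 + a 1 2 + a 1 3 + a 1 4 + a 2 1 + a 2 2 + a 2 3 + a 2 4) ∨
      (h ≤ a 0 0 + 2 * a 0 1 + 3 * a 0 2 + a 1 0 + a 2 0 ∧ (93 * L - 13 * h) / 133 < a 0 3 + a 0 4 + a 1 1 + a 1 2 + a 1 3 + a 1 4 + a 2 1 + a 2 2 + a 2 3 + a 2 4 + (a 0 0 + 2 * a 0 1 + 3 * a 0 2 + a 1 0 + a 2 0 - h)) := by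
    apply split_max
    have := H 0 1 ![![true, true, true, false, false], ![true, false, false, false, false], ![true, false, false, false, false]] (Or.inl rfl)
    refine lt_of_lt_of_eq this ?_
    simp [cost, Fin.sum_univ_three, Fin.sum_univ_five, hb0, hb1, hb2, hb3]
    try ring_nf
  have t38 : (a 0 0 + 3 * a 0 2 + 4 * a 0 3 + b 0 4 + a 1 0 + 2 * a 1 1 + 3 * a 1 2 + a 2 0 + 3 * a 2 2 ≤ h ∧ (93 * L - 13 * h) / 133 < a 0 1 + a 1 3 + a 1 4 + a 2 1 + a 2 3 + a 2 4) ∨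
      (h ≤ a 0 0 + 3 * a 0 2 + 4 * a 0 3 + b 0 4 + a 1 0 + 2 * a 1 1 + 3 * a 1 2 + a 2 0 + 3 * a 2 2 ∧ (93 * L - 13 * h) / 133 < a 0 1 + a 1 3 + a 1 4 + a 2 1 + a 2 3 + a 2 4 + (a 0 0 + 3 * a 0 2 + 4 * a 0 3 + b 0 4 + a 1 0 + 2 * a 1 1 + 3 * a 1 2 + a 2 0 + 3 * a 2 2 - h)) := by
    apply split_max
    have := H 0 1 ![![true, false, true, true, true], ![true, true, true, false, false], ![true, false, true, false, false]] (Or.inl rfl)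
    refine lt_of_lt_of_eq this ?_
    simp [cost, Fin.sum_univ_three, Fin.sum_univ_five, hb0, hb1, hb2, hb3]
    try ring_nf
  have t39 : (a 0 1 + 2 * a 0 3 + a 1 0 + 3 * a 1 2 + 4 * a 1 3 + a 2 1 + 2 * a 2 3 ≤ h ∧ (93 * L - 13 * h) / 133 < a 0 0 + a 0 2 + a 0 4 + a 1 1 + a 1 4 + a 2 0 + a 2 2 + a 2 4) ∨
      (h ≤ a 0 1 + 2 * a 0 3 + a 1 0 + 3 * a 1 2 + 4 * a 1 3 + a 2 1 + 2 * a 2 3 ∧ (93 * L - 13 * h) / 133 < a 0 0 + a 0 2 + a 0 4 + a 1 1 + a 1 4 + a 2 0 + a 2 2 + a 2 4 + (a 0 1 + 2 * a 0 3 + a 1 0 + 3 * a 1 2 + 4 * a 1 3 + a 2 1 + 2 * a 2 3 - h)) := by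
    apply split_max
    have := H 1 2 ![![false, true, false, true, false], ![true, false, true, true, false], ![false, true, false, true, false]] (Or.inr ⟨by decide, by decide⟩)
    refine lt_of_lt_of_eq this ?_
    simp [cost, Fin.sum_univ_three, Fin.sum_univ_five, hb0, hb1, hb2, hb3]
    try ring_nf
  have t40 : (a 0 1 + 2 * a 0 3 + a 1 0 + 2 * a 1 1 + 3 * a 1 2 + a 2 1 + 2 * a 2 3 ≤ h ∧ (93 * L - 13 * h) / 133 < a 0 0 + a 0 2 + a 0 4 + a 1 3 + a 1 4 + a 2 0 + a 2 2 + a 2 4) ∨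
      (h ≤ a 0 1 + 2 * a 0 3 + a 1 0 + 2 * a 1 1 + 3 * a 1 2 + a 2 1 + 2 * a 2 3 ∧ (93 * L - 13 * h) / 133 < a 0 0 + a 0 2 + a 0 4 + a 1 3 + a 1 4 + a 2 0 + a 2 2 + a 2 4 + (a 0 1 + 2 * a 0 3 + a 1 0 + 2 * a 1 1 + 3 * a 1 2 + a 2 1 + 2 * a 2 3 - h)) := by
    apply split_max
    have := H 1 2 ![![false, true, false, true, false], ![true, true, true, false, false], ![false, true, false, true, false]] (Or.inr ⟨by decide, by decide⟩)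
    refine lt_of_lt_of_eq this ?_
    simp [cost, Fin.sum_univ_three, Fin.sum_univ_five, hb0, hb1, hb2, hb3]
    try ring_nf
  have t41 : (a 0 0 + 2 * a 0 1 + 4 * a 0 3 + a 1 0 + 2 * a 1 1 + 3 * a 1 2 + 4 * a 1 3 + a 2 0 + 2 * a 2 1 + 4 * a 2 3 ≤ h ∧ (93 * L - 13 * h) / 133 < a 0 2 + a 0 4 + a 1 4 + a 2 2 + a 2 4) ∨
      (h ≤ a 0 0 + 2 * a 0 1 + 4 * a 0 3 + a 1 0 + 2 * a 1 1 + 3 * a 1 2 + 4 * a 1 3 + a 2 0 + 2 * a 2 1 + 4 * a 2 3 ∧ (93 * L - 13 * h) / 133 < a 0 2 + a 0 4 + a 1 4 + a 2 2 + a 2 4 + (a 0 0 + 2 * a 0 1 + 4 * a 0 3 + a 1 0 + 2 * a 1 1 + 3 * a 1 2 + 4 * a 1 3 + a 2 0 + 2 * a 2 1 + 4 * a 2 3 - h)) := by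
    apply split_max
    have := H 0 1 ![![true, true, false, true, false], ![true, true, true, true, false], ![true, true, false, true, false]] (Or.inl rfl)
    refine lt_of_lt_of_eq this ?_
    simp [cost, Fin.sum_univ_three, Fin.sum_univ_five, hb0, hb1, hb2, hb3]
    try ring_nf
  have t42 : (a 0 2 + a 1 2 + a 2 0 + 2 * a 2 1 + 3 * a 2 2 + 4 * a 2 3 ≤ h ∧ (93 * L - 13 * h) / 133 < a 0 0 + a 0 1 + a 0 3 + a 0 4 + a 1 0 + a 1 1 + a 1 3 + a 1 4 + a 2 4) ∨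
      (h ≤ a 0 2 + a 1 2 + a 2 0 + 2 * a 2 1 + 3 * a 2 2 + 4 * a 2 3 ∧ (93 * L - 13 * h) / 133 < a 0 0 + a 0 1 + a 0 3 + a 0 4 + a 1 0 + a 1 1 + a 1 3 + a 1 4 + a 2 4 + (a 0 2 + a 1 2 + a 2 0 + 2 * a 2 1 + 3 * a 2 2 + 4 * a 2 3 - h)) := by
    apply split_max
    have := H 2 3 ![![false, false, true, false, false], ![false, false, true, false, false], ![true, true, true, true, false]] (Or.inr ⟨by decide, by decide⟩)
    refine lt_of_lt_of_eq this ?_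
    simp [cost, Fin.sum_univ_three, Fin.sum_univ_five, hb0, hb1, hb2, hb3]
    try ring_nf
  have t43 : (a 0 0 + 3 * a 0 2 + a 1 3 + a 2 3 ≤ h ∧ (93 * L - 13 * h) / 133 < a 0 1 + a 0 3 + a 0 4 + a 1 0 + a 1 1 + a 1 2 + a 1 4 + a 2 0 + a 2 1 + a 2 2 + a 2 4) ∨
      (h ≤ a 0 0 + 3 * a 0 2 + a 1 3 + a 2 3 ∧ (93 * L - 13 * h) / 133 < a 0 1 + a 0 3 + a 0 4 + a 1 0 + a 1 1 + a 1 2 + a 1 4 + a 2 0 + a 2 1 + a 2 2 + a 2 4 + (a 0 0 + 3 * a 0 2 + a 1 3 + a 2 3 - h)) := by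
    apply split_max
    have := H 0 4 ![![true, false, true, false, false], ![false, false, false, true, false], ![false, false, false, true, false]] (Or.inr ⟨by decide, by decide⟩)
    refine lt_of_lt_of_eq this ?_
    simp [cost, Fin.sum_univ_three, Fin.sum_univ_five, hb0, hb1, hb2, hb3]
    try ring_nf
  have t44 : (a 0 2 + a 1 0 + 2 * a 1 1 + 4 * a 1 3 + a 2 2 ≤ h ∧ (93 * L - 13 * h) / 133 < a 0 0 + a 0 1 + a 0 3 + a 0 4 + a 1 2 + a 1 4 + a 2 0 + a 2 1 + a 2 3 + a 2 4) ∨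
      (h ≤ a 0 2 + a 1 0 + 2 * a 1 1 + 4 * a 1 3 + a 2 2 ∧ (93 * L - 13 * h) / 133 < a 0 0 + a 0 1 + a 0 3 + a 0 4 + a 1 2 + a 1 4 + a 2 0 + a 2 1 + a 2 3 + a 2 4 + (a 0 2 + a 1 0 + 2 * a 1 1 + 4 * a 1 3 + a 2 2 - h)) := by
    apply split_max
    have := H 1 3 ![![false, false, true, false, false], ![true, true, false, true, false], ![false, false, true, false, false]] (Or.inr ⟨by decide, by decide⟩)
    refine lt_of_lt_of_eq this ?_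
    simp [cost, Fin.sum_univ_three, Fin.sum_univ_five, hb0, hb1, hb2, hb3]
    try ring_nf
  have t45 : (a 0 2 + a 1 2 + a 2 0 + 4 * a 2 3 ≤ h ∧ (93 * L - 13 * h) / 133 < a 0 0 + a 0 1 + a 0 3 + a 0 4 + a 1 0 + a 1 1 + a 1 3 + a 1 4 + a 2 1 + a 2 2 + a 2 4) ∨
      (h ≤ a 0 2 + a 1 2 + a 2 0 + 4 * a 2 3 ∧ (93 * L - 13 * h) / 133 < a 0 0 + a 0 1 + a 0 3 + a 0 4 + a 1 0 + a 1 1 + a 1 3 + a 1 4 + a 2 1 + a 2 2 + a 2 4 + (a 0 2 + a 1 2 + a 2 0 + 4 * a 2 3 - h)) := by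
    apply split_max
    have := H 2 3 ![![false, false, true, false, false], ![false, false, true, false, false], ![true, false, false, true, false]] (Or.inr ⟨by decide, by decide⟩)
    refine lt_of_lt_of_eq this ?_
    simp [cost, Fin.sum_univ_three, Fin.sum_univ_five, hb0, hb1, hb2, hb3]
    try ring_nf
  exact lp_core (ha 0 0) (ha 0 1) (ha 0 2) (ha 0 3) (ha 0 4) (hb4' 0) (ha 1 0) (ha 1 1) (ha 1 2)
    (ha 1 3) (ha 1 4) (hb4' 1) (ha 2 0) (ha 2 1) (ha 2 2) (ha 2 3) (ha 2 4) (hb4' 2)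
    hs0 (hb4 0) hs1 (hb4 1) hs2 (hb4 2) (by linarith) ho0 ho1 hh hL0 hL1 t0 t1 t2 t3 t4 t5 t6 t7 t8 t9 t10 t11 t12 t13 t14 t15 t16 t17 t18 t19 t20 t21 t22 t23 t24 t25 t26 t27 t28 t29 t30 t31 t32 t33 t34 t35 t36 t37 t38 t39 t40 t41 t42 t43 t44 t45

theorem lp (a b : Fin 3 → Fin 5 → ℝ) (h L : ℝ) (ha : ∀ g i, 0 ≤ a g i)
    (hb0 : ∀ g, b g 0 = a g 0) (hb1 : ∀ g, b g 1 = 2 * a g 1) (hb2 : ∀ g, b g 2 = 3 * a g 2)
    (hb3 : ∀ g, b g 3 = 4 * a g 3) (hb4 : ∀ g, 5 * a g 4 ≤ b g 4)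
    (hs : ∀ g, ∑ i, b g i ≤ h) (hR : ∑ g, ∑ i, a g i ≤ L)
    (hL0 : 49 / 50 * h ≤ L) (hL1 : L ≤ 11 / 10 * h) :
    ∃ r e S, Adm r e S ∧ cost a b h r e S ≤ (93 * L - 13 * h) / 133 := by
  by_contra hcon
  push Not at hcon
  set f : Fin 3 → ℝ := fun g => -∑ i, a g i with hf
  set p : Equiv.Perm (Fin 3) := Tuple.sort f with hp
  have hmono : Monotone (f ∘ p) := Tuple.monotone_sort f
  have m0 : f (p 0) ≤ f (p 1) := hmono (by decide : (0 : Fin 3) ≤ 1)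
  have m1 : f (p 1) ≤ f (p 2) := hmono (by decide : (1 : Fin 3) ≤ 2)
  simp only [hf] at m0 m1
  refine lp_sorted (fun g => a (p g)) (fun g => b (p g)) h L (fun g i => ha _ _) (fun g => hb0 _)
    (fun g => hb1 _) (fun g => hb2 _) (fun g => hb3 _) (fun g => hb4 _) (fun g => hs _) ?_
    (by linarith) (by linarith) hL0 hL1 ?_
  · rw [Equiv.sum_comp p (fun g => ∑ i, a g i)]
    exact hR
  · intro r e S hA
    rw [cost_perm]
    exact hcon _ _ _ (adm_perm hA p)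

end Pool.Agent.AbcE
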