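import Mathlib
import Pool.Agent.AbcE.Defs

/-! Module H: the six roles of an element, sizes and radicals of divisors. -/

namespace Pool.Agent.AbcE

open NumberField IsDedekindDomain Pool.Agent.H7.Abc

variable {K : Type*} [Field K] [NumberField K]

namespace RolesAux

/-- finite places of `x - 1` versus `x`. -/
theorem place_sub_one (v : HeightOneSpectrum (𝓞 K)) (x : K) :
    (1 < FinitePlace.mk v x → FinitePlace.mk v (x - 1) = FinitePlace.mk v x) ∧
    (1 < FinitePlace.mk v (x - 1) → FinitePlace.mk v (x - 1) = FinitePlace.mk v x) ∧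
    (FinitePlace.mk v x < 1 → FinitePlace.mk v (x - 1) = 1) ∧
    (FinitePlace.mk v (x - 1) < 1 → FinitePlace.mk v x = 1) := by
  set w := FinitePlace.mk v with hw
  have h1 : w (x - 1) ≤ max (w x) 1 := by
    have := FinitePlace.add_le w x (-1)
    rwa [← sub_eq_add_neg, map_neg_eq_map, map_one] at this
  have h2 : w x ≤ max (w (x - 1)) 1 := by
    have := FinitePlace.add_le w (x - 1) 1
    rwa [sub_add_cancel, map_one] at this
  have h3 : 1 ≤ max (w x) (w (x - 1)) := by
    have := FinitePlace.add_le w x (-(x - 1))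
    rw [map_neg_eq_map] at this
    have e : x + -(x - 1) = 1 := by ring
    rwa [e, map_one] at this
  refine ⟨fun h => ?_, fun h => ?_, fun h => ?_, fun h => ?_⟩
  · rw [max_eq_left h.le] at h1
    apply le_antisymm h1
    rcases le_max_iff.1 h2 with h' | h'
    · exact h'
    · linarith
  · rw [max_eq_left h.le] at h2
    apply le_antisymm _ h2
    rcases le_max_iff.1 h1 with h' | h'
    · exact h'
    · linarith
  · rw [max_eq_right h.le] at h1
    apply le_antisymm h1
    rcases le_max_iff.1 h3 with h' | h'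
    · linarith
    · exact h'
  · rw [max_eq_right h.le] at h2
    apply le_antisymm h2
    rcases le_max_iff.1 h3 with h' | h'
    · exact h'
    · linarith

theorem one_lt_mk_iff (v : HeightOneSpectrum (𝓞 K)) {x : K} (hx : x ≠ 0) :
    1 < FinitePlace.mk v x ↔ ord v x < 0 := by
  rw [mk_eq_zpow v hx]
  constructor
  · intro h
    by_contra hn
    push Not at hn
    have : (Ideal.absNorm v.asIdeal : ℝ) ^ (-ord v x) ≤ 1 :=
      zpow_le_one_of_nonpos₀ (one_lt_norm v).le (by omega)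
    linarith
  · intro h
    exact one_lt_zpow₀ (one_lt_norm v) (by omega)

theorem mk_lt_one_iff (v : HeightOneSpectrum (𝓞 K)) {x : K} (hx : x ≠ 0) :
    FinitePlace.mk v x < 1 ↔ 0 < ord v x := by
  rw [mk_eq_zpow v hx]
  constructor
  · intro h
    by_contra hn
    push Not at hn
    have : 1 ≤ (Ideal.absNorm v.asIdeal : ℝ) ^ (-ord v x) :=
      one_le_zpow₀ (one_lt_norm v).le (by omega)
    linarith
  · intro h
    exact zpow_lt_one_of_neg₀ (one_lt_norm v) (by omega)

theorem ord_inv (v : HeightOneSpectrum (𝓞 K)) {x : K} (hx : x ≠ 0) :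
    ord v x⁻¹ = -ord v x := by
  have h := ord_div v (one_ne_zero (α := K)) hx
  rw [one_div] at h
  rw [h]
  have : ord v (1 : K) = 0 := by
    unfold ord
    rw [map_one, WithZero.log_one, neg_zero]
  rw [this, zero_sub]

theorem ord_neg (v : HeightOneSpectrum (𝓞 K)) (x : K) : ord v (-x) = ord v x := by
  unfold ord
  rw [Valuation.map_neg]

theorem eq_ord_of_mk_eq (v : HeightOneSpectrum (𝓞 K)) {x y : K} (hx : x ≠ 0) (hy : y ≠ 0)
    (h : FinitePlace.mk v x = FinitePlace.mk v y) : ord v x = ord v y := by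
  have h1 := log_mk v hx
  have h2 := log_mk v hy
  rw [h, h2] at h1
  have := mul_right_cancel₀ (log_norm_pos v).ne' h1
  have h3 : (ord v y : ℝ) = ord v x := by linarith
  exact_mod_cast h3.symm

/-- exponents of `x - 1` versus `x`. -/
theorem ord_sub_one (v : HeightOneSpectrum (𝓞 K)) {x : K} (hx : x ≠ 0) (hx1 : x ≠ 1) :
    (ord v x < 0 → ord v (x - 1) = ord v x) ∧
    (ord v (x - 1) < 0 → ord v (x - 1) = ord v x) ∧
    (0 < ord v x → ord v (x - 1) = 0) ∧
    (0 < ord v (x - 1) → ord v x = 0) := by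
  have hx1' : x - 1 ≠ 0 := sub_ne_zero.2 hx1
  obtain ⟨h1, h2, h3, h4⟩ := place_sub_one v x
  refine ⟨fun h => ?_, fun h => ?_, fun h => ?_, fun h => ?_⟩
  · exact eq_ord_of_mk_eq v hx1' hx (h1 ((one_lt_mk_iff v hx).2 h))
  · exact eq_ord_of_mk_eq v hx1' hx (h2 ((one_lt_mk_iff v hx1').2 h))
  · exact (ord_eq_zero_iff v hx1').2 (h3 ((mk_lt_one_iff v hx).2 h))
  · exact (ord_eq_zero_iff v hx).2 (h4 ((mk_lt_one_iff v hx1').2 h))

theorem sz_congr {x y : K} (A : Set ℕ)
    (h : ∀ v : HeightOneSpectrum (𝓞 K), 0 < ord v x ∨ 0 < ord v y → ord v x = ord v y) :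
    sz x A = sz y A := by
  unfold sz
  refine finsum_congr fun v => ?_
  by_cases hv : 0 < ord v x ∨ 0 < ord v y
  · rw [h v hv]
  · push Not at hv
    rw [if_neg (fun hh => absurd hh.1 (by omega)), if_neg (fun hh => absurd hh.1 (by omega))]

theorem rd_congr {x y : K} (A : Set ℕ)
    (h : ∀ v : HeightOneSpectrum (𝓞 K), 0 < ord v x ∨ 0 < ord v y → ord v x = ord v y) :
    rd x A = rd y A := by
  unfold rd
  refine finsum_congr fun v => ?_
  by_cases hv : 0 < ord v x ∨ 0 < ord v y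
  · rw [h v hv]
  · push Not at hv
    rw [if_neg (fun hh => absurd hh.1 (by omega)), if_neg (fun hh => absurd hh.1 (by omega))]

theorem quot_facts {x : K} (hx : x ≠ 0) (hx1 : x ≠ 1) (v : HeightOneSpectrum (𝓞 K)) :
    ord v (x / (x - 1)) = ord v x - ord v (x - 1) ∧
    ord v (x / (x - 1))⁻¹ = ord v (x - 1) - ord v x ∧
    ord v (x / (x - 1) - 1) = -ord v (x - 1) := by
  have hx1' : x - 1 ≠ 0 := sub_ne_zero.2 hx1
  refine ⟨ord_div v hx hx1', ?_, ?_⟩
  · rw [inv_div, ord_div v hx1' hx]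
  · have : x / (x - 1) - 1 = (x - 1)⁻¹ := by field_simp; ring
    rw [this, ord_inv v hx1']

theorem one_sub_facts {x : K} (_hx : x ≠ 0) (hx1 : x ≠ 1) (v : HeightOneSpectrum (𝓞 K)) :
    ord v (1 - x) = ord v (x - 1) ∧ ord v (1 - x)⁻¹ = -ord v (x - 1) ∧
    ord v (1 - x - 1) = ord v x := by
  have hx1' : x - 1 ≠ 0 := sub_ne_zero.2 hx1
  have h1 : (1 - x : K) = -(x - 1) := by ring
  have h2 : (1 - x - 1 : K) = -x := by ring
  refine ⟨?_, ?_, ?_⟩
  · rw [h1, ord_neg]
  · rw [h1, ord_inv v (neg_ne_zero.2 hx1'), ord_neg]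
  · rw [h2, ord_neg]

theorem finite_pos {x : K} (hx : x ≠ 0) :
    {v : HeightOneSpectrum (𝓞 K) | 0 < ord v x}.Finite := by
  refine (finite_support hx).subset ?_
  intro v hv h
  have := (ord_eq_zero_iff v hx).2 h
  simp only [Set.mem_ofPred_eq] at hv
  omega

open Classical in
theorem finite_sz {x : K} (hx : x ≠ 0) (A : Set ℕ) :
    (Function.support fun v : HeightOneSpectrum (𝓞 K) =>
      if 0 < ord v x ∧ (ord v x).toNat ∈ A then (ord v x : ℝ) * ln v else 0).Finite := by
  refine (finite_pos hx).subset ?_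
  intro v hv
  by_contra hn
  apply hv
  simp only [Set.mem_ofPred_eq] at hn
  exact if_neg (fun h => hn h.1)

open Classical in
theorem finite_rd {x : K} (hx : x ≠ 0) (A : Set ℕ) :
    (Function.support fun v : HeightOneSpectrum (𝓞 K) =>
      if 0 < ord v x ∧ (ord v x).toNat ∈ A then ln v else 0).Finite := by
  refine (finite_pos hx).subset ?_
  intro v hv
  by_contra hn
  apply hv
  simp only [Set.mem_ofPred_eq] at hn
  exact if_neg (fun h => hn h.1)

theorem ln_pos (v : HeightOneSpectrum (𝓞 K)) : 0 < ln v := log_norm_pos v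

end RolesAux

open RolesAux

theorem sz_quot {x : K} (hx : x ≠ 0) (hx1 : x ≠ 1) (A : Set ℕ) :
    sz (x / (x - 1)) A = sz x A ∧ sz (x / (x - 1))⁻¹ A = sz (x - 1) A ∧
      sz (x / (x - 1) - 1) A = sz x⁻¹ A := by
  refine ⟨sz_congr A fun v => ?_, sz_congr A fun v => ?_, sz_congr A fun v => ?_⟩
  all_goals
    obtain ⟨h1, h2, h3, h4⟩ := ord_sub_one v hx hx1
    obtain ⟨q1, q2, q3⟩ := quot_facts hx hx1 v
  · rw [q1]; omega
  · rw [q2]; omega
  · rw [q3, ord_inv v hx]; omega

theorem rd_quot {x : K} (hx : x ≠ 0) (hx1 : x ≠ 1) (A : Set ℕ) :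
    rd (x / (x - 1)) A = rd x A ∧ rd (x / (x - 1))⁻¹ A = rd (x - 1) A ∧
      rd (x / (x - 1) - 1) A = rd x⁻¹ A := by
  refine ⟨rd_congr A fun v => ?_, rd_congr A fun v => ?_, rd_congr A fun v => ?_⟩
  all_goals
    obtain ⟨h1, h2, h3, h4⟩ := ord_sub_one v hx hx1
    obtain ⟨q1, q2, q3⟩ := quot_facts hx hx1 v
  · rw [q1]; omega
  · rw [q2]; omega
  · rw [q3, ord_inv v hx]; omega

theorem sz_one_sub {x : K} (hx : x ≠ 0) (hx1 : x ≠ 1) (A : Set ℕ) :
    sz (1 - x) A = sz (x - 1) A ∧ sz (1 - x)⁻¹ A = sz x⁻¹ A ∧ sz (1 - x - 1) A = sz x A := by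
  refine ⟨sz_congr A fun v => ?_, sz_congr A fun v => ?_, sz_congr A fun v => ?_⟩
  all_goals
    obtain ⟨h1, h2, h3, h4⟩ := ord_sub_one v hx hx1
    obtain ⟨q1, q2, q3⟩ := one_sub_facts hx hx1 v
  · rw [q1]; omega
  · rw [q2, ord_inv v hx]; omega
  · rw [q3]; omega

theorem rd_one_sub {x : K} (hx : x ≠ 0) (hx1 : x ≠ 1) (A : Set ℕ) :
    rd (1 - x) A = rd (x - 1) A ∧ rd (1 - x)⁻¹ A = rd x⁻¹ A ∧ rd (1 - x - 1) A = rd x A := by
  refine ⟨rd_congr A fun v => ?_, rd_congr A fun v => ?_, rd_congr A fun v => ?_⟩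
  all_goals
    obtain ⟨h1, h2, h3, h4⟩ := ord_sub_one v hx hx1
    obtain ⟨q1, q2, q3⟩ := one_sub_facts hx hx1 v
  · rw [q1]; omega
  · rw [q2, ord_inv v hx]; omega
  · rw [q3]; omega

/-- The height is the archimedean part plus the size of the pole divisor. -/
theorem hgt_eq_arch_add {x : K} (hx : x ≠ 0) : hgt x = arch x + sz x⁻¹ Set.univ := by
  unfold hgt arch sz
  congr 1
  refine finsum_congr fun v => ?_
  rw [ord_inv v hx]
  have hl := log_mk v hx
  by_cases h : ord v x < 0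
  · have h1 := (one_lt_mk_iff v hx).2 h
    rw [if_pos ⟨by omega, Set.mem_univ _⟩, max_eq_right h1.le, hl]
    push_cast
    rfl
  · rw [if_neg (fun hh => absurd hh.1 (by omega))]
    have h1 : ¬ 1 < FinitePlace.mk v x := fun hh => h ((one_lt_mk_iff v hx).1 hh)
    rw [max_eq_left (not_lt.1 h1), Real.log_one]

theorem cnd_eq_rd {x : K} (hx : x ≠ 0) : cnd x = rd x Set.univ := by
  unfold cnd rd
  refine finsum_congr fun v => ?_
  by_cases h : 0 < ord v x
  · rw [if_pos ((mk_lt_one_iff v hx).2 h), if_pos ⟨h, Set.mem_univ _⟩]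
    rfl
  · rw [if_neg (fun hh => h ((mk_lt_one_iff v hx).1 hh)), if_neg (fun hh => h hh.1)]

theorem sz_add {x : K} (hx : x ≠ 0) {A B : Set ℕ} (h : Disjoint A B) :
    sz x (A ∪ B) = sz x A + sz x B := by
  classical
  unfold sz
  rw [← finsum_add_distrib (finite_sz hx A) (finite_sz hx B)]
  refine finsum_congr fun v => ?_
  by_cases h0 : 0 < ord v x
  · by_cases hA : (ord v x).toNat ∈ A
    · have hB : (ord v x).toNat ∉ B := Set.disjoint_left.1 h hA
      simp [h0, hA, hB]
    · by_cases hB : (ord v x).toNat ∈ B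
      · simp [h0, hA, hB]
      · simp [h0, hA, hB]
  · simp [h0]

theorem rd_add {x : K} (hx : x ≠ 0) {A B : Set ℕ} (h : Disjoint A B) :
    rd x (A ∪ B) = rd x A + rd x B := by
  classical
  unfold rd
  rw [← finsum_add_distrib (finite_rd hx A) (finite_rd hx B)]
  refine finsum_congr fun v => ?_
  by_cases h0 : 0 < ord v x
  · by_cases hA : (ord v x).toNat ∈ A
    · have hB : (ord v x).toNat ∉ B := Set.disjoint_left.1 h hA
      simp [h0, hA, hB]
    · by_cases hB : (ord v x).toNat ∈ B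
      · simp [h0, hA, hB]
      · simp [h0, hA, hB]
  · simp [h0]

set_option linter.unusedVariables false in
theorem sz_singleton {x : K} (hx : x ≠ 0) (n : ℕ) : sz x {n} = n * rd x {n} := by
  classical
  unfold sz rd
  rw [mul_finsum]
  refine finsum_congr fun v => ?_
  by_cases h : 0 < ord v x ∧ (ord v x).toNat ∈ ({n} : Set ℕ)
  · rw [if_pos h, if_pos h]
    have h1 : (ord v x).toNat = n := h.2
    have h2 : ord v x = (n : ℤ) := by
      rw [← h1, Int.toNat_of_nonneg h.1.le]
    rw [h2]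
    push_cast
    rfl
  · rw [if_neg h, if_neg h, mul_zero]

theorem mul_rd_le_sz {x : K} (hx : x ≠ 0) {A : Set ℕ} {n : ℕ} (h : ∀ m ∈ A, n ≤ m) :
    n * rd x A ≤ sz x A := by
  classical
  unfold sz rd
  rw [mul_finsum]
  refine finsum_le_finsum' ?_ ?_ ?_
  · refine (finite_rd hx A).subset ?_
    intro v hv hv0
    apply hv
    simp only at hv0 ⊢
    rw [hv0, mul_zero]
  · exact finite_sz hx A
  · intro v
    by_cases hv : 0 < ord v x ∧ (ord v x).toNat ∈ A
    · simp only [if_pos hv]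
      have h1 := h _ hv.2
      have h2 : (n : ℝ) ≤ (ord v x : ℝ) := by
        have : (n : ℤ) ≤ ord v x := by
          have := Int.toNat_of_nonneg hv.1.le
          omega
        exact_mod_cast this
      exact mul_le_mul_of_nonneg_right h2 (ln_pos v).le
    · simp only [if_neg hv, mul_zero, le_refl]

end Pool.Agent.AbcE
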