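import Mathlib
import Pool.Agent.AbcE.Roles
import Pool.Agent.AbcE.LP

/-! From the divisor data of `x` to the linear programme. -/

namespace Pool.Agent.AbcE

open NumberField IsDedekindDomain Pool.Agent.H7.Abc

variable {K : Type*} [Field K] [NumberField K]

/-- The class of an exponent. -/
def cl (n : ℕ) : Fin 5 :=
  if n = 1 then 0 else if n = 2 then 1 else if n = 3 then 2 else if n = 4 then 3 else 4

/-- The set of exponents of a set of classes. -/
def ex (s : Fin 5 → Bool) : Set ℕ := {n | s (cl n) = true}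

theorem finite_supp {x : K} (hx : x ≠ 0) (g : HeightOneSpectrum (𝓞 K) → ℝ)
    (hg : ∀ v, ord v x = 0 → g v = 0) : (Function.support g).Finite := by
  refine (finite_support hx).subset ?_
  intro v hv h1
  exact hv (hg v ((ord_eq_zero_iff v hx).2 h1))

theorem rd_ex {x : K} (hx : x ≠ 0) (s : Fin 5 → Bool) :
    rd x (ex s) = ∑ i, if s i then rd x {n | cl n = i} else 0 := by
  classical
  have h1 : ∀ i, (if s i then rd x {n | cl n = i} else 0) =
      ∑ᶠ v : HeightOneSpectrum (𝓞 K), if s i then
        (if 0 < ord v x ∧ cl (ord v x).toNat = i then ln v else 0) else 0 := by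
    intro i
    split_ifs with h
    · unfold rd
      refine finsum_congr fun v => ?_
      congr
    · rw [finsum_zero]
  rw [Finset.sum_congr rfl fun i _ => h1 i, ← finsum_sum_comm]
  · unfold rd
    refine finsum_congr fun v => ?_
    by_cases hv : 0 < ord v x
    · rw [Finset.sum_eq_single (cl (ord v x).toNat)]
      · simp [hv, ex]
      · intro i _ hi
        rw [if_neg (c := 0 < ord v x ∧ cl (ord v x).toNat = i) (fun h => hi h.2.symm)]
        simp
      · simp
    · simp [hv]
  · intro i _
    refine finite_supp hx _ fun v hv => ?_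
    simp [hv]

theorem sz_ex {x : K} (hx : x ≠ 0) (s : Fin 5 → Bool) :
    sz x (ex s) = ∑ i, if s i then sz x {n | cl n = i} else 0 := by
  classical
  have h1 : ∀ i, (if s i then sz x {n | cl n = i} else 0) =
      ∑ᶠ v : HeightOneSpectrum (𝓞 K), if s i then
        (if 0 < ord v x ∧ cl (ord v x).toNat = i then (ord v x : ℝ) * ln v else 0) else 0 := by
    intro i
    split_ifs with h
    · unfold sz
      refine finsum_congr fun v => ?_
      congr
    · rw [finsum_zero]
  rw [Finset.sum_congr rfl fun i _ => h1 i, ← finsum_sum_comm]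
  · unfold sz
    refine finsum_congr fun v => ?_
    by_cases hv : 0 < ord v x
    · rw [Finset.sum_eq_single (cl (ord v x).toNat)]
      · simp [hv, ex]
      · intro i _ hi
        rw [if_neg (c := 0 < ord v x ∧ cl (ord v x).toNat = i) (fun h => hi h.2.symm)]
        simp
      · simp
    · simp [hv]
  · intro i _
    refine finite_supp hx _ fun v hv => ?_
    simp [hv]

theorem ex_compl (s : Fin 5 → Bool) : (ex s)ᶜ = ex fun i => !s i := by
  ext n
  simp [ex]

theorem rd_compl {x : K} (hx : x ≠ 0) (s : Fin 5 → Bool) :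
    rd x (ex s)ᶜ = ∑ i, if s i then 0 else rd x {n | cl n = i} := by
  rw [ex_compl, rd_ex hx]
  refine Finset.sum_congr rfl fun i _ => ?_
  cases s i <;> simp

theorem rd_univ {x : K} (hx : x ≠ 0) : rd x Set.univ = ∑ i, rd x {n | cl n = i} := by
  have : (Set.univ : Set ℕ) = ex fun _ => true := by ext n; simp [ex]
  rw [this, rd_ex hx]
  simp

theorem sz_univ {x : K} (hx : x ≠ 0) : sz x Set.univ = ∑ i, sz x {n | cl n = i} := by
  have : (Set.univ : Set ℕ) = ex fun _ => true := by ext n; simp [ex]
  rw [this, sz_ex hx]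
  simp

theorem sz_compl {x : K} (hx : x ≠ 0) (s : Fin 5 → Bool) :
    sz x (ex s)ᶜ = sz x Set.univ - ∑ i, if s i then sz x {n | cl n = i} else 0 := by
  rw [ex_compl, sz_ex hx, sz_univ hx, ← Finset.sum_sub_distrib]
  refine Finset.sum_congr rfl fun i _ => ?_
  cases s i <;> simp

theorem ln_pos' (v : HeightOneSpectrum (𝓞 K)) : 0 < ln v := log_norm_pos v

theorem rd_nonneg (x : K) (A : Set ℕ) : 0 ≤ rd x A := by
  classical
  unfold rd
  refine finsum_nonneg fun v => ?_
  split_ifs
  · exact (ln_pos' v).le
  · exact le_rfl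

theorem sz_nonneg (x : K) (A : Set ℕ) : 0 ≤ sz x A := by
  classical
  unfold sz
  refine finsum_nonneg fun v => ?_
  split_ifs with h
  · have := ln_pos' v
    have : (0 : ℝ) < ord v x := by exact_mod_cast h.1
    positivity
  · exact le_rfl

theorem arch_nonneg (x : K) : 0 ≤ arch x :=
  Finset.sum_nonneg fun w _ => mul_nonneg (Nat.cast_nonneg _) (log_max_nonneg _)

theorem cl_eq_zero {n : ℕ} : cl n = 0 ↔ n = 1 := by
  unfold cl; split_ifs <;> simp_all

theorem cl_eq_one {n : ℕ} : cl n = 1 ↔ n = 2 := by
  unfold cl; split_ifs <;> simp_all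

theorem cl_eq_two {n : ℕ} : cl n = 2 ↔ n = 3 := by
  unfold cl; split_ifs <;> simp_all

theorem cl_eq_three {n : ℕ} : cl n = 3 ↔ n = 4 := by
  unfold cl; split_ifs <;> simp_all

theorem five_le_of_cl {n : ℕ} (h0 : 0 < n) (h : cl n = 4) : 5 ≤ n := by
  unfold cl at h
  split_ifs at h <;> omega

/-- `n` times the radical is the size for a single exponent. -/
theorem sz_cl {x : K} (hx : x ≠ 0) (i : Fin 5) (k : ℕ) (h : ∀ n, cl n = i ↔ n = k) :
    sz x {n | cl n = i} = k * rd x {n | cl n = i} := by
  have e : {n | cl n = i} = {k} := by ext n; simp [h]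
  rw [e, sz_singleton hx]

theorem five_rd_le {x : K} (hx : x ≠ 0) :
    5 * rd x {n | cl n = 4} ≤ sz x {n | cl n = 4} := by
  classical
  unfold rd sz
  rw [mul_finsum']
  · refine finsum_le_finsum' ?_ ?_ fun v => ?_
    · refine finite_supp hx _ fun v hv => ?_
      simp [hv]
    · refine finite_supp hx _ fun v hv => ?_
      simp [hv]
    · dsimp only
      split_ifs with h
      · have h1 : 5 ≤ (ord v x).toNat := five_le_of_cl (by omega) h.2
        have h2 : (5 : ℝ) ≤ ord v x := by
          have : (5 : ℤ) ≤ ord v x := by omega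
          exact_mod_cast this
        exact mul_le_mul_of_nonneg_right h2 (ln_pos' v).le
      · simp
  · refine finite_supp hx _ fun v hv => ?_
    simp [hv]

theorem sz_univ_le_hgt {x : K} (hx : x ≠ 0) : sz x Set.univ ≤ hgt x := by
  have h := hgt_eq_arch_add (inv_ne_zero hx)
  rw [inv_inv, hgt_inv] at h
  have := arch_nonneg x⁻¹
  linarith

end Pool.Agent.AbcE
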