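import Mathlib
import Pool.Agent.AbcE.Defs

/-! The gap inequality. -/

namespace Pool.Agent.AbcE

open NumberField IsDedekindDomain Pool.Agent.H7.Abc

variable {K : Type*} [Field K] [NumberField K]

theorem gap_ln_pos (v : HeightOneSpectrum (𝓞 K)) : 0 < ln v := log_norm_pos v

theorem gap_prod {x : K} (hx : x ≠ 0) (B : Finset (HeightOneSpectrum (𝓞 K)))
    (hB : ∀ v, FinitePlace.mk v x ≠ 1 → v ∈ B) :
    (∑ w : InfinitePlace K, (w.mult : ℝ) * Real.log (w x)) +
      ∑ v ∈ B, Real.log (FinitePlace.mk v x) = 0 := by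
  have h := NumberField.prod_abs_eq_one hx
  have h1 : ∏ᶠ w : FinitePlace K, w x = ∏ v ∈ B, FinitePlace.mk v x := by
    rw [← finprod_comp_equiv (FinitePlace.equivHeightOneSpectrum (K := K)).symm]
    rw [finprod_eq_prod_of_mulSupport_subset (s := B)]
    · rfl
    · intro v hv
      exact hB v hv
  rw [h1] at h
  have hw : ∀ w : InfinitePlace K, w x ≠ 0 := fun w => (InfinitePlace.pos_iff.2 hx).ne'
  have hv : ∀ v : HeightOneSpectrum (𝓞 K), FinitePlace.mk v x ≠ 0 :=
    fun v => (FinitePlace.pos_iff.2 hx).ne'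
  have h2 := congrArg Real.log h
  rw [Real.log_one, Real.log_mul (Finset.prod_ne_zero_iff.2 fun w _ => pow_ne_zero _ (hw w))
    (Finset.prod_ne_zero_iff.2 fun v _ => hv v), Real.log_prod (fun w _ => pow_ne_zero _ (hw w)),
    Real.log_prod (fun v _ => hv v)] at h2
  rw [← h2]
  congr 1
  refine Finset.sum_congr rfl fun w _ => ?_
  rw [Real.log_pow]

theorem gap_mk_ne_one {x : K} (hx : x ≠ 0) {v : HeightOneSpectrum (𝓞 K)} (h : ord v x ≠ 0) :
    FinitePlace.mk v x ≠ 1 := fun h1 => h ((ord_eq_zero_iff v hx).2 h1)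

open Classical in
theorem gap_sz {x : K} (hx : x ≠ 0) (A : Set ℕ) (B : Finset (HeightOneSpectrum (𝓞 K)))
    (hB : ∀ v, FinitePlace.mk v x ≠ 1 → v ∈ B) :
    sz x A = ∑ v ∈ B,
      (if 0 < ord v x ∧ (ord v x).toNat ∈ A then (ord v x : ℝ) * ln v else 0) := by
  unfold sz
  rw [finsum_eq_sum_of_support_subset (s := B)]
  intro v hv
  refine hB v (gap_mk_ne_one hx ?_)
  intro h0
  apply hv
  simp [h0]

theorem gap_ord_inv (v : HeightOneSpectrum (𝓞 K)) {x : K} (hx : x ≠ 0) :
    ord v x⁻¹ = -ord v x := by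
  have h1 := ord_div v one_ne_zero hx
  have h2 : ord v (1 : K) = 0 := (ord_eq_zero_iff v one_ne_zero).2 (map_one _)
  rw [one_div, h2] at h1
  omega

theorem gap_hgt {x : K} (hx : x ≠ 0) (B : Finset (HeightOneSpectrum (𝓞 K)))
    (hB : ∀ v, FinitePlace.mk v x ≠ 1 → v ∈ B) :
    hgt x = arch x + ∑ v ∈ B, (if ord v x < 0 then -(ord v x : ℝ) * ln v else 0) := by
  unfold hgt arch
  congr 1
  rw [finsum_eq_sum_of_support_subset (s := B)]
  · refine Finset.sum_congr rfl fun v _ => ?_
    have hpos : 0 < FinitePlace.mk v x := FinitePlace.pos_iff.2 hx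
    have hl := log_mk v hx
    have hN := log_norm_pos v
    rcases le_total (FinitePlace.mk v x) 1 with h | h
    · rw [max_eq_left h, Real.log_one]
      have : 0 ≤ (ord v x : ℝ) := by
        have := Real.log_nonpos hpos.le h
        rw [hl] at this
        by_contra hneg
        push Not at hneg
        nlinarith
      have h3 : ¬ ord v x < 0 := by
        have : 0 ≤ ord v x := by exact_mod_cast this
        omega
      rw [if_neg h3]
    · rw [max_eq_right h, hl]
      have : (ord v x : ℝ) ≤ 0 := by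
        have := Real.log_nonneg h
        rw [hl] at this
        by_contra hneg
        push Not at hneg
        nlinarith
      by_cases h3 : ord v x < 0
      · rw [if_pos h3]; rfl
      · have h4 : ord v x = 0 := by
          have : ord v x ≤ 0 := by exact_mod_cast this
          omega
        rw [if_neg h3, h4]
        simp
  · intro v hv
    refine hB v ?_
    intro h1
    apply hv
    simp [h1]

theorem gap_arch_le {x y : K} (hx : x ≠ 0) (hy : y ≠ 0)
    (hl : ∀ w : InfinitePlace K, |Real.log (w x) - Real.log (w y)| ≤ 1) :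
    arch y ≤ arch x + Module.finrank ℚ K := by
  have h1 : (Module.finrank ℚ K : ℝ) = ∑ w : InfinitePlace K, (w.mult : ℝ) := by
    rw [← Nat.cast_sum, InfinitePlace.sum_mult_eq]
  unfold arch
  rw [h1, ← Finset.sum_add_distrib]
  refine Finset.sum_le_sum fun w _ => ?_
  have hm : (0 : ℝ) ≤ w.mult := Nat.cast_nonneg _
  have hwx : 0 < w x := InfinitePlace.pos_iff.2 hx
  have hwy : 0 < w y := InfinitePlace.pos_iff.2 hy
  have h2 : Real.log (max 1 (w y)) ≤ Real.log (max 1 (w x)) + 1 := by
    have h3 := log_max_nonneg (w x)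
    rcases le_total (w y) 1 with h | h
    · rw [max_eq_left h, Real.log_one]; linarith
    · rw [max_eq_right h]
      have h4 := (abs_le.1 (hl w)).1
      have h5 : Real.log (w x) ≤ Real.log (max 1 (w x)) :=
        Real.log_le_log hwx (le_max_right _ _)
      linarith
  nlinarith

open Classical in
/-- The free part of the pole divisor does not grow much inside a cell. -/
theorem gap_pole (T : Tool) {y1 y2 : K} (hy1 : y1 ≠ 0) (hy2 : y2 ≠ 0)
    (hk : ∀ v, kf T y1 v = kf T y2 v)
    (hh : hgt y1 ≤ hgt y2 + 1)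
    (hl : ∀ w : InfinitePlace K, |Real.log (w y1) - Real.log (w y2)| ≤ 1) :
    sz y1⁻¹ T.F1 ≤ sz y2⁻¹ T.F1 + 1 + Module.finrank ℚ K := by
  set B := (finite_support hy1).toFinset ∪ (finite_support hy2).toFinset with hBdef
  have hB1 : ∀ v, FinitePlace.mk v y1 ≠ 1 → v ∈ B := by
    intro v hv
    rw [hBdef, Finset.mem_union]
    exact Or.inl ((Set.Finite.mem_toFinset _).2 hv)
  have hB2 : ∀ v, FinitePlace.mk v y2 ≠ 1 → v ∈ B := by
    intro v hv
    rw [hBdef, Finset.mem_union]
    exact Or.inr ((Set.Finite.mem_toFinset _).2 hv)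
  have hinv : ∀ {y : K}, (∀ v, FinitePlace.mk v y ≠ 1 → v ∈ B) →
      (∀ v, FinitePlace.mk v y⁻¹ ≠ 1 → v ∈ B) := by
    intro y h v hv
    refine h v ?_
    intro h1
    apply hv
    rw [mk_inv, h1, inv_one]
  rw [gap_sz (inv_ne_zero hy1) T.F1 B (hinv hB1), gap_sz (inv_ne_zero hy2) T.F1 B (hinv hB2)]
  rw [gap_hgt hy1 B hB1, gap_hgt hy2 B hB2] at hh
  have ha := gap_arch_le hy1 hy2 hl
  -- the difference of the pole sums is the difference of the free parts
  have key : ∀ v, (if ord v y1 < 0 then -(ord v y1 : ℝ) * ln v else 0) -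
      (if 0 < ord v y1⁻¹ ∧ (ord v y1⁻¹).toNat ∈ T.F1 then (ord v y1⁻¹ : ℝ) * ln v else 0) =
      (if ord v y2 < 0 then -(ord v y2 : ℝ) * ln v else 0) -
      (if 0 < ord v y2⁻¹ ∧ (ord v y2⁻¹).toNat ∈ T.F1 then (ord v y2⁻¹ : ℝ) * ln v else 0) := by
    have one : ∀ {y : K}, y ≠ 0 → ∀ v, (if ord v y < 0 then -(ord v y : ℝ) * ln v else 0) -
      (if 0 < ord v y⁻¹ ∧ (ord v y⁻¹).toNat ∈ T.F1 then (ord v y⁻¹ : ℝ) * ln v else 0) =
      (if kf T y v < 0 then -(kf T y v : ℝ) * ln v else 0) := by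
      intro y hy v
      rw [gap_ord_inv v hy]
      unfold kf
      by_cases h1 : ord v y < 0
      · by_cases h2 : (-ord v y).toNat ∈ T.F1
        · rw [if_pos h1, if_pos (show 0 < -ord v y ∧ (-ord v y).toNat ∈ T.F1 from
            ⟨by omega, h2⟩), if_pos (show (0 < ord v y ∧ (ord v y).toNat ∈ T.F0) ∨
            (ord v y < 0 ∧ (-ord v y).toNat ∈ T.F1) from Or.inr ⟨h1, h2⟩)]
          push_cast
          simp
        · rw [if_pos h1, if_neg (show ¬ (0 < -ord v y ∧ (-ord v y).toNat ∈ T.F1) from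
            fun h => h2 h.2), if_neg (show ¬ ((0 < ord v y ∧ (ord v y).toNat ∈ T.F0) ∨
            (ord v y < 0 ∧ (-ord v y).toNat ∈ T.F1)) from by
              rintro (h | h)
              · omega
              · exact h2 h.2), if_pos h1]
          ring
      · rw [if_neg h1, if_neg (show ¬ (0 < -ord v y ∧ (-ord v y).toNat ∈ T.F1) from
            fun h => by omega)]
        have : ¬ (if (0 < ord v y ∧ (ord v y).toNat ∈ T.F0) ∨
            (ord v y < 0 ∧ (-ord v y).toNat ∈ T.F1) then (0 : ℤ) else ord v y) < 0 := by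
          split_ifs <;> omega
        rw [if_neg this]
        ring
    intro v
    rw [one hy1 v, one hy2 v, hk v]
  have hsum := Finset.sum_congr (s₁ := B) rfl fun v _ => key v
  rw [Finset.sum_sub_distrib, Finset.sum_sub_distrib] at hsum
  linarith

theorem gap_ord_pow (v : HeightOneSpectrum (𝓞 K)) {x : K} (_hx : x ≠ 0) (n : ℕ) :
    ord v (x ^ n) = n * ord v x := by
  unfold ord
  rw [map_pow, WithZero.log_pow]
  simp

open Classical in
/-- The bound at a finite place. -/
theorem gap_finite (T : Tool) {y1 y2 s : K}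
    (hy1 : y1 ≠ 0) (hy2 : y2 ≠ 0) (h21 : y2 ≠ 1) (hs : s ≠ 0) (hs1 : s ≠ 1)
    (hse : y1 = y2 * s ^ T.e)
    (hk : ∀ v, kf T y1 v = kf T y2 v)
    (v : HeightOneSpectrum (𝓞 K))
    (hloc : 0 < jf T y2 v →
      FinitePlace.mk v (s - 1) * FinitePlace.mk v (T.e : K) ^ T.e ≤
        (Ideal.absNorm v.asIdeal : ℝ) ^ (-jf T y2 v)) :
    Real.log (FinitePlace.mk v (s - 1)) + T.e * Real.log (FinitePlace.mk v (T.e : K)) +
      (if 0 < ord v (y2 - 1) ∧ (ord v (y2 - 1)).toNat ∈ T.Gᶜ then
        (ord v (y2 - 1) : ℝ) * ln v else 0) ≤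
      ((if 0 < ord v y2 ∧ (ord v y2).toNat ∈ T.F0 then (ord v y2 : ℝ) * ln v else 0) +
        (if 0 < ord v y1⁻¹ ∧ (ord v y1⁻¹).toNat ∈ T.F1 then
          (ord v y1⁻¹ : ℝ) * ln v else 0)) / T.e := by
  have he := T.he
  have heK : (T.e : K) ≠ 0 := by exact_mod_cast (by omega : T.e ≠ 0)
  have heR : (0 : ℝ) < T.e := by exact_mod_cast he
  have hz : s - 1 ≠ 0 := sub_ne_zero.2 hs1
  have hln := gap_ln_pos v
  have hA : 0 ≤ (if 0 < ord v y2 ∧ (ord v y2).toNat ∈ T.F0 then (ord v y2 : ℝ) * ln v else 0) := by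
    split_ifs with h
    · have : (0 : ℝ) < ord v y2 := by exact_mod_cast h.1
      positivity
    · exact le_rfl
  have hB : 0 ≤ (if 0 < ord v y1⁻¹ ∧ (ord v y1⁻¹).toNat ∈ T.F1 then
      (ord v y1⁻¹ : ℝ) * ln v else 0) := by
    split_ifs with h
    · have : (0 : ℝ) < ord v y1⁻¹ := by exact_mod_cast h.1
      positivity
    · exact le_rfl
  have hpz : 0 < FinitePlace.mk v (s - 1) := FinitePlace.pos_iff.2 hz
  have hpe : 0 < FinitePlace.mk v (T.e : K) := FinitePlace.pos_iff.2 heK
  by_cases hj : 0 < jf T y2 v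
  · have hj' := hj
    unfold jf at hj'
    split_ifs at hj' with hc
    · have hjv : jf T y2 v = ord v (y2 - 1) := by
        unfold jf
        rw [if_pos hc]
      rw [if_pos (show 0 < ord v (y2 - 1) ∧ (ord v (y2 - 1)).toNat ∈ T.Gᶜ from hc)]
      have h1 := hloc hj
      have h2 := Real.log_le_log (by positivity) h1
      rw [Real.log_mul hpz.ne' (pow_ne_zero _ hpe.ne'), Real.log_pow, Real.log_zpow, hjv] at h2
      have h3 : Real.log (Ideal.absNorm v.asIdeal : ℝ) = ln v := rfl
      rw [h3] at h2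
      push_cast at h2
      have h4 : 0 ≤ ((if 0 < ord v y2 ∧ (ord v y2).toNat ∈ T.F0 then
          (ord v y2 : ℝ) * ln v else 0) +
        (if 0 < ord v y1⁻¹ ∧ (ord v y1⁻¹).toNat ∈ T.F1 then
          (ord v y1⁻¹ : ℝ) * ln v else 0)) / T.e := by positivity
      linarith
    · omega
  · have hc : ¬ (0 < ord v (y2 - 1) ∧ (ord v (y2 - 1)).toNat ∈ T.Gᶜ) := by
      intro hc
      apply hj
      unfold jf
      rw [if_pos (show 0 < ord v (y2 - 1) ∧ (ord v (y2 - 1)).toNat ∉ T.G from hc)]
      exact hc.1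
    rw [if_neg hc, add_zero]
    have hle : Real.log (FinitePlace.mk v (T.e : K)) ≤ 0 := by
      refine Real.log_nonpos hpe.le ?_
      rw [FinitePlace.mk_apply, FinitePlace.norm_embedding]
      exact NumberField.HeightOneSpectrum.adicAbv_natCast_le_one K v T.e
    have hle' : T.e * Real.log (FinitePlace.mk v (T.e : K)) ≤ 0 :=
      mul_nonpos_of_nonneg_of_nonpos heR.le hle
    have hult : FinitePlace.mk v (s - 1) ≤ max (FinitePlace.mk v s) 1 := by
      have := FinitePlace.add_le (FinitePlace.mk v) s (-1)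
      rw [← sub_eq_add_neg] at this
      have h1 : FinitePlace.mk v (-1 : K) = 1 := by
        rw [map_neg_eq_map, map_one]
      rwa [h1] at this
    -- the relation between the exponents
    have hord : ord v y1 - ord v y2 = T.e * ord v s := by
      have h1 : y1 / y2 = s ^ T.e := by
        rw [hse]; field_simp
      rw [← ord_div v hy1 hy2, h1, gap_ord_pow v hs]
    by_cases h0 : 0 ≤ ord v s
    · have h1 : FinitePlace.mk v s ≤ 1 := by
        have hl := log_mk v hs
        have hps : 0 < FinitePlace.mk v s := FinitePlace.pos_iff.2 hs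
        have h2 : Real.log (FinitePlace.mk v s) ≤ 0 := by
          rw [hl]
          have : (0 : ℝ) ≤ ord v s := by exact_mod_cast h0
          have h3 : Real.log (Ideal.absNorm v.asIdeal : ℝ) = ln v := rfl
          rw [h3]
          nlinarith
        exact (Real.log_nonpos_iff hps.le).1 h2
      rw [max_eq_right h1] at hult
      have h2 := Real.log_nonpos hpz.le hult
      have h4 : 0 ≤ ((if 0 < ord v y2 ∧ (ord v y2).toNat ∈ T.F0 then
          (ord v y2 : ℝ) * ln v else 0) +
        (if 0 < ord v y1⁻¹ ∧ (ord v y1⁻¹).toNat ∈ T.F1 then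
          (ord v y1⁻¹ : ℝ) * ln v else 0)) / T.e := by positivity
      linarith
    · push Not at h0
      have hs' : (ord v s : ℝ) < 0 := by exact_mod_cast h0
      have hlog : Real.log (FinitePlace.mk v (s - 1)) ≤ -(ord v s : ℝ) * ln v := by
        have hps : 0 < FinitePlace.mk v s := FinitePlace.pos_iff.2 hs
        have hl := log_mk v hs
        have h3 : Real.log (Ideal.absNorm v.asIdeal : ℝ) = ln v := rfl
        rw [h3] at hl
        have h5 : 0 ≤ -(ord v s : ℝ) * ln v := by nlinarith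
        have h1 : 1 ≤ FinitePlace.mk v s := by
          rw [← hl] at h5
          exact (Real.log_nonneg_iff hps).1 h5
        rw [max_eq_left h1] at hult
        rw [← hl]
        exact Real.log_le_log hpz hult
      have hlt : ord v y1 < ord v y2 := by
        have : (T.e : ℤ) * ord v s < 0 := by
          have : (0 : ℤ) < T.e := by exact_mod_cast he
          nlinarith
        omega
      -- both exponents are free or zero
      have hk0 : kf T y2 v = 0 := by
        by_contra hne
        have hne1 : kf T y1 v ≠ 0 := by rw [hk v]; exact hne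
        have e2 : kf T y2 v = ord v y2 := by
          unfold kf at hne ⊢
          split_ifs at hne ⊢ with h
          · exact absurd rfl hne
          · rfl
        have e1 : kf T y1 v = ord v y1 := by
          unfold kf at hne1 ⊢
          split_ifs at hne1 ⊢ with h
          · exact absurd rfl hne1
          · rfl
        have := hk v
        omega
      have hk1 : kf T y1 v = 0 := by rw [hk v]; exact hk0
      have hA' : (ord v y2 : ℝ) * ln v ≤
          (if 0 < ord v y2 ∧ (ord v y2).toNat ∈ T.F0 then (ord v y2 : ℝ) * ln v else 0) := by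
        by_cases h : 0 < ord v y2
        · unfold kf at hk0
          split_ifs at hk0 with h2
          · have h3 : 0 < ord v y2 ∧ (ord v y2).toNat ∈ T.F0 := by
              rcases h2 with h2 | h2
              · exact h2
              · omega
            rw [if_pos h3]
          · omega
        · rw [if_neg (fun h3 => h h3.1)]
          have : (ord v y2 : ℝ) ≤ 0 := by
            have : ord v y2 ≤ 0 := by omega
            exact_mod_cast this
          nlinarith
      have hB' : -(ord v y1 : ℝ) * ln v ≤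
          (if 0 < ord v y1⁻¹ ∧ (ord v y1⁻¹).toNat ∈ T.F1 then
            (ord v y1⁻¹ : ℝ) * ln v else 0) := by
        rw [gap_ord_inv v hy1]
        by_cases h : ord v y1 < 0
        · unfold kf at hk1
          split_ifs at hk1 with h2
          · have h3 : 0 < -ord v y1 ∧ (-ord v y1).toNat ∈ T.F1 := by
              rcases h2 with h2 | h2
              · omega
              · exact ⟨by omega, h2.2⟩
            rw [if_pos h3]
            push_cast
            exact le_rfl
          · omega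
        · rw [if_neg (fun h3 => h (by omega))]
          have : (0 : ℝ) ≤ ord v y1 := by
            have : 0 ≤ ord v y1 := by omega
            exact_mod_cast this
          nlinarith
      have hordR : (ord v y1 : ℝ) - ord v y2 = T.e * ord v s := by exact_mod_cast hord
      have hfin : -(ord v s : ℝ) * ln v ≤
          ((if 0 < ord v y2 ∧ (ord v y2).toNat ∈ T.F0 then (ord v y2 : ℝ) * ln v else 0) +
        (if 0 < ord v y1⁻¹ ∧ (ord v y1⁻¹).toNat ∈ T.F1 then
          (ord v y1⁻¹ : ℝ) * ln v else 0)) / T.e := by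
        rw [le_div_iff₀ heR]
        have : -(ord v s : ℝ) * ln v * T.e = (ord v y2 : ℝ) * ln v + -(ord v y1 : ℝ) * ln v := by
          have : -(ord v s : ℝ) * ln v * T.e = -(T.e * (ord v s : ℝ)) * ln v := by ring
          rw [this, ← hordR]; ring
        rw [this]
        linarith
      linarith

/-- The gap inequality (product formula for `t1 / t2 - 1`). -/
theorem gap (T : Tool) {y0 y1 y2 t1 t2 : K} {ρ : ℝ} (hρ : 0 < ρ)
    (hy0 : y0 ≠ 0) (hy1 : y1 ≠ 0) (hy2 : y2 ≠ 0) (h11 : y1 ≠ 1) (h21 : y2 ≠ 1)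
    (ht1 : t1 ≠ 0) (ht2 : t2 ≠ 0)
    (e1 : y1 = y0 * t1 ^ T.e) (e2 : y2 = y0 * t2 ^ T.e) (hne : y1 ≠ y2)
    (hk : ∀ v, kf T y1 v = kf T y2 v)
    (hj : ∀ v, jf T y1 v = jf T y2 v)
    (hloc : ∀ v : HeightOneSpectrum (𝓞 K), 0 < jf T y2 v →
      FinitePlace.mk v (t1 / t2 - 1) * FinitePlace.mk v (T.e : K) ^ T.e ≤
        (Ideal.absNorm v.asIdeal : ℝ) ^ (-jf T y2 v))
    (harch : ∀ w : InfinitePlace K, w (t1 / t2 - 1) ≤ ρ * min 1 (w (y2 - 1)))
    (hh : hgt y1 ≤ hgt y2 + 1)
    (hl : ∀ w : InfinitePlace K, |Real.log (w y1) - Real.log (w y2)| ≤ 1) :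
    0 ≤ (Module.finrank ℚ K : ℝ) * Real.log ρ + Ov T y2 + 1 + Module.finrank ℚ K +
      (T.e : ℝ) * (Module.finrank ℚ K * Real.log T.e) := by
  classical
  have he := T.he
  have heK : (T.e : K) ≠ 0 := by exact_mod_cast (by omega : T.e ≠ 0)
  have heR : (1 : ℝ) ≤ T.e := by exact_mod_cast he
  set s := t1 / t2 with hsdef
  have hs : s ≠ 0 := div_ne_zero ht1 ht2
  have hse : y1 = y2 * s ^ T.e := by
    rw [e1, e2, hsdef, div_pow]
    field_simp
  have hs1 : s ≠ 1 := by
    intro h
    rw [h, one_pow, mul_one] at hse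
    exact hne hse
  have hz : s - 1 ≠ 0 := sub_ne_zero.2 hs1
  have hy21 : y2 - 1 ≠ 0 := sub_ne_zero.2 h21
  have hd : (Module.finrank ℚ K : ℝ) = ∑ w : InfinitePlace K, (w.mult : ℝ) := by
    rw [← Nat.cast_sum, InfinitePlace.sum_mult_eq]
  -- a large finite set of places
  set B := (finite_support hz).toFinset ∪ (finite_support heK).toFinset ∪
    (finite_support hy1).toFinset ∪ (finite_support hy2).toFinset ∪
    (finite_support hy21).toFinset with hBdef
  have hBz : ∀ v, FinitePlace.mk v (s - 1) ≠ 1 → v ∈ B := by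
    intro v hv
    simp only [hBdef, Finset.mem_union, Set.Finite.mem_toFinset, Set.mem_ofPred_eq]
    exact Or.inl (Or.inl (Or.inl (Or.inl hv)))
  have hBe : ∀ v, FinitePlace.mk v (T.e : K) ≠ 1 → v ∈ B := by
    intro v hv
    simp only [hBdef, Finset.mem_union, Set.Finite.mem_toFinset, Set.mem_ofPred_eq]
    exact Or.inl (Or.inl (Or.inl (Or.inr hv)))
  have hB1 : ∀ v, FinitePlace.mk v y1⁻¹ ≠ 1 → v ∈ B := by
    intro v hv
    simp only [hBdef, Finset.mem_union, Set.Finite.mem_toFinset, Set.mem_ofPred_eq]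
    refine Or.inl (Or.inl (Or.inr ?_))
    intro h
    apply hv
    rw [mk_inv, h, inv_one]
  have hB2 : ∀ v, FinitePlace.mk v y2 ≠ 1 → v ∈ B := by
    intro v hv
    simp only [hBdef, Finset.mem_union, Set.Finite.mem_toFinset, Set.mem_ofPred_eq]
    exact Or.inl (Or.inr hv)
  have hB3 : ∀ v, FinitePlace.mk v (y2 - 1) ≠ 1 → v ∈ B := by
    intro v hv
    simp only [hBdef, Finset.mem_union, Set.Finite.mem_toFinset, Set.mem_ofPred_eq]
    exact Or.inr hv
  -- product formulas
  have P1 := gap_prod hz B hBz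
  have P2 := gap_prod heK B hBe
  have hwe : ∀ w : InfinitePlace K, w (T.e : K) = T.e := by
    intro w
    rw [← InfinitePlace.norm_embedding_eq w, map_natCast]
    simp
  have P2' : ∑ v ∈ B, Real.log (FinitePlace.mk v (T.e : K)) =
      -((Module.finrank ℚ K : ℝ) * Real.log T.e) := by
    have : ∑ w : InfinitePlace K, (w.mult : ℝ) * Real.log (w (T.e : K)) =
        (Module.finrank ℚ K : ℝ) * Real.log T.e := by
      rw [hd, Finset.sum_mul]
      refine Finset.sum_congr rfl fun w _ => ?_
      rw [hwe w]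
    linarith
  -- infinite places
  have PI : ∑ w : InfinitePlace K, (w.mult : ℝ) * Real.log (w (s - 1)) ≤
      (Module.finrank ℚ K : ℝ) * Real.log ρ - arch (y2 - 1)⁻¹ := by
    unfold arch
    rw [hd, Finset.sum_mul, ← Finset.sum_sub_distrib]
    refine Finset.sum_le_sum fun w _ => ?_
    have hm : (0 : ℝ) ≤ w.mult := Nat.cast_nonneg _
    have hwz : 0 < w (s - 1) := InfinitePlace.pos_iff.2 hz
    have hwy : 0 < w (y2 - 1) := InfinitePlace.pos_iff.2 hy21
    have hmin : 0 < min 1 (w (y2 - 1)) := lt_min one_pos hwy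
    have h1 := Real.log_le_log hwz (harch w)
    rw [Real.log_mul hρ.ne' hmin.ne'] at h1
    have h2 : Real.log (min 1 (w (y2 - 1))) = -Real.log (max 1 (w (y2 - 1)⁻¹)) := by
      rw [map_inv₀]
      rcases le_total (w (y2 - 1)) 1 with h | h
      · rw [min_eq_right h, max_eq_right ((one_le_inv₀ hwy).2 h), Real.log_inv, neg_neg]
      · rw [min_eq_left h, max_eq_left (inv_le_one_of_one_le₀ h)]
        simp
    rw [h2] at h1
    nlinarith
  -- finite places
  have PF := Finset.sum_le_sum (s := B) fun v _ =>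
    gap_finite T hy1 hy2 h21 hs hs1 hse hk v (hloc v)
  have S1 := gap_sz hy21 T.Gᶜ B hB3
  have S2 := gap_sz hy2 T.F0 B hB2
  have S3 := gap_sz (inv_ne_zero hy1) T.F1 B hB1
  have S1' : (∑ v ∈ B, if 0 < ord v (y2 - 1) ∧ (ord v (y2 - 1)).toNat ∈ T.Gᶜ then
      (ord v (y2 - 1) : ℝ) * ln v else 0) = sz (y2 - 1) T.Gᶜ := by
    rw [S1]
    refine Finset.sum_congr rfl fun v _ => ?_
    congr
  rw [Finset.sum_add_distrib, Finset.sum_add_distrib, ← Finset.mul_sum, ← Finset.sum_div,
    Finset.sum_add_distrib, S1', ← S2, ← S3, P2'] at PF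
  have PP := gap_pole T hy1 hy2 hk hh hl
  have hOv : (sz y2 T.F0 + sz y1⁻¹ T.F1) / (T.e : ℝ) ≤
      (sz y2 T.F0 + sz y2⁻¹ T.F1) / (T.e : ℝ) + (1 + Module.finrank ℚ K) := by
    have h1 : (sz y2 T.F0 + sz y1⁻¹ T.F1) / (T.e : ℝ) ≤
        (sz y2 T.F0 + (sz y2⁻¹ T.F1 + (1 + Module.finrank ℚ K))) / (T.e : ℝ) := by
      apply div_le_div_of_nonneg_right _ (by linarith)
      linarith
    have h2 : (sz y2 T.F0 + (sz y2⁻¹ T.F1 + (1 + Module.finrank ℚ K))) / (T.e : ℝ) =
        (sz y2 T.F0 + sz y2⁻¹ T.F1) / (T.e : ℝ) + (1 + Module.finrank ℚ K : ℝ) / T.e := by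
      ring
    have h3 : (1 + Module.finrank ℚ K : ℝ) / T.e ≤ 1 + Module.finrank ℚ K := by
      apply div_le_self _ heR
      positivity
    linarith
  unfold Ov
  linarith

end Pool.Agent.AbcE
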