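import Mathlib
import Pool.Agent.AbcE.Defs

/-!
Classes at a finite place: the units whose `e`-th power is close to `1`.
-/

namespace Pool.Agent.AbcE

open NumberField IsDedekindDomain Pool.Agent.H7.Abc

variable {K : Type*} [Field K] [NumberField K]

theorem fp_sum_lt (V : FinitePlace K) {ι : Type*} (s : Finset ι) (f : ι → K) {a : ℝ}
    (ha : 0 < a) (h : ∀ i ∈ s, V (f i) < a) : V (∑ i ∈ s, f i) < a := by
  classical
  induction s using Finset.induction_on with
  | empty => simpa using ha
  | insert i s hi ih =>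
    rw [Finset.sum_insert hi]
    refine lt_of_le_of_lt (FinitePlace.add_le V _ _) (max_lt ?_ ?_)
    · exact h i (Finset.mem_insert_self i s)
    · exact ih fun j hj => h j (Finset.mem_insert_of_mem hj)

theorem fp_sub_le (V : FinitePlace K) (x y : K) : V (x - y) ≤ max (V x) (V y) := by
  have h := FinitePlace.add_le V x (-y)
  rwa [← sub_eq_add_neg, map_neg_eq_map] at h

theorem fp_prod (V : FinitePlace K) {ι : Type*} (s : Finset ι) (f : ι → K) :
    V (∏ i ∈ s, f i) = ∏ i ∈ s, V (f i) := map_prod V f s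

/-- There are at most `e` pairwise far elements. -/
theorem far_card (V : FinitePlace K) (e : ℕ) (he : 1 ≤ e) (S : Finset K)
    (h1 : ∀ t ∈ S, V (t ^ e - 1) < V (e : K) ^ e)
    (h2 : ∀ t ∈ S, ∀ s ∈ S, t ≠ s → V (e : K) ≤ V (t - s)) : S.card ≤ e := by
  classical
  by_contra hcon
  push Not at hcon
  obtain ⟨S', hS', hc⟩ := Finset.exists_subset_card_eq (show e + 1 ≤ S.card from hcon)
  have hA : 0 < V (e : K) := by
    rw [FinitePlace.pos_iff]
    exact_mod_cast (show e ≠ 0 by omega)
  have hdeg : (Polynomial.X ^ e - 1 : Polynomial K).degree = e := by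
    have := Polynomial.degree_X_pow_sub_C (show 0 < e from he) (1 : K)
    simpa using this
  have hlead : (Polynomial.X ^ e - 1 : Polynomial K).leadingCoeff = 1 := by
    have := Polynomial.leadingCoeff_X_pow_sub_C (R := K) (show 0 < e from he) (r := 1)
    simpa using this
  have key := Lagrange.leadingCoeff_eq_sum (s := S') (v := fun x : K => x)
    (fun x _ y _ h => h) (P := (Polynomial.X ^ e - 1 : Polynomial K)) (by
      rw [hdeg, hc]; push_cast; rfl)
  rw [hlead] at key
  have hlt : V (∑ i ∈ S', (Polynomial.eval i (Polynomial.X ^ e - 1 : Polynomial K)) /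
      ∏ j ∈ S'.erase i, (i - j)) < 1 := by
    refine fp_sum_lt V S' _ one_pos fun i hi => ?_
    have hprod : V (e : K) ^ e ≤ V (∏ j ∈ S'.erase i, (i - j)) := by
      rw [fp_prod]
      have hcard : (S'.erase i).card = e := by
        rw [Finset.card_erase_of_mem hi, hc]; simp
      calc V (e : K) ^ e = ∏ j ∈ S'.erase i, V (e : K) := by
            rw [Finset.prod_const, hcard]
        _ ≤ ∏ j ∈ S'.erase i, V (i - j) := by
            refine Finset.prod_le_prod (fun j _ => hA.le) fun j hj => ?_
            have hj' := Finset.mem_erase.1 hj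
            exact h2 i (hS' hi) j (hS' hj'.2) (Ne.symm hj'.1)
    rw [map_div₀]
    have hpos : 0 < V (∏ j ∈ S'.erase i, (i - j)) := lt_of_lt_of_le (pow_pos hA e) hprod
    rw [div_lt_one hpos]
    have : Polynomial.eval i (Polynomial.X ^ e - 1 : Polynomial K) = i ^ e - 1 := by simp
    rw [this]
    exact lt_of_lt_of_le (h1 i (hS' hi)) hprod
  rw [← key, map_one] at hlt
  exact lt_irrefl _ hlt

/-- Close units have close powers: differences of powers. -/
theorem fp_pow_sub_le (V : FinitePlace K) {s t : K} (hs : V s = 1) (ht : V t = 1) (n : ℕ) :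
    V (s ^ n - t ^ n) ≤ V (s - t) := by
  induction n with
  | zero => simp [apply_nonneg]
  | succ n ih =>
    have e1 : s ^ (n + 1) - t ^ (n + 1) = s ^ n * (s - t) + (s ^ n - t ^ n) * t := by ring
    rw [e1]
    refine (FinitePlace.add_le V _ _).trans (max_le ?_ ?_)
    · rw [map_mul, map_pow, hs, one_pow, one_mul]
    · rw [map_mul, ht, mul_one]; exact ih

theorem fp_pow_sub_ge (V : FinitePlace K) {s t : K} (hs : V s = 1) (ht : V t = 1) (e : ℕ)
    (he : 1 ≤ e) (h : V (s - t) < V (e : K)) :
    V (s - t) * V (e : K) ≤ V (s ^ e - t ^ e) := by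
  have hfac : s ^ e - t ^ e = (s - t) * ∑ i ∈ Finset.range e, s ^ i * t ^ (e - 1 - i) := by
    rw [mul_comm]
    exact (geom_sum₂_mul s t e).symm
  rw [hfac, map_mul]
  refine mul_le_mul_of_nonneg_left ?_ (apply_nonneg V _)
  by_contra hcon
  push Not at hcon
  have hdiff : V ((∑ i ∈ Finset.range e, s ^ i * t ^ (e - 1 - i)) - (e : K) * t ^ (e - 1)) <
      V (e : K) := by
    have hA : 0 < V (e : K) := by
      rw [FinitePlace.pos_iff]
      exact_mod_cast (show e ≠ 0 by omega)
    have e2 : (∑ i ∈ Finset.range e, s ^ i * t ^ (e - 1 - i)) - (e : K) * t ^ (e - 1) =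
        ∑ i ∈ Finset.range e, (s ^ i - t ^ i) * t ^ (e - 1 - i) := by
      have e3 : (e : K) * t ^ (e - 1) = ∑ i ∈ Finset.range e, t ^ i * t ^ (e - 1 - i) := by
        have : ∀ i ∈ Finset.range e, t ^ i * t ^ (e - 1 - i) = t ^ (e - 1) := by
          intro i hi
          have := Finset.mem_range.1 hi
          rw [← pow_add]
          congr 1
          omega
        rw [Finset.sum_congr rfl this, Finset.sum_const, Finset.card_range, nsmul_eq_mul]
      rw [e3, ← Finset.sum_sub_distrib]
      refine Finset.sum_congr rfl fun i _ => ?_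
      ring
    rw [e2]
    refine fp_sum_lt V _ _ hA fun i _ => ?_
    rw [map_mul, map_pow, ht, one_pow, mul_one]
    exact lt_of_le_of_lt (fp_pow_sub_le V hs ht i) h
  have hval : V ((e : K) * t ^ (e - 1)) = V (e : K) := by
    rw [map_mul, map_pow, ht, one_pow, mul_one]
  have e4 : (e : K) * t ^ (e - 1) = (∑ i ∈ Finset.range e, s ^ i * t ^ (e - 1 - i)) -
      ((∑ i ∈ Finset.range e, s ^ i * t ^ (e - 1 - i)) - (e : K) * t ^ (e - 1)) := by ring
  have h5 := fp_sub_le V (∑ i ∈ Finset.range e, s ^ i * t ^ (e - 1 - i))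
      ((∑ i ∈ Finset.range e, s ^ i * t ^ (e - 1 - i)) - (e : K) * t ^ (e - 1))
  rw [← e4, hval] at h5
  exact absurd (lt_of_le_of_lt h5 (max_lt hcon hdiff)) (lt_irrefl _)

/-- The `v`-adic units whose `e`-th power is close to `1` fall into at most `e` classes, and inside
a class closeness of the `e`-th powers gives closeness. -/
theorem local_class (e : ℕ) (he : 1 ≤ e) (v : HeightOneSpectrum (𝓞 K)) :
    ∃ c : K → Fin e, ∀ t1 t2 : K, FinitePlace.mk v t1 = 1 → FinitePlace.mk v t2 = 1 →
      FinitePlace.mk v (t1 ^ e - 1) < FinitePlace.mk v (e : K) ^ e →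
      FinitePlace.mk v (t2 ^ e - 1) < FinitePlace.mk v (e : K) ^ e →
      c t1 = c t2 →
        FinitePlace.mk v (t1 - t2) * FinitePlace.mk v (e : K) ≤
          FinitePlace.mk v (t1 ^ e - t2 ^ e) := by
  classical
  set V := FinitePlace.mk v with hV
  -- good finite sets
  let Good : Finset K → Prop := fun S =>
    (∀ t ∈ S, V (t ^ e - 1) < V (e : K) ^ e) ∧
      ∀ t ∈ S, ∀ s ∈ S, t ≠ s → V (e : K) ≤ V (t - s)
  have hex : ∃ n, ∃ S, Good S ∧ S.card = n := ⟨0, ∅, by simp [Good], rfl⟩
  have hbd : ∀ n, (∃ S, Good S ∧ S.card = n) → n ≤ e := by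
    rintro n ⟨S, hS, rfl⟩
    exact far_card V e he S hS.1 hS.2
  obtain ⟨n, ⟨S, hS, hcard⟩, hmax⟩ : ∃ n, (∃ S, Good S ∧ S.card = n) ∧
      ∀ m, (∃ S, Good S ∧ S.card = m) → m ≤ n := by
    refine ⟨Nat.findGreatest (fun m => ∃ S, Good S ∧ S.card = m) e, ?_, ?_⟩
    · exact Nat.findGreatest_spec (P := fun m => ∃ S, Good S ∧ S.card = m) (m := 0)
        (Nat.zero_le e) ⟨∅, by simp [Good], rfl⟩
    · intro m hm
      exact Nat.le_findGreatest (hbd m hm) hm
  have hne : n ≤ e := hbd n ⟨S, hS, hcard⟩
  have hnear : ∀ t : K, V (t ^ e - 1) < V (e : K) ^ e → ∃ s ∈ S, V (t - s) < V (e : K) := by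
    intro t ht
    by_contra hcon
    push Not at hcon
    have hA : 0 < V (e : K) := by
      rw [FinitePlace.pos_iff]
      exact_mod_cast (show e ≠ 0 by omega)
    have htS : t ∉ S := by
      intro h
      have := hcon t h
      rw [sub_self, map_zero] at this
      linarith
    have hgood : Good (insert t S) := by
      refine ⟨?_, ?_⟩
      · intro s hs
        rcases Finset.mem_insert.1 hs with rfl | hs
        · exact ht
        · exact hS.1 s hs
      · intro a ha b hb hab
        rcases Finset.mem_insert.1 ha with ha1 | ha1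
        · rcases Finset.mem_insert.1 hb with hb1 | hb1
          · exact absurd (ha1.trans hb1.symm) hab
          · rw [ha1]; exact hcon b hb1
        · rcases Finset.mem_insert.1 hb with hb1 | hb1
          · have h6 := hcon a ha1
            rw [hb1]
            have h7 : V (a - t) = V (t - a) := by
              rw [← map_neg_eq_map V (t - a), neg_sub]
            rw [h7]; exact h6
          · exact hS.2 a ha1 b hb1 hab
    have := hmax (n + 1) ⟨insert t S, hgood, by rw [Finset.card_insert_of_notMem htS, hcard]⟩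
    omega
  -- numbering of S
  let φ : K → Fin e := fun t =>
    if h : ∃ s ∈ S, V (t - s) < V (e : K) then
      Fin.castLE (by rw [hcard]; exact hne) (S.equivFin ⟨h.choose, h.choose_spec.1⟩)
    else ⟨0, he⟩
  refine ⟨φ, ?_⟩
  intro t1 t2 h1 h2 h3 h4 hc
  have g1 := hnear t1 h3
  have g2 := hnear t2 h4
  have hc' : g1.choose = g2.choose := by
    have e1 : φ t1 = Fin.castLE (by rw [hcard]; exact hne)
        (S.equivFin ⟨g1.choose, g1.choose_spec.1⟩) := dif_pos g1
    have e2 : φ t2 = Fin.castLE (by rw [hcard]; exact hne)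
        (S.equivFin ⟨g2.choose, g2.choose_spec.1⟩) := dif_pos g2
    rw [e1, e2] at hc
    have := Fin.castLE_injective _ hc
    have := S.equivFin.injective this
    exact congrArg Subtype.val this
  have hclose : V (t1 - t2) < V (e : K) := by
    have e1 : t1 - t2 = (t1 - g1.choose) - (t2 - g1.choose) := by ring
    rw [e1]
    refine lt_of_le_of_lt (fp_sub_le V _ _) (max_lt g1.choose_spec.2 ?_)
    rw [hc']
    exact g2.choose_spec.2
  exact fp_pow_sub_ge V h1 h2 e he hclose

end Pool.Agent.AbcE
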