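import Mathlib
import Pool.Agent.AbcE.Defs

/-!
Module A: finiteness of Selmer classes.
-/

namespace Pool.Agent.AbcE

open NumberField IsDedekindDomain Pool.Agent.H7.Abc

open scoped nonZeroDivisors

namespace SelmerAux

variable {K : Type*} [Field K] [NumberField K]

theorem ord_mul (v : HeightOneSpectrum (𝓞 K)) {x y : K} (hx : x ≠ 0) (hy : y ≠ 0) :
    ord v (x * y) = ord v x + ord v y := by
  have hvx : v.valuation K x ≠ 0 := (Valuation.ne_zero_iff _).2 hx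
  have hvy : v.valuation K y ≠ 0 := (Valuation.ne_zero_iff _).2 hy
  unfold ord
  rw [map_mul, WithZero.log_mul hvx hvy]
  ring

theorem ord_one (v : HeightOneSpectrum (𝓞 K)) : ord v (1 : K) = 0 := by
  unfold ord
  rw [map_one, WithZero.log_one, neg_zero]

theorem ord_pow (v : HeightOneSpectrum (𝓞 K)) {x : K} (hx : x ≠ 0) (n : ℕ) :
    ord v (x ^ n) = n * ord v x := by
  induction n with
  | zero => simp [ord_one]
  | succ n ih =>
    rw [pow_succ, ord_mul v (pow_ne_zero _ hx) hx, ih]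
    push_cast
    ring

theorem ord_int (v : HeightOneSpectrum (𝓞 K)) {z : 𝓞 K} (hz : z ≠ 0) :
    ord v (algebraMap (𝓞 K) K z) =
      ((Associates.mk v.asIdeal).count
        (Associates.mk (Ideal.span {z} : Ideal (𝓞 K))).factors : ℤ) := by
  classical
  unfold ord
  rw [HeightOneSpectrum.valuation_of_algebraMap, HeightOneSpectrum.intValuation_if_neg _ hz,
    WithZero.log_exp, neg_neg]

/-- A principal ideal all of whose exponents are divisible by `e` is an `e`-th power. -/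
theorem exists_ideal (e : ℕ) {z : 𝓞 K} (hz : z ≠ 0)
    (h : ∀ v : HeightOneSpectrum (𝓞 K), (e : ℤ) ∣ ord v (algebraMap (𝓞 K) K z)) :
    ∃ J : Ideal (𝓞 K), J ^ e = Ideal.span {z} := by
  classical
  have hne : (Ideal.span {z} : Ideal (𝓞 K)) ≠ 0 := by
    rw [Ideal.zero_eq_bot]
    intro hb
    exact hz (Ideal.span_singleton_eq_bot.1 hb)
  have h1 : Associates.mk (Ideal.span {z} : Ideal (𝓞 K)) ≠ 0 := Associates.mk_ne_zero.2 hne
  obtain ⟨b, hb⟩ := Associates.is_pow_of_dvd_count (k := e) h1 (by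
    intro p hp
    obtain ⟨P, rfl⟩ := Associates.mk_surjective p
    have hP : Irreducible P := Associates.irreducible_mk.1 hp
    have hPp : P.IsPrime := Ideal.isPrime_of_prime hP.prime
    have h2 := h ⟨P, hPp, hP.ne_zero⟩
    rw [ord_int _ hz] at h2
    exact Int.natCast_dvd_natCast.1 h2)
  obtain ⟨J, rfl⟩ := Associates.mk_surjective b
  refine ⟨J, ?_⟩
  rw [← Associates.mk_pow] at hb
  exact ((Associates.mk_eq_mk_iff_associated.1 hb).eq_of_normalized
    (normalize_eq _) (normalize_eq _)).symm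

/-- Units modulo `e`-th powers. -/
theorem unit_classes (K : Type*) [Field K] [NumberField K] (e : ℕ) (he : 1 ≤ e) :
    ∃ (M : ℕ) (g : (𝓞 K)ˣ → Fin M), ∀ u v, g u = g v → ∃ w : (𝓞 K)ˣ, u = v * w ^ e := by
  classical
  haveI : Group.FG (𝓞 K)ˣ := Group.fg_iff_monoid_fg.2 inferInstance
  haveI hfi := Subgroup.finiteIndex_range_powMonoidHom_of_fg (𝓞 K)ˣ (n := e) (by omega)
  haveI : Finite ((𝓞 K)ˣ ⧸ (powMonoidHom (α := (𝓞 K)ˣ) e).range) :=
    Subgroup.finiteIndex_iff_finite_quotient.1 hfi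
  letI : Fintype ((𝓞 K)ˣ ⧸ (powMonoidHom (α := (𝓞 K)ˣ) e).range) := Fintype.ofFinite _
  let E := Fintype.equivFin ((𝓞 K)ˣ ⧸ (powMonoidHom (α := (𝓞 K)ˣ) e).range)
  refine ⟨_, fun u => E (QuotientGroup.mk u), fun u v huv => ?_⟩
  have h1 := E.injective huv
  rw [QuotientGroup.eq] at h1
  obtain ⟨w, hw⟩ := h1
  rw [powMonoidHom_apply] at hw
  refine ⟨w⁻¹, ?_⟩
  rw [inv_pow, hw]
  group

/-- Elements with all exponents divisible by `e`, up to `e`-th powers. -/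
theorem dvd_classes (K : Type*) [Field K] [NumberField K] (e : ℕ) (he : 1 ≤ e) :
    ∃ (M : ℕ) (h : K → Fin M), ∀ a b : K, a ≠ 0 → b ≠ 0 →
      (∀ v : HeightOneSpectrum (𝓞 K), (e : ℤ) ∣ ord v a) →
      (∀ v : HeightOneSpectrum (𝓞 K), (e : ℤ) ∣ ord v b) → h a = h b →
        ∃ t : K, t ≠ 0 ∧ a = b * t ^ e := by
  classical
  obtain ⟨M1, g, hg⟩ := unit_classes K e he
  -- good elements
  let H := {a : K // a ≠ 0 ∧ ∀ v : HeightOneSpectrum (𝓞 K), (e : ℤ) ∣ ord v a}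
  -- integral multiple and ideal
  have hint : ∀ a : H, ∃ (z : 𝓞 K) (s : K) (J : Ideal (𝓞 K)), z ≠ 0 ∧ s ≠ 0 ∧
      algebraMap (𝓞 K) K z = a.1 * s ^ e ∧ J ^ e = Ideal.span {z} := by
    rintro ⟨a, ha, hv⟩
    obtain ⟨n, d, hd, rfl⟩ := IsFractionRing.div_surjective (A := 𝓞 K) a
    have hd0 : d ≠ 0 := nonZeroDivisors.ne_zero hd
    have hdK : algebraMap (𝓞 K) K d ≠ 0 := by
      simpa using hd0
    have hnK : algebraMap (𝓞 K) K n ≠ 0 := by
      intro h0
      apply ha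
      rw [h0, zero_div]
    have hn0 : n ≠ 0 := by
      rintro rfl
      exact hnK (map_zero _)
    have hz : n * d ^ (e - 1) ≠ 0 := mul_ne_zero hn0 (pow_ne_zero _ hd0)
    have heq : algebraMap (𝓞 K) K (n * d ^ (e - 1)) =
        algebraMap (𝓞 K) K n / algebraMap (𝓞 K) K d * (algebraMap (𝓞 K) K d) ^ e := by
      rw [map_mul, map_pow]
      obtain ⟨k, rfl⟩ : ∃ k, e = k + 1 := ⟨e - 1, by omega⟩
      simp only [Nat.add_sub_cancel]
      rw [pow_succ]
      field_simp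
    obtain ⟨J, hJ⟩ := exists_ideal e hz (by
      intro v
      rw [heq, ord_mul v ha (pow_ne_zero _ hdK), ord_pow v hdK]
      exact dvd_add (hv v) (dvd_mul_right _ _))
    exact ⟨_, _, J, hz, hdK, heq, hJ⟩
  choose z s J hz hs hzs hJ using hint
  have hJ0 : ∀ a, J a ∈ (Ideal (𝓞 K))⁰ := by
    intro a
    rw [mem_nonZeroDivisors_iff_ne_zero]
    intro h0
    have h1 := hJ a
    rw [h0, zero_pow (by omega)] at h1
    apply hz a
    rw [Ideal.zero_eq_bot] at h1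
    exact Ideal.span_singleton_eq_bot.1 h1.symm
  let cls : H → ClassGroup (𝓞 K) := fun a => ClassGroup.mk0 ⟨J a, hJ0 a⟩
  -- same class: differ by a unit and a power
  have hsame : ∀ a b : H, cls a = cls b → ∃ (u : (𝓞 K)ˣ) (t : K), t ≠ 0 ∧
      a.1 = b.1 * ((u : 𝓞 K) : K) * t ^ e := by
    intro a b hab
    obtain ⟨x, y, hx, hy, hxy⟩ := ClassGroup.mk0_eq_mk0_iff.1 hab
    simp only at hxy
    have h1 : Ideal.span {x ^ e * z a} = Ideal.span {y ^ e * z b} := by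
      rw [← Ideal.span_singleton_mul_span_singleton, ← Ideal.span_singleton_mul_span_singleton,
        ← Ideal.span_singleton_pow, ← Ideal.span_singleton_pow, ← hJ a, ← hJ b, ← mul_pow,
        ← mul_pow, hxy]
    obtain ⟨u, hu⟩ := Ideal.span_singleton_eq_span_singleton.1 h1
    -- hu : x^e * z a * u = y^e * z b
    have hxK : (algebraMap (𝓞 K) K x) ≠ 0 := by simpa using hx
    have hyK : (algebraMap (𝓞 K) K y) ≠ 0 := by simpa using hy
    have huK : (algebraMap (𝓞 K) K (u : 𝓞 K)) ≠ 0 := by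
      simp
    have h2 := congrArg (algebraMap (𝓞 K) K) hu
    rw [map_mul, map_mul, map_mul, map_pow, map_pow, hzs a, hzs b] at h2
    refine ⟨u⁻¹, (algebraMap (𝓞 K) K y) * s b / ((algebraMap (𝓞 K) K x) * s a), ?_, ?_⟩
    · exact div_ne_zero (mul_ne_zero hyK (hs b)) (mul_ne_zero hxK (hs a))
    · have hinv : (((u⁻¹ : (𝓞 K)ˣ) : 𝓞 K) : K) * (algebraMap (𝓞 K) K (u : 𝓞 K)) = 1 := by
        have : ((u⁻¹ : (𝓞 K)ˣ) : 𝓞 K) * (u : 𝓞 K) = 1 := Units.inv_mul u
        have h3 := congrArg (algebraMap (𝓞 K) K) this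
        rw [map_mul, map_one] at h3
        exact h3
      have hsa := hs a
      have hsb := hs b
      rw [div_pow, mul_pow, mul_pow, mul_div_assoc', eq_div_iff
        (mul_ne_zero (pow_ne_zero _ hxK) (pow_ne_zero _ hsa))]
      calc a.1 * (algebraMap (𝓞 K) K x ^ e * s a ^ e)
          = (algebraMap (𝓞 K) K x ^ e * (a.1 * s a ^ e) * algebraMap (𝓞 K) K (u : 𝓞 K)) *
            (((u⁻¹ : (𝓞 K)ˣ) : 𝓞 K) : K) := by
            rw [mul_assoc (algebraMap (𝓞 K) K x ^ e * (a.1 * s a ^ e)),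
              mul_comm (algebraMap (𝓞 K) K (u : 𝓞 K)), hinv]
            ring
        _ = b.1 * (((u⁻¹ : (𝓞 K)ˣ) : 𝓞 K) : K) * (algebraMap (𝓞 K) K y ^ e * s b ^ e) := by
            rw [h2]
            ring
  -- choose a base in every class
  let base : ClassGroup (𝓞 K) → Option H := fun c =>
    if h : ∃ a : H, cls a = c then some h.choose else none
  have hbase : ∀ a : H, ∃ b : H, base (cls a) = some b ∧ cls b = cls a := by
    intro a
    have h : ∃ a' : H, cls a' = cls a := ⟨a, rfl⟩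
    exact ⟨h.choose, by simp only [base]; rw [dif_pos h], h.choose_spec⟩
  choose B hB1 hB2 using hbase
  have hU : ∀ a : H, ∃ u : (𝓞 K)ˣ, ∃ t : K, t ≠ 0 ∧
      a.1 = (B a).1 * ((u : 𝓞 K) : K) * t ^ e := fun a => hsame a (B a) (hB2 a).symm
  choose U t ht hUt using hU
  -- the map
  let E := Fintype.equivFin (ClassGroup (𝓞 K) × Fin M1)
  have hone : (1 : K) ≠ 0 ∧ ∀ v : HeightOneSpectrum (𝓞 K), (e : ℤ) ∣ ord v (1 : K) :=
    ⟨one_ne_zero, fun v => by rw [ord_one]; exact dvd_zero _⟩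
  let h : K → Fin (Fintype.card (ClassGroup (𝓞 K) × Fin M1)) := fun a =>
    if ha : a ≠ 0 ∧ ∀ v : HeightOneSpectrum (𝓞 K), (e : ℤ) ∣ ord v a
    then E (cls ⟨a, ha⟩, g (U ⟨a, ha⟩)) else E (cls ⟨1, hone⟩, g (U ⟨1, hone⟩))
  refine ⟨_, h, fun a b ha hb hva hvb hab => ?_⟩
  simp only [h] at hab
  rw [dif_pos ⟨ha, hva⟩, dif_pos ⟨hb, hvb⟩] at hab
  have h1 := E.injective hab
  rw [Prod.mk.injEq] at h1
  obtain ⟨hc, hgu⟩ := h1
  obtain ⟨w, hw⟩ := hg _ _ hgu
  have hBB : B ⟨a, ha, hva⟩ = B ⟨b, hb, hvb⟩ := by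
    have := hB1 ⟨a, ha, hva⟩
    rw [hc, hB1 ⟨b, hb, hvb⟩] at this
    exact (Option.some.inj this).symm
  have e1 := hUt ⟨a, ha, hva⟩
  have e2 := hUt ⟨b, hb, hvb⟩
  rw [hBB, hw] at e1
  have hw0 : ((w : 𝓞 K) : K) ≠ 0 := by
    have : (w : 𝓞 K) ≠ 0 := w.ne_zero
    simpa using this
  refine ⟨((w : 𝓞 K) : K) * t ⟨a, ha, hva⟩ / t ⟨b, hb, hvb⟩,
    div_ne_zero (mul_ne_zero hw0 (ht _)) (ht _), ?_⟩
  have htb := ht ⟨b, hb, hvb⟩
  simp only at e1 e2
  generalize t ⟨a, ha, hva⟩ = ta at *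
  generalize t ⟨b, hb, hvb⟩ = tb at *
  generalize (B ⟨b, hb, hvb⟩).1 = Bb at *
  generalize U ⟨b, hb, hvb⟩ = Ub at *
  clear hab hc hgu hw hBB
  rw [div_pow, mul_pow, mul_div_assoc', eq_div_iff (pow_ne_zero _ htb)]
  have e3 : (((Ub * w ^ e : (𝓞 K)ˣ) : 𝓞 K) : K) = ((Ub : 𝓞 K) : K) * ((w : 𝓞 K) : K) ^ e := by
    push_cast
    rfl
  rw [e3] at e1
  calc a * tb ^ e = Bb * (((Ub : 𝓞 K) : K) * ((w : 𝓞 K) : K) ^ e) * ta ^ e * tb ^ e :=
        congrArg (· * tb ^ e) e1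
    _ = Bb * ((Ub : 𝓞 K) : K) * tb ^ e * (((w : 𝓞 K) : K) ^ e * ta ^ e) := by ring
    _ = b * (((w : 𝓞 K) : K) ^ e * ta ^ e) := by rw [← e2]

end SelmerAux

open SelmerAux in
/-- Elements whose exponents differ by multiples of `e` differ by an `e`-th power, up to
finitely many classes. -/
theorem selmer (K : Type*) [Field K] [NumberField K] (e : ℕ) (he : 1 ≤ e) :
    ∃ (M : ℕ) (f : K → Fin M), ∀ x y : K, x ≠ 0 → y ≠ 0 →
      (∀ v : HeightOneSpectrum (𝓞 K), (e : ℤ) ∣ ord v x - ord v y) → f x = f y →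
        ∃ t : K, t ≠ 0 ∧ x = y * t ^ e := by
  classical
  obtain ⟨M, h, hh⟩ := dvd_classes K e he
  let S : Setoid {x : K // x ≠ 0} :=
    { r := fun x y => ∀ v : HeightOneSpectrum (𝓞 K), (e : ℤ) ∣ ord v x.1 - ord v y.1
      iseqv := ⟨fun x v => by simp, fun {x y} hxy v => by
          have := hxy v
          rw [← neg_sub]
          exact (dvd_neg).2 this,
        fun {x y z} hxy hyz v => by
          have := dvd_add (hxy v) (hyz v)
          simpa using this⟩ }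
  let r : {x : K // x ≠ 0} → {x : K // x ≠ 0} := fun x => (Quotient.mk S x).out
  have hr : ∀ x : {x : K // x ≠ 0}, ∀ v : HeightOneSpectrum (𝓞 K),
      (e : ℤ) ∣ ord v x.1 - ord v (r x).1 := by
    intro x
    have : S.r (r x) x := Quotient.mk_out (s := S) x
    intro v
    have h1 := this v
    rw [← neg_sub]
    exact (dvd_neg).2 h1
  let f : K → Fin M := fun x => if hx : x ≠ 0 then h (x / (r ⟨x, hx⟩).1) else h 1
  refine ⟨M, f, fun x y hx hy hxy hf => ?_⟩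
  simp only [f] at hf
  rw [dif_pos hx, dif_pos hy] at hf
  have hrr : r ⟨x, hx⟩ = r ⟨y, hy⟩ := by
    simp only [r]
    congr 1
    exact Quotient.sound (s := S) hxy
  have hr0 := (r ⟨x, hx⟩).2
  have hr0' := (r ⟨y, hy⟩).2
  obtain ⟨t, ht, hxt⟩ := hh _ _ (div_ne_zero hx hr0) (div_ne_zero hy hr0')
    (fun v => by rw [ord_div v hx hr0]; exact hr ⟨x, hx⟩ v)
    (fun v => by rw [ord_div v hy hr0']; exact hr ⟨y, hy⟩ v) hf
  refine ⟨t, ht, ?_⟩
  rw [hrr] at hxt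
  field_simp at hxt
  exact hxt

end Pool.Agent.AbcE
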