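import Mathlib
import Pool.Agent.AbcE.Defs
import Pool.Agent.AbcE.Selmer
import Pool.Agent.AbcE.Local
import Pool.Agent.AbcE.Arch
import Pool.Agent.AbcE.Gap

/-!
The number of elements of a cell.
-/

namespace Pool.Agent.AbcE

open NumberField IsDedekindDomain Pool.Agent.H7.Abc

variable {K : Type*} [Field K] [NumberField K]

namespace Cell

/-- a free exponent is divisible by `e` -/
theorem free_dvd (T : Tool) {a : ℤ}
    (h : (0 < a ∧ a.toNat ∈ T.F0) ∨ (a < 0 ∧ (-a).toNat ∈ T.F1)) : (T.e : ℤ) ∣ a := by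
  rcases h with ⟨h1, h2⟩ | ⟨h1, h2⟩
  · have h3 : (T.e : ℤ) ∣ (a.toNat : ℤ) := Int.natCast_dvd_natCast.2 (T.h0 _ h2)
    rwa [Int.toNat_of_nonneg h1.le] at h3
  · have h3 : (T.e : ℤ) ∣ ((-a).toNat : ℤ) := Int.natCast_dvd_natCast.2 (T.h1 _ h2)
    rw [Int.toNat_of_nonneg (by omega)] at h3
    exact (dvd_neg.1 h3)

theorem kf_dvd (T : Tool) {y b : K} {v : HeightOneSpectrum (𝓞 K)} (h : kf T y v = kf T b v) :
    (T.e : ℤ) ∣ ord v y - ord v b := by
  unfold kf at h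
  split_ifs at h with h1 h2 h2
  · exact dvd_sub (free_dvd T h1) (free_dvd T h2)
  · rw [← h, sub_zero]; exact free_dvd T h1
  · rw [h, zero_sub, dvd_neg]; exact free_dvd T h2
  · rw [h, sub_self]; exact dvd_zero _

theorem mk_sub_le (v : HeightOneSpectrum (𝓞 K)) {x y : K} {r : ℝ} (hx : FinitePlace.mk v x ≤ r)
    (hy : FinitePlace.mk v y ≤ r) : FinitePlace.mk v (x - y) ≤ r := by
  have h := FinitePlace.add_le (FinitePlace.mk v) x (-y)
  rw [map_neg_eq_map, ← sub_eq_add_neg] at h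
  exact h.trans (max_le hx hy)

theorem mk_eq_one_of (v : HeightOneSpectrum (𝓞 K)) {x : K}
    (hx : FinitePlace.mk v (x - 1) < 1) : FinitePlace.mk v x = 1 := by
  have h1 := FinitePlace.add_le (FinitePlace.mk v) (x - 1) 1
  rw [sub_add_cancel, map_one, max_eq_right hx.le] at h1
  refine le_antisymm h1 ?_
  by_contra h2
  push Not at h2
  have h3 := FinitePlace.add_le (FinitePlace.mk v) x (-(x - 1))
  rw [show x + -(x - 1) = 1 by ring, map_one, map_neg_eq_map] at h3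
  exact absurd (max_lt h2 hx) (not_lt.2 h3)

theorem mk_nat_le_one (v : HeightOneSpectrum (𝓞 K)) (n : ℕ) :
    FinitePlace.mk v (n : K) ≤ 1 := by
  induction n with
  | zero => simp
  | succ n ih =>
    have h := FinitePlace.add_le (FinitePlace.mk v) (n : K) 1
    rw [map_one] at h
    rw [Nat.cast_succ]
    exact h.trans (max_le ih le_rfl)

/-- the exponent `jf` at a place where it is positive -/
theorem jf_pos (T : Tool) {y : K} {v : HeightOneSpectrum (𝓞 K)} (h : 0 < jf T y v) :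
    jf T y v = ord v (y - 1) := by
  unfold jf at h ⊢
  split_ifs at h ⊢ with h1
  · rfl
  · exact absurd h (lt_irrefl _)

theorem jf_nonneg (T : Tool) (y : K) (v : HeightOneSpectrum (𝓞 K)) : 0 ≤ jf T y v := by
  unfold jf
  split_ifs with h1
  · exact h1.1.le
  · exact le_rfl

/-- the local condition of `gap` -/
theorem loc (T : Tool) {b y1 y2 t1 t2 : K} {v : HeightOneSpectrum (𝓞 K)} {c : K → Fin T.e}
    (hb : b ≠ 1) (h1 : y1 ≠ 1) (h2 : y2 ≠ 1) (ht2 : t2 ≠ 0)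
    (e1 : y1 = b * t1 ^ T.e) (e2 : y2 = b * t2 ^ T.e)
    (hc : ∀ t1 t2 : K, FinitePlace.mk v t1 = 1 → FinitePlace.mk v t2 = 1 →
      FinitePlace.mk v (t1 ^ T.e - 1) < FinitePlace.mk v (T.e : K) ^ T.e →
      FinitePlace.mk v (t2 ^ T.e - 1) < FinitePlace.mk v (T.e : K) ^ T.e →
      c t1 = c t2 →
        FinitePlace.mk v (t1 - t2) * FinitePlace.mk v (T.e : K) ≤
          FinitePlace.mk v (t1 ^ T.e - t2 ^ T.e))
    (hcc : c t1 = c t2) (hj : 0 < jf T y2 v) (hj1 : jf T y1 v = jf T y2 v)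
    (hjb : jf T b v = jf T y2 v) :
    FinitePlace.mk v (t1 / t2 - 1) * FinitePlace.mk v (T.e : K) ^ T.e ≤
        (Ideal.absNorm v.asIdeal : ℝ) ^ (-jf T y2 v) := by
  set R : ℝ := (Ideal.absNorm v.asIdeal : ℝ) ^ (-jf T y2 v) with hR
  have he0 : T.e ≠ 0 := by have := T.he; omega
  have hRlt : R < 1 := by
    rw [hR]
    exact zpow_lt_one_of_neg₀ (one_lt_norm v) (by omega)
  have hy2 : FinitePlace.mk v (y2 - 1) = R := by
    rw [mk_eq_zpow v (sub_ne_zero.2 h2), ← jf_pos T hj]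
  have hy1 : FinitePlace.mk v (y1 - 1) = R := by
    rw [mk_eq_zpow v (sub_ne_zero.2 h1), ← jf_pos T (by rw [hj1]; exact hj), hj1]
  have hyb : FinitePlace.mk v (b - 1) = R := by
    rw [mk_eq_zpow v (sub_ne_zero.2 hb), ← jf_pos T (by rw [hjb]; exact hj), hjb]
  have hb1 : FinitePlace.mk v b = 1 := mk_eq_one_of v (by rw [hyb]; exact hRlt)
  have h11 : FinitePlace.mk v y1 = 1 := mk_eq_one_of v (by rw [hy1]; exact hRlt)
  have h21 : FinitePlace.mk v y2 = 1 := mk_eq_one_of v (by rw [hy2]; exact hRlt)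
  have hb0 : b ≠ 0 := by
    rintro rfl
    rw [map_zero] at hb1
    exact zero_ne_one hb1
  have hunit : ∀ {y t : K}, FinitePlace.mk v y = 1 → y = b * t ^ T.e → FinitePlace.mk v t = 1 := by
    intro y t hy hyt
    rw [hyt, map_mul, hb1, one_mul, map_pow] at hy
    exact (pow_eq_one_iff_of_nonneg (apply_nonneg _ _) he0).1 hy
  have ht1' : FinitePlace.mk v t1 = 1 := hunit h11 e1
  have ht2' : FinitePlace.mk v t2 = 1 := hunit h21 e2
  have hpow : ∀ {y t : K}, FinitePlace.mk v (y - 1) = R → y = b * t ^ T.e →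
      FinitePlace.mk v (t ^ T.e - 1) ≤ R := by
    intro y t hy hyt
    have h3 : FinitePlace.mk v (b * (t ^ T.e - 1)) ≤ R := by
      rw [show b * (t ^ T.e - 1) = (y - 1) - (b - 1) by rw [hyt]; ring]
      exact mk_sub_le v hy.le hyb.le
    rwa [map_mul, hb1, one_mul] at h3
  have hdiff : FinitePlace.mk v (t1 ^ T.e - t2 ^ T.e) ≤ R := by
    rw [show t1 ^ T.e - t2 ^ T.e = (t1 ^ T.e - 1) - (t2 ^ T.e - 1) by ring]
    exact mk_sub_le v (hpow hy1 e1) (hpow hy2 e2)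
  have hs : FinitePlace.mk v (t1 / t2 - 1) = FinitePlace.mk v (t1 - t2) := by
    rw [show t1 / t2 - 1 = (t1 - t2) / t2 by field_simp, map_div₀, ht2', div_one]
  rw [hs]
  have hle1 : FinitePlace.mk v (t1 - t2) ≤ 1 := mk_sub_le v ht1'.le ht2'.le
  have hE1 : FinitePlace.mk v (T.e : K) ≤ 1 := mk_nat_le_one v T.e
  have hE0 : 0 ≤ FinitePlace.mk v (T.e : K) := apply_nonneg _ _
  by_cases hcase : R < FinitePlace.mk v (T.e : K) ^ T.e
  · have h3 := hc t1 t2 ht1' ht2' ((hpow hy1 e1).trans_lt hcase) ((hpow hy2 e2).trans_lt hcase) hcc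
    refine le_trans (mul_le_mul_of_nonneg_left ?_ (apply_nonneg _ _)) (h3.trans hdiff)
    calc FinitePlace.mk v (T.e : K) ^ T.e ≤ FinitePlace.mk v (T.e : K) ^ 1 :=
          pow_le_pow_of_le_one hE0 hE1 T.he
      _ = FinitePlace.mk v (T.e : K) := pow_one _
  · push Not at hcase
    calc FinitePlace.mk v (t1 - t2) * FinitePlace.mk v (T.e : K) ^ T.e
        ≤ 1 * FinitePlace.mk v (T.e : K) ^ T.e :=
          mul_le_mul_of_nonneg_right hle1 (pow_nonneg hE0 _)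
      _ ≤ R := by rw [one_mul]; exact hcase

theorem abs_sub_le_one {a b : ℝ} {m : ℤ} (ha : ⌊a⌋ = m) (hb : ⌊b⌋ = m) : |a - b| ≤ 1 := by
  have h1 := Int.floor_le a
  have h2 := Int.lt_floor_add_one a
  have h3 := Int.floor_le b
  have h4 := Int.lt_floor_add_one b
  rw [ha] at h1 h2
  rw [hb] at h3 h4
  rw [abs_le]
  constructor <;> linarith

end Cell

open Cell

/-- The number of elements of a cell. -/
theorem cell_card (K : Type*) [Field K] [NumberField K] (T : Tool) :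
    ∃ C : ℝ, 0 < C ∧ ∀ (D Ω : ℝ) (P : Finset K) (F : Finset (HeightOneSpectrum (𝓞 K)))
      (y0 : K), 0 ≤ Ω → y0 ∈ P →
      (∀ y ∈ P, y ≠ 0 ∧ y ≠ 1 ∧ D - 1 ≤ hgt y ∧ hgt y ≤ D ∧ Ov T y ≤ Ω) →
      (∀ y ∈ P, (∀ v, kf T y v = kf T y0 v) ∧ (∀ v, jf T y v = jf T y0 v) ∧
        (∀ w : InfinitePlace K, ⌊Real.log (w y)⌋ = ⌊Real.log (w y0)⌋) ∧
        (∀ w : InfinitePlace K, ⌊Real.log (w (y - 1))⌋ = ⌊Real.log (w (y0 - 1))⌋)) →
      (∀ v, v ∉ F → jf T y0 v = 0) →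
        (P.card : ℝ) ≤ C * (∏ v ∈ F, (if jf T y0 v = 0 then 1 else (T.e : ℝ))) *
          Real.exp Ω := by
  classical
  obtain ⟨M, f, hf⟩ := selmer K T.e T.he
  obtain ⟨C0, hC0, harch⟩ := arch_class K T.e T.he
  choose c hc using fun v : HeightOneSpectrum (𝓞 K) => local_class T.e T.he v
  set d : ℕ := Module.finrank ℚ K with hd
  have hd0 : (0 : ℝ) < d := by exact_mod_cast (Module.finrank_pos : 0 < Module.finrank ℚ K)
  set C1 : ℝ := 1 + d + (T.e : ℝ) * (d * Real.log T.e) with hC1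
  have he1 : (1 : ℝ) ≤ T.e := by exact_mod_cast T.he
  have hC1nn : 0 ≤ C1 := by
    have := Real.log_nonneg he1
    positivity
  set r : ℕ := Fintype.card (InfinitePlace K) with hr
  refine ⟨(M + 1) * C0 ^ r * Real.exp (C1 + 1), by positivity, ?_⟩
  intro D Ω P F y0 hΩ hy0 hP hsh hF
  set ρ : ℝ := Real.exp (-(Ω + C1 + 1) / d) with hρdef
  have hρ : 0 < ρ := Real.exp_pos _
  have hρ1 : ρ ≤ 1 := by
    rw [hρdef, Real.exp_le_one_iff]
    apply div_nonpos_of_nonpos_of_nonneg _ hd0.le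
    linarith
  have hρlog : (d : ℝ) * Real.log ρ = -(Ω + C1 + 1) := by
    rw [hρdef, Real.log_exp]
    field_simp
  choose N cw hN hcw using fun w : InfinitePlace K =>
    harch w ρ ⌊Real.log (w y0)⌋ ⌊Real.log (w (y0 - 1))⌋ hρ hρ1
  -- base points
  have hbase : ∀ s : Fin M, ∃ b : K, b ∈ P ∧ ∀ y ∈ P, f y = s → f b = s := by
    intro s
    by_cases h : ∃ y ∈ P, f y = s
    · obtain ⟨b, hb, hbs⟩ := h
      exact ⟨b, hb, fun _ _ _ => hbs⟩
    · exact ⟨y0, hy0, fun y hy hys => absurd ⟨y, hy, hys⟩ h⟩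
  choose base hbP hbs using hbase
  have htex : ∀ y : K, ∃ t : K, t ≠ 0 ∧ (y ∈ P → y = base (f y) * t ^ T.e) := by
    intro y
    by_cases hy : y ∈ P
    · obtain ⟨t, ht, hyt⟩ := hf y (base (f y)) (hP y hy).1 (hP _ (hbP _)).1
        (fun v => kf_dvd T (by rw [(hsh y hy).1 v, (hsh _ (hbP _)).1 v]))
        (hbs (f y) y hy rfl).symm
      exact ⟨t, ht, fun _ => hyt⟩
    · exact ⟨1, one_ne_zero, fun h => absurd h hy⟩
  choose t ht0 ht using htex
  set F' : Finset (HeightOneSpectrum (𝓞 K)) := F.filter (fun v => jf T y0 v ≠ 0) with hF'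
  let Φ : K → Fin M × (F' → Fin T.e) × (∀ w : InfinitePlace K, Fin (N w)) := fun y =>
    (f y, fun v => c v.1 (t y), fun w => cw w y (t y))
  have hinj : Set.InjOn Φ (P : Set K) := by
    intro y1 hy1 y2 hy2 hΦ
    have hy1 : y1 ∈ P := hy1
    have hy2 : y2 ∈ P := hy2
    simp only [Φ, Prod.mk.injEq] at hΦ
    obtain ⟨hΦ1, hΦ2, hΦ3⟩ := hΦ
    by_contra hne
    obtain ⟨h10, h11, h1D, h1D', -⟩ := hP y1 hy1
    obtain ⟨h20, h21, h2D, h2D', h2Ω⟩ := hP y2 hy2
    obtain ⟨hb0, hb1, -⟩ := hP _ (hbP (f y2))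
    obtain ⟨s1k, s1j, s1w, s1w'⟩ := hsh y1 hy1
    obtain ⟨s2k, s2j, s2w, s2w'⟩ := hsh y2 hy2
    obtain ⟨sbk, sbj, -⟩ := hsh _ (hbP (f y2))
    have e1 : y1 = base (f y2) * t y1 ^ T.e := by rw [← hΦ1]; exact ht y1 hy1
    have e2 : y2 = base (f y2) * t y2 ^ T.e := ht y2 hy2
    have hgap := gap T hρ hb0 h10 h20 h11 h21 (ht0 y1) (ht0 y2) e1 e2 hne
      (fun v => by rw [s1k, s2k]) (fun v => by rw [s1j, s2j])
      (by
        intro v hv
        have hvF' : v ∈ F' := by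
          rw [hF', Finset.mem_filter]
          have h3 : jf T y0 v ≠ 0 := by rw [← s2j v]; omega
          refine ⟨?_, h3⟩
          by_contra hvF
          exact h3 (hF v hvF)
        have hcc : c v (t y1) = c v (t y2) := congrFun hΦ2 ⟨v, hvF'⟩
        exact loc T hb1 h11 h21 (ht0 y2) e1 e2 (hc v) hcc hv (by rw [s1j, s2j]) (by rw [sbj, s2j]))
      (by
        intro w
        refine hcw w y1 y2 (t y1) (t y2) h10 h20 h11 h21 (ht0 y1) (ht0 y2) (s1w w) (s2w w)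
          (s1w' w) (s2w' w) ?_ (congrFun hΦ3 w)
        conv_lhs => rw [e1]
        conv_rhs => rw [e2]
        ring)
      (by linarith)
      (fun w => abs_sub_le_one (s1w w) (s2w w))
    rw [← hd, hρlog] at hgap
    rw [hC1] at hgap
    linarith
  have hcard : P.card ≤ Fintype.card (Fin M × (F' → Fin T.e) × (∀ w : InfinitePlace K, Fin (N w))) := by
    rw [← Finset.card_univ]
    exact Finset.card_le_card_of_injOn Φ (fun _ _ => Finset.mem_univ _) hinj
  have hcard' : (P.card : ℝ) ≤ (M : ℝ) * ((T.e : ℝ) ^ F'.card * ∏ w : InfinitePlace K, (N w : ℝ)) := by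
    have h := hcard
    simp only [Fintype.card_prod, Fintype.card_fin, Fintype.card_pi, Finset.prod_const,
      Finset.card_univ, Fintype.card_coe] at h
    exact_mod_cast h
  have hprod : ∏ v ∈ F, (if jf T y0 v = 0 then 1 else (T.e : ℝ)) = (T.e : ℝ) ^ F'.card := by
    rw [Finset.prod_ite, Finset.prod_const_one, one_mul, Finset.prod_const]
  have hNprod : ∏ w : InfinitePlace K, (N w : ℝ) ≤ C0 ^ r * (ρ⁻¹) ^ d := by
    calc ∏ w : InfinitePlace K, (N w : ℝ) ≤ ∏ w : InfinitePlace K, (C0 * (ρ⁻¹) ^ w.mult) :=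
          Finset.prod_le_prod (fun _ _ => Nat.cast_nonneg _) (fun w _ => hN w)
      _ = C0 ^ r * (ρ⁻¹) ^ d := by
          rw [Finset.prod_mul_distrib, Finset.prod_const, Finset.card_univ,
            Finset.prod_pow_eq_pow_sum, InfinitePlace.sum_mult_eq]
  have hρd : (ρ⁻¹) ^ d = Real.exp (C1 + 1) * Real.exp Ω := by
    rw [hρdef, ← Real.exp_neg, ← Real.exp_nat_mul, ← Real.exp_add]
    congr 1
    field_simp
    ring
  rw [hprod]
  calc (P.card : ℝ) ≤ (M : ℝ) * ((T.e : ℝ) ^ F'.card * ∏ w : InfinitePlace K, (N w : ℝ)) := hcard'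
    _ ≤ (M + 1) * ((T.e : ℝ) ^ F'.card * (C0 ^ r * (ρ⁻¹) ^ d)) := by
        gcongr
        linarith
    _ = (M + 1) * C0 ^ r * Real.exp (C1 + 1) * (T.e : ℝ) ^ F'.card * Real.exp Ω := by
        rw [hρd]; ring

end Pool.Agent.AbcE
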