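import Mathlib
import Pool.Agent.AbcE.Defs

/-!
The sum over the kept data.
-/

namespace Pool.Agent.AbcE

open NumberField IsDedekindDomain Pool.Agent.H7.Abc

/-- The local factor. -/
noncomputable def kg (B L : ℝ) (p : ℤ × ℤ) : ℝ :=
  if p = 0 then 1 else
    B * Real.exp (-((if p.1 = 0 then 0 else L) + (if p.2 = 0 then 0 else L)))

theorem kg_nonneg {B L : ℝ} (hB : 1 ≤ B) (p : ℤ × ℤ) : 0 ≤ kg B L p := by
  unfold kg
  by_cases h : p = 0
  · rw [if_pos h]; norm_num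
  · rw [if_neg h]; positivity

/-- The bound of the local factor with the Rankin weight. -/
theorem kg_mul_le {B δ N : ℝ} (hB : 1 ≤ B) (hδ : 0 < δ) (hN : 2 ≤ N) (p : ℤ × ℤ) :
    kg B (Real.log N) p * Real.exp (-(δ * ((|(p.1 : ℝ)| + |(p.2 : ℝ)|) * Real.log N))) ≤
      (if p = 0 then 1 else 0) + B * N ^ (-(1 + δ / 2)) *
        (((2 : ℝ) ^ (-(δ / 2))) ^ p.1.natAbs * ((2 : ℝ) ^ (-(δ / 2))) ^ p.2.natAbs) := by
  have hN0 : 0 < N := by linarith
  have hL : 0 < Real.log N := Real.log_pos (by linarith)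
  have hL2 : Real.log 2 ≤ Real.log N := Real.log_le_log (by norm_num) hN
  have hL20 : 0 < Real.log 2 := Real.log_pos (by norm_num)
  unfold kg
  by_cases h : p = 0
  · rw [if_pos h, if_pos h]
    subst h
    have : 0 ≤ B * N ^ (-(1 + δ / 2)) *
        (((2 : ℝ) ^ (-(δ / 2))) ^ (0 : ℤ × ℤ).1.natAbs *
          ((2 : ℝ) ^ (-(δ / 2))) ^ (0 : ℤ × ℤ).2.natAbs) := by positivity
    simp only [Prod.fst_zero, Prod.snd_zero, Int.cast_zero, abs_zero, add_zero, zero_mul,
      mul_zero, neg_zero, Real.exp_zero, mul_one, Int.natAbs_zero, pow_zero] at this ⊢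
    linarith
  · rw [if_neg h, if_neg h, zero_add]
    have h1 : ((2 : ℝ) ^ (-(δ / 2))) ^ p.1.natAbs * ((2 : ℝ) ^ (-(δ / 2))) ^ p.2.natAbs =
        Real.exp (-(δ / 2 * ((|(p.1 : ℝ)| + |(p.2 : ℝ)|) * Real.log 2))) := by
      rw [← pow_add, Real.rpow_def_of_pos (by norm_num), ← Real.exp_nat_mul]
      congr 1
      push_cast
      rw [Nat.cast_natAbs, Nat.cast_natAbs]
      push_cast
      ring
    rw [h1, Real.rpow_def_of_pos hN0, mul_assoc, mul_assoc, ← Real.exp_add, ← Real.exp_add]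
    refine mul_le_mul_of_nonneg_left (Real.exp_le_exp.2 ?_) (by linarith)
    -- the total exponent
    have hs : 1 ≤ |(p.1 : ℝ)| + |(p.2 : ℝ)| := by
      have h0 : p.1 ≠ 0 ∨ p.2 ≠ 0 := by
        by_contra hc
        push Not at hc
        exact h (Prod.ext hc.1 hc.2)
      rcases h0 with h0 | h0
      · have : (1 : ℝ) ≤ |(p.1 : ℝ)| := by
          have := Int.one_le_abs h0
          exact_mod_cast this
        have := abs_nonneg (p.2 : ℝ)
        linarith
      · have : (1 : ℝ) ≤ |(p.2 : ℝ)| := by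
          have := Int.one_le_abs h0
          exact_mod_cast this
        have := abs_nonneg (p.1 : ℝ)
        linarith
    have hk : Real.log N ≤ (if p.1 = 0 then 0 else Real.log N) +
        (if p.2 = 0 then 0 else Real.log N) := by
      have h0 : p.1 ≠ 0 ∨ p.2 ≠ 0 := by
        by_contra hc
        push Not at hc
        exact h (Prod.ext hc.1 hc.2)
      rcases h0 with h0 | h0
      · rw [if_neg h0]; split_ifs <;> linarith
      · rw [if_neg h0]; split_ifs <;> linarith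
    set s := |(p.1 : ℝ)| + |(p.2 : ℝ)| with hsdef
    have e1 : δ / 2 * Real.log N ≤ δ / 2 * (s * Real.log N) := by
      refine mul_le_mul_of_nonneg_left ?_ (by linarith)
      nlinarith
    have e2 : δ / 2 * (s * Real.log 2) ≤ δ / 2 * (s * Real.log N) := by
      refine mul_le_mul_of_nonneg_left ?_ (by linarith)
      exact mul_le_mul_of_nonneg_left hL2 (by linarith)
    nlinarith

/-- The sum of the weights at one place. -/
theorem sum_kg_le {B δ N : ℝ} (hB : 1 ≤ B) (hδ : 0 < δ) (hN : 2 ≤ N) (M : Finset (ℤ × ℤ)) :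
    ∑ p ∈ M, kg B (Real.log N) p *
        Real.exp (-(δ * ((|(p.1 : ℝ)| + |(p.2 : ℝ)|) * Real.log N))) ≤
      1 + B * (∑' k : ℤ, ((2 : ℝ) ^ (-(δ / 2))) ^ k.natAbs) ^ 2 * N ^ (-(1 + δ / 2)) := by
  classical
  have hq0 : 0 ≤ (2 : ℝ) ^ (-(δ / 2)) := by positivity
  have hq1 : (2 : ℝ) ^ (-(δ / 2)) < 1 :=
    Real.rpow_lt_one_of_one_lt_of_neg (by norm_num) (by linarith)
  have hsum := summable_pow_natAbs hq0 hq1
  refine le_trans (Finset.sum_le_sum fun p _ => kg_mul_le hB hδ hN p) ?_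
  rw [Finset.sum_add_distrib, ← Finset.mul_sum]
  have h1 : ∑ p ∈ M, (((2 : ℝ) ^ (-(δ / 2))) ^ p.1.natAbs * ((2 : ℝ) ^ (-(δ / 2))) ^ p.2.natAbs) ≤
      (∑' k : ℤ, ((2 : ℝ) ^ (-(δ / 2))) ^ k.natAbs) ^ 2 := by
    have hsub : M ⊆ (M.image Prod.fst) ×ˢ (M.image Prod.snd) := by
      intro p hp
      exact Finset.mem_product.2 ⟨Finset.mem_image_of_mem _ hp, Finset.mem_image_of_mem _ hp⟩
    refine (Finset.sum_le_sum_of_subset_of_nonneg hsub (fun p _ _ => by positivity)).trans ?_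
    rw [Finset.sum_product, ← Finset.sum_mul_sum (M.image Prod.fst) (M.image Prod.snd)
      (fun a => ((2 : ℝ) ^ (-(δ / 2))) ^ a.natAbs) (fun b => ((2 : ℝ) ^ (-(δ / 2))) ^ b.natAbs),
      pow_two]
    refine mul_le_mul (hsum.sum_le_tsum _ (fun k _ => by positivity))
      (hsum.sum_le_tsum _ (fun k _ => by positivity)) (Finset.sum_nonneg fun k _ => by positivity)
      (tsum_nonneg fun k => by positivity)
  have h2 : ∑ p ∈ M, (if p = 0 then (1 : ℝ) else 0) ≤ 1 := by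
    rw [Finset.sum_ite_eq']
    split_ifs <;> norm_num
  have h3 : 0 ≤ B * N ^ (-(1 + δ / 2)) := by positivity
  have h4 := mul_le_mul_of_nonneg_left h1 h3
  nlinarith

/-- The sum over the kept data. -/
theorem kept_sum (K : Type*) [Field K] [NumberField K] {B δ : ℝ} (hB : 1 ≤ B) (hδ : 0 < δ) :
    ∃ C : ℝ, 0 < C ∧ ∀ (X : ℝ) (F : Finset (HeightOneSpectrum (𝓞 K)))
      (S : Finset (HeightOneSpectrum (𝓞 K) → ℤ × ℤ)),
      (∀ f ∈ S, ∀ v, v ∉ F → f v = 0) →
      (∀ f ∈ S, ∑ v ∈ F, (|((f v).1 : ℝ)| + |((f v).2 : ℝ)|) * ln v ≤ X) →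
        ∑ f ∈ S, ∏ v ∈ F, (if f v = 0 then 1 else
          B * Real.exp (-((if (f v).1 = 0 then 0 else ln v) +
            (if (f v).2 = 0 then 0 else ln v)))) ≤ C * Real.exp (δ * X) := by
  classical
  obtain ⟨Z, hZ⟩ := exists_bound K (σ := 1 + δ / 2) (by linarith)
  set A : ℝ := ∑' k : ℤ, ((2 : ℝ) ^ (-(δ / 2))) ^ k.natAbs with hA
  refine ⟨Real.exp (B * A ^ 2 * Z), Real.exp_pos _, fun X F S hout hX => ?_⟩
  have hg : ∀ f ∈ S, ∏ v ∈ F, (if f v = 0 then 1 else
          B * Real.exp (-((if (f v).1 = 0 then 0 else ln v) +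
            (if (f v).2 = 0 then 0 else ln v)))) = ∏ v ∈ F, kg B (ln v) (f v) := by
    intro f _
    rfl
  rw [Finset.sum_congr rfl hg]
  -- values of the exponents
  obtain ⟨M, hM⟩ : ∃ M : Finset (ℤ × ℤ), ∀ f ∈ S, ∀ v, f v ∈ M := by
    refine ⟨S.biUnion (fun e => insert 0 (F.image e)), fun e he v => ?_⟩
    rw [Finset.mem_biUnion]
    refine ⟨e, he, ?_⟩
    by_cases hv : v ∈ F
    · exact Finset.mem_insert_of_mem (Finset.mem_image_of_mem _ hv)
    · rw [hout e he v hv]; exact Finset.mem_insert_self _ _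
  -- the weights
  set wgt : HeightOneSpectrum (𝓞 K) → ℤ × ℤ → ℝ := fun v p =>
    kg B (ln v) p * Real.exp (-(δ * ((|(p.1 : ℝ)| + |(p.2 : ℝ)|) * ln v))) with hwgt
  have hw0 : ∀ v p, 0 ≤ wgt v p := fun v p => mul_nonneg (kg_nonneg hB p) (Real.exp_pos _).le
  have hterm : ∀ f ∈ S, ∏ v ∈ F, kg B (ln v) (f v) ≤
      Real.exp (δ * X) * ∏ v ∈ F, wgt v (f v) := by
    intro f hf
    simp only [hwgt]
    rw [Finset.prod_mul_distrib, ← Real.exp_sum, mul_left_comm, ← Real.exp_add]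
    have h0 : 0 ≤ ∏ v ∈ F, kg B (ln v) (f v) := Finset.prod_nonneg fun v _ => kg_nonneg hB _
    have h1 : 1 ≤ Real.exp (δ * X + ∑ v ∈ F,
        -(δ * ((|((f v).1 : ℝ)| + |((f v).2 : ℝ)|) * ln v))) := by
      apply Real.one_le_exp
      rw [Finset.sum_neg_distrib, ← Finset.mul_sum]
      have := mul_le_mul_of_nonneg_left (hX f hf) hδ.le
      linarith
    exact le_mul_of_one_le_right h0 h1
  refine (Finset.sum_le_sum hterm).trans ?_
  rw [← Finset.mul_sum, mul_comm]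
  refine mul_le_mul_of_nonneg_right ?_ (Real.exp_pos _).le
  -- the product formula
  have hprod : ∑ e ∈ S, ∏ v ∈ F, wgt v (e v) ≤ ∏ v ∈ F, ∑ k ∈ M, wgt v k := by
    rw [← Finset.prod_coe_sort F (fun v => ∑ k ∈ M, wgt v k), ← Finset.sum_prod_piFinset]
    have h1 : ∀ e ∈ S, ∏ v ∈ F, wgt v (e v) =
        ∏ v : F, wgt v.1 ((fun v : F => e v.1) v) :=
      fun e _ => (Finset.prod_coe_sort F (fun v => wgt v (e v))).symm
    rw [Finset.sum_congr rfl h1]
    have hinj : ∀ e ∈ S, ∀ e' ∈ S,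
        (fun v : F => e v.1) = (fun v : F => e' v.1) → e = e' := by
      intro e he e' he' h
      funext v
      by_cases hv : v ∈ F
      · exact congrFun h ⟨v, hv⟩
      · rw [hout e he v hv, hout e' he' v hv]
    rw [← Finset.sum_image (s := S) (g := fun (e : HeightOneSpectrum (𝓞 K) → ℤ × ℤ) =>
        (fun v : F => e v.1))
        (f := fun g => ∏ v : F, wgt v.1 (g v)) hinj]
    refine Finset.sum_le_sum_of_subset_of_nonneg ?_ (fun g _ _ =>
      Finset.prod_nonneg fun v _ => hw0 _ _)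
    intro g hg
    obtain ⟨e, he, rfl⟩ := Finset.mem_image.1 hg
    exact Fintype.mem_piFinset.2 fun v => hM e he v.1
  refine hprod.trans ?_
  have h1 : ∀ v ∈ F, ∑ k ∈ M, wgt v k ≤
      Real.exp (B * A ^ 2 * (Ideal.absNorm v.asIdeal : ℝ) ^ (-(1 + δ / 2))) := by
    intro v _
    refine le_trans (sum_kg_le hB hδ (two_le_norm v) M) ?_
    rw [← hA, add_comm]
    exact Real.add_one_le_exp _
  refine le_trans (Finset.prod_le_prod (fun v _ => Finset.sum_nonneg fun k _ => hw0 _ _) h1) ?_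
  rw [← Real.exp_sum, ← Finset.mul_sum]
  exact Real.exp_le_exp.2 (mul_le_mul_of_nonneg_left (hZ F) (by positivity))

end Pool.Agent.AbcE
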