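import Mathlib
import Pool.Agent.AbcE.Cell
import Pool.Agent.AbcE.Kept

/-!
The count for one tool: the elements are split according to the kept exponents and the integer
parts of the archimedean logarithms, then the bound for one cell is summed.
-/

namespace Pool.Agent.AbcE

open NumberField IsDedekindDomain Pool.Agent.H7.Abc

variable {K : Type*} [Field K] [NumberField K]

theorem tc_ln_pos (v : HeightOneSpectrum (𝓞 K)) : 0 < ln v := log_norm_pos v

theorem tc_ord_inv (v : HeightOneSpectrum (𝓞 K)) {x : K} (hx : x ≠ 0) :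
    ord v x⁻¹ = - ord v x := by
  have h := ord_div v (one_ne_zero (α := K)) hx
  have h1 : ord v (1 : K) = 0 := by rw [ord, map_one, WithZero.log_one, neg_zero]
  rw [one_div, h1, zero_sub] at h
  exact h

theorem tc_abs_kf_le (T : Tool) (y : K) (v : HeightOneSpectrum (𝓞 K)) :
    |(kf T y v : ℝ)| ≤ |(ord v y : ℝ)| := by
  unfold kf
  split_ifs <;> simp

theorem tc_abs_jf_le (T : Tool) (y : K) (v : HeightOneSpectrum (𝓞 K)) :
    |(jf T y v : ℝ)| ≤ |(ord v (y - 1) : ℝ)| := by
  unfold jf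
  split_ifs <;> simp

theorem tc_rd_eq (x : K) (A : Set ℕ) (F : Finset (HeightOneSpectrum (𝓞 K)))
    (hF : ∀ v, v ∉ F → ord v x = 0) [∀ v, Decidable (0 < ord v x ∧ (ord v x).toNat ∈ A)] :
    rd x A = ∑ v ∈ F, if 0 < ord v x ∧ (ord v x).toNat ∈ A then ln v else 0 := by
  unfold rd
  rw [finsum_eq_sum_of_support_subset (s := F)]
  · exact Finset.sum_congr rfl fun v _ => by congr
  · intro v hv
    by_contra h
    apply hv
    have := hF v h
    simp [this]

/-- The kept radical in terms of the kept exponents. -/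
theorem tc_RK_eq (T : Tool) {y : K} (hy : y ≠ 0) (F : Finset (HeightOneSpectrum (𝓞 K)))
    (h0 : ∀ v, v ∉ F → ord v y = 0) (h1 : ∀ v, v ∉ F → ord v (y - 1) = 0) :
    RK T y = ∑ v ∈ F, ((if kf T y v = 0 then 0 else ln v) +
      (if jf T y v = 0 then 0 else ln v)) := by
  classical
  have h2 : ∀ v, v ∉ F → ord v y⁻¹ = 0 := fun v hv => by
    rw [tc_ord_inv v hy, h0 v hv, neg_zero]
  unfold RK
  rw [tc_rd_eq y _ F h0, tc_rd_eq y⁻¹ _ F h2, tc_rd_eq (y - 1) _ F h1, ← Finset.sum_add_distrib,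
    ← Finset.sum_add_distrib]
  refine Finset.sum_congr rfl fun v _ => ?_
  rw [tc_ord_inv v hy]
  congr 1
  · unfold kf
    simp only [Set.mem_compl_iff]
    rcases lt_trichotomy (ord v y) 0 with h | h | h
    · have e1 : ¬ (0 < ord v y) := by omega
      have e2 : 0 < - ord v y := by omega
      have e3 : ord v y ≠ 0 := by omega
      by_cases hm : (-ord v y).toNat ∈ T.F1
      · simp [e1, h, hm]
      · simp [e1, h, hm, e3]
    · simp [h]
    · have e1 : ¬ (ord v y < 0) := by omega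
      have e2 : ¬ (0 < - ord v y) := by omega
      have e3 : ord v y ≠ 0 := by omega
      by_cases hm : (ord v y).toNat ∈ T.F0
      · simp [e1, h, hm]
      · simp [e1, h, hm, e3]
  · unfold jf
    simp only [Set.mem_compl_iff]
    by_cases h : 0 < ord v (y - 1) ∧ (ord v (y - 1)).toNat ∉ T.G
    · have e3 : ord v (y - 1) ≠ 0 := by omega
      rw [if_pos h, if_pos h, if_neg e3]
    · rw [if_neg h, if_neg h, if_pos rfl]

theorem tc_poly_le_exp (m : ℕ) (a : ℝ) (ha : 0 ≤ a) {ε : ℝ} (hε : 0 < ε) :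
    ∃ C : ℝ, 0 < C ∧ ∀ D : ℝ, 0 ≤ D → (2 * D + a) ^ m ≤ C * Real.exp (ε * D) := by
  refine ⟨(m.factorial : ℝ) * (2 / ε) ^ m * Real.exp (ε * a / 2), by positivity, fun D hD => ?_⟩
  have hx : 0 ≤ ε / 2 * (2 * D + a) := by positivity
  have h1 := Real.pow_div_factorial_le_exp (ε / 2 * (2 * D + a)) hx m
  have hm : (0 : ℝ) < m.factorial := by positivity
  rw [div_le_iff₀ hm, mul_pow] at h1
  have h2 : Real.exp (ε / 2 * (2 * D + a)) = Real.exp (ε * a / 2) * Real.exp (ε * D) := by
    rw [← Real.exp_add]; congr 1; ring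
  rw [h2] at h1
  have h3 : (2 / ε) ^ m * (ε / 2) ^ m = 1 := by
    rw [← mul_pow]
    have : 2 / ε * (ε / 2) = 1 := by field_simp
    rw [this, one_pow]
  calc (2 * D + a) ^ m = (2 / ε) ^ m * ((ε / 2) ^ m * (2 * D + a) ^ m) := by
        rw [← mul_assoc, h3, one_mul]
    _ ≤ (2 / ε) ^ m * (Real.exp (ε * a / 2) * Real.exp (ε * D) * m.factorial) :=
        mul_le_mul_of_nonneg_left h1 (by positivity)
    _ = _ := by ring

/-- The number of possible integer parts of the logarithms. -/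
theorem tc_card_box (r : Type*) [Fintype r] [DecidableEq r] (X : ℝ) (hX : 0 ≤ X) :
    ((Fintype.piFinset (fun _ : r => Finset.Icc (-⌈X⌉ - 1) ⌈X⌉)).card : ℝ) ≤
      (2 * X + 4) ^ (Fintype.card r) := by
  rw [Fintype.card_piFinset, Finset.prod_const, Finset.card_univ, Nat.cast_pow]
  refine pow_le_pow_left₀ (Nat.cast_nonneg _) ?_ _
  rw [Int.card_Icc]
  have hc : (0 : ℤ) ≤ ⌈X⌉ := Int.ceil_nonneg hX
  have e1 : (((⌈X⌉ + 1 - (-⌈X⌉ - 1)).toNat : ℕ) : ℝ) = 2 * (⌈X⌉ : ℝ) + 2 := by
    have : ((⌈X⌉ + 1 - (-⌈X⌉ - 1)).toNat : ℤ) = 2 * ⌈X⌉ + 2 := by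
      rw [Int.toNat_of_nonneg (by omega)]; ring
    exact_mod_cast this
  rw [e1]
  have := Int.ceil_lt_add_one X
  linarith

theorem tc_floor_mem (X t : ℝ) (h : |t| ≤ X) : ⌊t⌋ ∈ Finset.Icc (-⌈X⌉ - 1) ⌈X⌉ := by
  have h3 := abs_le.1 h
  rw [Finset.mem_Icc]
  constructor
  · apply Int.le_floor.2
    push_cast
    have := Int.le_ceil X
    linarith [h3.1]
  · have h4 : ((⌊t⌋ : ℤ) : ℝ) ≤ ((⌈X⌉ : ℤ) : ℝ) :=
      le_trans (Int.floor_le _) (le_trans h3.2 (Int.le_ceil X))
    exact_mod_cast h4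

/-- The count for one tool. -/
theorem tool_count (K : Type*) [Field K] [NumberField K] (T : Tool) {ε : ℝ} (hε : 0 < ε) :
    ∃ C : ℝ, 0 < C ∧ ∀ D θ : ℝ, 0 ≤ D →
      (({y : K | y ≠ 0 ∧ y ≠ 1 ∧ D - 1 ≤ hgt y ∧ hgt y ≤ D ∧
        RK T y + max 0 (Ov T y) ≤ θ}.ncard : ℕ) : ℝ) ≤ C * Real.exp (θ + ε * D) := by
  classical
  obtain ⟨CE, hCE, hE⟩ := cell_card K T
  have hB : (1 : ℝ) ≤ (T.e : ℝ) := by exact_mod_cast T.he
  obtain ⟨CF, hCF, hFs⟩ := kept_sum K hB (show 0 < ε / 8 by positivity)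
  set d : ℝ := (Module.finrank ℚ K : ℝ) * Real.log 2 with hd
  have hd0 : 0 ≤ d := mul_nonneg (Nat.cast_nonneg _) (Real.log_nonneg (by norm_num))
  set r : ℕ := Fintype.card (InfinitePlace K) with hr
  obtain ⟨CP, hCP, hP⟩ := tc_poly_le_exp (r + r) (2 * d + 4) (by positivity)
    (show 0 < ε / 2 by positivity)
  refine ⟨CE * (CF * Real.exp (ε / 4 * d)) * CP, by positivity, fun D θ hD => ?_⟩
  set S : Set K := {y : K | y ≠ 0 ∧ y ≠ 1 ∧ D - 1 ≤ hgt y ∧ hgt y ≤ D ∧
        RK T y + max 0 (Ov T y) ≤ θ} with hS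
  have hfin : S.Finite := by
    refine (NumberField.finite_setOfPred_logHeight₁_le K D).subset ?_
    rintro x ⟨-, -, -, h, -⟩
    rw [hgt_eq] at h
    exact h
  set P : Finset K := hfin.toFinset with hPdef
  have hmem : ∀ y, y ∈ P ↔ y ∈ S := fun y => by rw [hPdef, Set.Finite.mem_toFinset]
  have hcard : S.ncard = P.card := Set.ncard_eq_toFinset_card _ hfin
  rw [hcard]
  -- the places which matter
  obtain ⟨F, hF0, hF1⟩ : ∃ F : Finset (HeightOneSpectrum (𝓞 K)),
      (∀ y ∈ P, ∀ v, v ∉ F → ord v y = 0) ∧ (∀ y ∈ P, ∀ v, v ∉ F → ord v (y - 1) = 0) := by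
    have h1 : ∀ y : K, ∃ F : Finset (HeightOneSpectrum (𝓞 K)), y ∈ P →
        (∀ v, v ∉ F → ord v y = 0) ∧ (∀ v, v ∉ F → ord v (y - 1) = 0) := by
      intro y
      by_cases hy : y ∈ P
      · have hyS := (hmem y).1 hy
        have hy0 : y ≠ 0 := hyS.1
        have hy1 : y - 1 ≠ 0 := sub_ne_zero.2 hyS.2.1
        refine ⟨(finite_support hy0).toFinset ∪ (finite_support hy1).toFinset, fun _ => ⟨?_, ?_⟩⟩
        · intro v hv
          rw [Finset.mem_union, not_or, Set.Finite.mem_toFinset] at hv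
          rw [ord_eq_zero_iff v hy0]
          by_contra h
          exact hv.1 h
        · intro v hv
          rw [Finset.mem_union, not_or, Set.Finite.mem_toFinset, Set.Finite.mem_toFinset] at hv
          rw [ord_eq_zero_iff v hy1]
          by_contra h
          exact hv.2 h
      · exact ⟨∅, fun h => absurd h hy⟩
    choose G hG using h1
    refine ⟨P.biUnion G, fun y hy v hv => (hG y hy).1 v (fun h => hv ?_),
      fun y hy v hv => (hG y hy).2 v (fun h => hv ?_)⟩
    · exact Finset.mem_biUnion.2 ⟨y, hy, h⟩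
    · exact Finset.mem_biUnion.2 ⟨y, hy, h⟩
  have hkf0 : ∀ y ∈ P, ∀ v, v ∉ F → kf T y v = 0 := by
    intro y hy v hv
    have h := tc_abs_kf_le T y v
    rw [hF0 y hy v hv, Int.cast_zero, abs_zero] at h
    exact_mod_cast abs_eq_zero.1 (le_antisymm h (abs_nonneg _))
  have hjf0 : ∀ y ∈ P, ∀ v, v ∉ F → jf T y v = 0 := by
    intro y hy v hv
    have h := tc_abs_jf_le T y v
    rw [hF1 y hy v hv, Int.cast_zero, abs_zero] at h
    exact_mod_cast abs_eq_zero.1 (le_antisymm h (abs_nonneg _))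
  -- the two parts of the map
  set κ : K → (HeightOneSpectrum (𝓞 K) → ℤ × ℤ) := fun y v => (kf T y v, jf T y v) with hκ
  set σ : K → (InfinitePlace K → ℤ) × (InfinitePlace K → ℤ) :=
    fun y => (fun w => ⌊Real.log (w y)⌋, fun w => ⌊Real.log (w (y - 1))⌋) with hσ
  set W : (HeightOneSpectrum (𝓞 K) → ℤ × ℤ) → ℝ := fun f => ∏ v ∈ F, (if f v = 0 then 1 else
          (T.e : ℝ) * Real.exp (-((if (f v).1 = 0 then 0 else ln v) +
            (if (f v).2 = 0 then 0 else ln v)))) with hW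
  set X : ℝ := D + d with hX
  have hX0 : 0 ≤ X := by positivity
  set Q : Finset (InfinitePlace K → ℤ) :=
    Fintype.piFinset (fun _ : InfinitePlace K => Finset.Icc (-⌈X⌉ - 1) ⌈X⌉) with hQ
  -- the bound for one cell
  have hcell : ∀ f ∈ P.image κ, ∀ s ∈ Q ×ˢ Q,
      (((P.filter (fun y => κ y = f)).filter (fun y => σ y = s)).card : ℝ) ≤
        CE * W f * Real.exp θ := by
    intro f hf s hs
    set P' := (P.filter (fun y => κ y = f)).filter (fun y => σ y = s) with hP'
    have hW0 : 0 ≤ W f := Finset.prod_nonneg fun v _ => by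
      split_ifs
      · norm_num
      all_goals positivity
    rcases P'.eq_empty_or_nonempty with h0 | ⟨y0, hy0⟩
    · rw [h0, Finset.card_empty, Nat.cast_zero]
      positivity
    have hP'1 : ∀ y ∈ P', y ∈ P ∧ κ y = f ∧ σ y = s := by
      intro y hy
      rw [hP', Finset.mem_filter, Finset.mem_filter] at hy
      exact ⟨hy.1.1, hy.1.2, hy.2⟩
    have hy0' := hP'1 y0 hy0
    set R : ℝ := ∑ v ∈ F, ((if (f v).1 = 0 then 0 else ln v) +
      (if (f v).2 = 0 then 0 else ln v)) with hR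
    have hRK : ∀ y ∈ P', RK T y = R := by
      intro y hy
      obtain ⟨h1, h2, h3⟩ := hP'1 y hy
      rw [tc_RK_eq T ((hmem y).1 h1).1 F (hF0 y h1) (hF1 y h1), hR, ← h2]
    have hΩ : ∀ y ∈ P', max 0 (Ov T y) ≤ θ - R := by
      intro y hy
      have h1 := (hmem y).1 (hP'1 y hy).1
      have h2 := h1.2.2.2.2
      rw [hRK y hy] at h2
      linarith
    have hb := hE D (θ - R) P' F y0 ((le_max_left _ _).trans (hΩ y0 hy0)) hy0
      (fun y hy => by
        have h1 := (hmem y).1 (hP'1 y hy).1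
        exact ⟨h1.1, h1.2.1, h1.2.2.1, h1.2.2.2.1, (le_max_right _ _).trans (hΩ y hy)⟩)
      (fun y hy => by
        have h1 : κ y = κ y0 := (hP'1 y hy).2.1.trans hy0'.2.1.symm
        have h2 : σ y = σ y0 := (hP'1 y hy).2.2.trans hy0'.2.2.symm
        refine ⟨fun v => ?_, fun v => ?_, fun w => ?_, fun w => ?_⟩
        · exact congrArg Prod.fst (congrFun h1 v)
        · exact congrArg Prod.snd (congrFun h1 v)
        · exact congrFun (congrArg Prod.fst h2) w
        · exact congrFun (congrArg Prod.snd h2) w)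
      (hjf0 y0 hy0'.1)
    refine hb.trans ?_
    rw [sub_eq_add_neg, Real.exp_add, mul_assoc, mul_assoc]
    refine mul_le_mul_of_nonneg_left ?_ hCE.le
    rw [mul_comm (Real.exp θ), ← mul_assoc]
    refine mul_le_mul_of_nonneg_right ?_ (Real.exp_pos _).le
    rw [hR, ← Finset.sum_neg_distrib, Real.exp_sum, ← Finset.prod_mul_distrib]
    refine Finset.prod_le_prod (fun v _ => ?_) (fun v _ => ?_)
    · refine mul_nonneg ?_ (Real.exp_pos _).le
      split_ifs
      · norm_num
      · positivity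
    · have hfv : f v = (kf T y0 v, jf T y0 v) := by rw [← hy0'.2.1]
      by_cases hz : f v = 0
      · rw [if_pos hz]
        have h1 : jf T y0 v = 0 := by
          have := congrArg Prod.snd (hfv.symm.trans hz)
          exact this
        rw [if_pos h1, hz]
        simp
      · rw [if_neg hz]
        refine mul_le_mul_of_nonneg_right ?_ (Real.exp_pos _).le
        split_ifs
        · exact hB
        · exact le_rfl
  -- kept sum
  have hks := hFs (4 * D + 2 * d) F (P.image κ)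
    (fun f hf v hv => by
      obtain ⟨y, hy, rfl⟩ := Finset.mem_image.1 hf
      exact Prod.ext (hkf0 y hy v hv) (hjf0 y hy v hv))
    (fun f hf => by
      obtain ⟨y, hy, rfl⟩ := Finset.mem_image.1 hf
      have hyS := (hmem y).1 hy
      have h1 := sum_abs_ord_le hyS.1 F
      have h2 := sum_abs_ord_le (sub_ne_zero.2 hyS.2.1) F
      have h3 := hgt_sub_one y
      have h4 := hyS.2.2.2.1
      have h5 : ∑ v ∈ F, (|((κ y v).1 : ℝ)| + |((κ y v).2 : ℝ)|) * ln v ≤
          ∑ v ∈ F, |(ord v y : ℝ)| * Real.log (Ideal.absNorm v.asIdeal : ℝ) +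
          ∑ v ∈ F, |(ord v (y - 1) : ℝ)| * Real.log (Ideal.absNorm v.asIdeal : ℝ) := by
        rw [← Finset.sum_add_distrib]
        refine Finset.sum_le_sum fun v _ => ?_
        rw [← add_mul]
        exact mul_le_mul_of_nonneg_right
          (add_le_add (tc_abs_kf_le T y v) (tc_abs_jf_le T y v)) (tc_ln_pos v).le
      linarith)
  -- the image lies in the box
  have hσQ : ∀ y ∈ P, σ y ∈ Q ×ˢ Q := by
    intro y hy
    have hyS := (hmem y).1 hy
    have h4 := hyS.2.2.2.1
    rw [Finset.mem_product, hQ, Fintype.mem_piFinset, Fintype.mem_piFinset]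
    refine ⟨fun w => tc_floor_mem X _ ?_, fun w => tc_floor_mem X _ ?_⟩
    · exact (abs_log_le_hgt hyS.1 w).trans (by linarith)
    · exact (abs_log_le_hgt (sub_ne_zero.2 hyS.2.1) w).trans
        ((hgt_sub_one y).trans (by linarith))
  have hQc : ((Q ×ˢ Q).card : ℝ) ≤ CP * Real.exp (ε / 2 * D) := by
    rw [Finset.card_product, Nat.cast_mul]
    have h1 := tc_card_box (InfinitePlace K) X hX0
    rw [← hr] at h1
    calc (Q.card : ℝ) * Q.card ≤ (2 * X + 4) ^ r * (2 * X + 4) ^ r :=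
          mul_le_mul h1 h1 (Nat.cast_nonneg _) (by positivity)
      _ = (2 * D + (2 * d + 4)) ^ (r + r) := by rw [← pow_add, hX]; congr 1; ring
      _ ≤ _ := hP D hD
  -- summation
  have hsum : (P.card : ℝ) ≤ ∑ f ∈ P.image κ, ∑ s ∈ Q ×ˢ Q,
      (((P.filter (fun y => κ y = f)).filter (fun y => σ y = s)).card : ℝ) := by
    rw [Finset.card_eq_sum_card_image κ P, Nat.cast_sum]
    refine Finset.sum_le_sum fun f _ => ?_
    rw [Finset.card_eq_sum_card_fiberwise (f := σ) (t := Q ×ˢ Q)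
      (s := P.filter (fun y => κ y = f))
      (fun y hy => hσQ y (Finset.mem_filter.1 (Finset.mem_coe.1 hy)).1), Nat.cast_sum]
  have hfin2 : ∑ f ∈ P.image κ, ∑ s ∈ Q ×ˢ Q,
      (((P.filter (fun y => κ y = f)).filter (fun y => σ y = s)).card : ℝ) ≤
      (CE * Real.exp θ * (Q ×ˢ Q).card) * ∑ f ∈ P.image κ, W f := by
    rw [Finset.mul_sum]
    refine Finset.sum_le_sum fun f hf => ?_
    refine (Finset.sum_le_sum fun s hs => hcell f hf s hs).trans ?_
    rw [Finset.sum_const, nsmul_eq_mul]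
    exact le_of_eq (by ring)
  have hCEθ : 0 ≤ CE * Real.exp θ := by positivity
  calc (P.card : ℝ) ≤ _ := hsum
    _ ≤ _ := hfin2
    _ ≤ (CE * Real.exp θ * (CP * Real.exp (ε / 2 * D))) *
        (CF * Real.exp (ε / 8 * (4 * D + 2 * d))) :=
        mul_le_mul (mul_le_mul_of_nonneg_left hQc hCEθ) hks
          (Finset.sum_nonneg fun f _ => Finset.prod_nonneg fun v _ => by
            split_ifs
            · norm_num
            all_goals positivity) (by positivity)
    _ = CE * (CF * Real.exp (ε / 4 * d)) * CP * Real.exp (θ + ε * D) := by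
        have e1 : Real.exp (ε / 8 * (4 * D + 2 * d)) =
            Real.exp (ε / 4 * d) * Real.exp (ε / 2 * D) := by
          rw [← Real.exp_add]; congr 1; ring
        have e2 : Real.exp (θ + ε * D) =
            Real.exp θ * (Real.exp (ε / 2 * D) * Real.exp (ε / 2 * D)) := by
          rw [← Real.exp_add, ← Real.exp_add]; congr 1; ring
        rw [e1, e2]; ring

end Pool.Agent.AbcE
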