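import Mathlib
import Pool.Agent.AbcE.ToolCount
import Pool.Agent.AbcE.Data

/-! The assembly: from the linear programme to the count of the exceptions. -/

namespace Pool.Agent.AbcE

open NumberField IsDedekindDomain Pool.Agent.H7.Abc

/-- The linear programme with the parameter `l` has value at most `θ`. -/
def LPprop (l θ : ℝ) : Prop :=
  ∀ (a b : Fin 3 → Fin 5 → ℝ) (h : ℝ), (∀ g i, 0 ≤ a g i) →
    (∀ g, b g 0 = a g 0) → (∀ g, b g 1 = 2 * a g 1) → (∀ g, b g 2 = 3 * a g 2) →
    (∀ g, b g 3 = 4 * a g 3) → (∀ g, 5 * a g 4 ≤ b g 4) →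
    (∀ g, ∑ i, b g i ≤ h) → ∑ g, ∑ i, a g i ≤ l * h →
      ∃ r e S, Adm r e S ∧ cost a b h r e S ≤ θ * h

theorem cls_dvd {e n : ℕ} (he : e = 2 ∨ e = 3 ∨ e = 4) (h : cls e (cl n) = true) : e ∣ n := by
  unfold cls cl at h
  rcases he with rfl | rfl | rfl <;> split_ifs at h <;> simp_all

/-- The group which is the zero divisor of `y`. -/
def gz (r : Fin 3) : Fin 3 := if r = 2 then 0 else if r = 1 then 0 else 2

/-- The group which is the pole divisor of `y`. -/
def gp (r : Fin 3) : Fin 3 := if r = 2 then 1 else if r = 1 then 2 else 1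

theorem gz_ne (r : Fin 3) : gz r ≠ r := by revert r; decide

theorem gp_ne (r : Fin 3) : gp r ≠ r := by revert r; decide

open Classical in
/-- The tool belonging to an admissible choice. -/
noncomputable def mkT (r : Fin 3) (e : ℕ) (S : Fin 3 → Fin 5 → Bool) : Tool :=
  if h : Adm r e S then
    { e := e
      F0 := ex (S (gz r))
      F1 := ex (S (gp r))
      G := ex (S r)
      he := by rcases h with h | ⟨h, -⟩ <;> omega
      h0 := by
        intro n hn
        rcases h with rfl | ⟨h1, h2⟩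
        · exact one_dvd _
        · have h3 := gz_ne r
          have h4 := h2 _ h3
          change S (gz r) (cl n) = true at hn
          rw [h4] at hn
          exact cls_dvd h1 hn
      h1 := by
        intro n hn
        rcases h with rfl | ⟨h1, h2⟩
        · exact one_dvd _
        · have h3 := gp_ne r
          have h4 := h2 _ h3
          change S (gp r) (cl n) = true at hn
          rw [h4] at hn
          exact cls_dvd h1 hn }
  else
    { e := 1, F0 := ∅, F1 := ∅, G := ∅, he := le_rfl, h0 := by simp, h1 := by simp }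

variable {K : Type*} [Field K] [NumberField K]

/-- The three groups of `x`. -/
noncomputable def grp (x : K) (g : Fin 3) : K := if g = 0 then x else if g = 1 then x⁻¹ else x - 1

/-- The element of the role `r`. -/
noncomputable def role (r : Fin 3) (x : K) : K :=
  if r = 2 then x else if r = 1 then x / (x - 1) else 1 - x

theorem role_ne_zero {x : K} (hx : x ≠ 0) (hx1 : x ≠ 1) (r : Fin 3) : role r x ≠ 0 := by
  have : x - 1 ≠ 0 := sub_ne_zero.2 hx1
  have : 1 - x ≠ 0 := sub_ne_zero.2 (Ne.symm hx1)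
  unfold role
  split_ifs
  · exact hx
  · exact div_ne_zero hx (sub_ne_zero.2 hx1)
  · exact this

theorem role_ne_one {x : K} (hx : x ≠ 0) (hx1 : x ≠ 1) (r : Fin 3) : role r x ≠ 1 := by
  have h1 : x - 1 ≠ 0 := sub_ne_zero.2 hx1
  unfold role
  split_ifs
  · exact hx1
  · intro h
    rw [div_eq_one_iff_eq h1] at h
    have : (0 : K) = -1 := by linear_combination h
    simp at this
  · intro h
    apply hx
    linear_combination -h

theorem role_inj {x y : K} (hx1 : x ≠ 1) (hy1 : y ≠ 1) (r : Fin 3) (h : role r x = role r y) :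
    x = y := by
  have h1 : x - 1 ≠ 0 := sub_ne_zero.2 hx1
  have h2 : y - 1 ≠ 0 := sub_ne_zero.2 hy1
  unfold role at h
  split_ifs at h
  · exact h
  · rw [div_eq_div_iff h1 h2] at h
    linear_combination -h
  · linear_combination -h

theorem grp_ne_zero {x : K} (hx : x ≠ 0) (hx1 : x ≠ 1) (g : Fin 3) : grp x g ≠ 0 := by
  unfold grp
  split_ifs
  · exact hx
  · exact inv_ne_zero hx
  · exact sub_ne_zero.2 hx1

theorem role_sz {x : K} (hx : x ≠ 0) (hx1 : x ≠ 1) (r : Fin 3) (A : Set ℕ) :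
    sz (role r x) A = sz (grp x (gz r)) A ∧ sz (role r x)⁻¹ A = sz (grp x (gp r)) A ∧
      sz (role r x - 1) A = sz (grp x r) A := by
  have h1 := sz_quot hx hx1 A
  have h2 := sz_one_sub hx hx1 A
  fin_cases r
  · simpa [role, grp, gz, gp] using h2
  · simpa [role, grp, gz, gp] using h1
  · simp [role, grp, gz, gp]

theorem role_rd {x : K} (hx : x ≠ 0) (hx1 : x ≠ 1) (r : Fin 3) (A : Set ℕ) :
    rd (role r x) A = rd (grp x (gz r)) A ∧ rd (role r x)⁻¹ A = rd (grp x (gp r)) A ∧
      rd (role r x - 1) A = rd (grp x r) A := by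
  have h1 := rd_quot hx hx1 A
  have h2 := rd_one_sub hx hx1 A
  fin_cases r
  · simpa [role, grp, gz, gp] using h2
  · simpa [role, grp, gz, gp] using h1
  · simp [role, grp, gz, gp]

theorem hgt_neg (x : K) : hgt (-x) = hgt x := by
  rw [hgt_eq, hgt_eq, Height.logHeight₁_neg]

theorem hgt_le_sub_one (x : K) : hgt x ≤ Module.finrank ℚ K * Real.log 2 + hgt (x - 1) := by
  have h := hgt_sub_one (1 - x)
  have e1 : (1 : K) - x - 1 = -x := by ring
  have e2 : (1 : K) - x = -(x - 1) := by ring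
  rw [e1, hgt_neg, e2, hgt_neg] at h
  exact h

/-- The height of `y - 1`, for the three roles. -/
theorem role_hgt {x : K} (hx : x ≠ 0) (r : Fin 3) :
    hgt x - Module.finrank ℚ K * Real.log 2 ≤ hgt (role r x - 1) := by
  have h0 := hgt_le_sub_one x
  have h3 : (0 : ℝ) ≤ Module.finrank ℚ K * Real.log 2 := by positivity
  unfold role
  split_ifs
  · linarith
  · by_cases hx1 : x = 1
    · subst hx1
      have : hgt (1 : K) = 0 := by rw [hgt_eq, Height.logHeight₁_one]
      rw [this]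
      have := hgt_nonneg ((1 : K) / (1 - 1) - 1)
      linarith
    · have h1 : x - 1 ≠ 0 := sub_ne_zero.2 hx1
      have e : x / (x - 1) - 1 = (x - 1)⁻¹ := by field_simp; ring
      rw [e, hgt_inv]
      linarith
  · have e : 1 - x - 1 = -x := by ring
    rw [e, hgt_neg]
    linarith

/-- The height of `y` against the height of `x`. -/
theorem hgt_role_le {x : K} (hx : x ≠ 0) (hx1 : x ≠ 1) (r : Fin 3) :
    hgt (role r x) ≤ hgt x + Module.finrank ℚ K * Real.log 2 ∧
      hgt x ≤ hgt (role r x) + Module.finrank ℚ K * Real.log 2 := by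
  have h3 : (0 : ℝ) ≤ Module.finrank ℚ K * Real.log 2 := by positivity
  have h1 : x - 1 ≠ 0 := sub_ne_zero.2 hx1
  have a1 := hgt_sub_one x
  have a2 := hgt_le_sub_one x
  unfold role
  split_ifs
  · constructor <;> linarith
  · have e : x / (x - 1) = (1 - x⁻¹)⁻¹ := by
      have : 1 - x⁻¹ ≠ 0 := by
        intro h
        apply hx1
        field_simp at h
        linear_combination h
      field_simp
    have e2 : (1 : K) - x⁻¹ = -(x⁻¹ - 1) := by ring
    rw [e, hgt_inv, e2, hgt_neg]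
    have b1 := hgt_sub_one x⁻¹
    have b2 := hgt_le_sub_one x⁻¹
    rw [hgt_inv] at b1 b2
    constructor <;> linarith
  · have e2 : (1 : K) - x = -(x - 1) := by ring
    rw [e2, hgt_neg]
    constructor <;> linarith

theorem sum_ne (r : Fin 3) (f : Fin 3 → ℝ) :
    (∑ g, if g = r then 0 else f g) = f (gz r) + f (gp r) := by
  fin_cases r <;> simp [Fin.sum_univ_three, gz, gp]; ring

theorem sum_all (r : Fin 3) (f : Fin 3 → ℝ) : (∑ g, f g) = f (gz r) + f (gp r) + f r := by
  fin_cases r <;> simp [Fin.sum_univ_three, gz, gp] <;> ring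

/-- From the linear programme to a cheap tool. -/
theorem exists_tool {l θ : ℝ} (hLP : LPprop l θ) (hl : 0 ≤ l) {x : K} (hx : x ≠ 0) (hx1 : x ≠ 1)
    (hc : cnd x + cnd x⁻¹ + cnd (x - 1) ≤ l * hgt x) :
    ∃ r e S, e < 5 ∧ RK (mkT r e S) (role r x) + max 0 (Ov (mkT r e S) (role r x)) ≤
      θ * (hgt x + Module.finrank ℚ K * Real.log 2) + 2 * (Module.finrank ℚ K * Real.log 2) := by
  set c : ℝ := Module.finrank ℚ K * Real.log 2 with hcdef
  have hc0 : 0 ≤ c := by positivity
  have hg := fun g => grp_ne_zero hx hx1 g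
  have hgh : ∀ g, hgt (grp x g) ≤ hgt x + c := by
    intro g
    unfold grp
    split_ifs
    · linarith
    · rw [hgt_inv]; linarith
    · have := hgt_sub_one x; linarith
  obtain ⟨r, e, S, hA, hcost⟩ := hLP (fun g i => rd (grp x g) {n | cl n = i})
    (fun g i => sz (grp x g) {n | cl n = i}) (hgt x + c) (fun g i => rd_nonneg _ _)
    (fun g => by simpa using sz_cl (hg g) 0 1 (fun n => cl_eq_zero))
    (fun g => by simpa using sz_cl (hg g) 1 2 (fun n => cl_eq_one))
    (fun g => by simpa using sz_cl (hg g) 2 3 (fun n => cl_eq_two))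
    (fun g => by simpa using sz_cl (hg g) 3 4 (fun n => cl_eq_three))
    (fun g => five_rd_le (hg g))
    (fun g => by
      rw [← sz_univ (hg g)]
      exact le_trans (sz_univ_le_hgt (hg g)) (hgh g))
    (by
      have e1 : ∀ g, ∑ i, rd (grp x g) {n | cl n = i} = rd (grp x g) Set.univ :=
        fun g => (rd_univ (hg g)).symm
      simp only [e1, Fin.sum_univ_three]
      have e2 : rd (grp x 0) Set.univ = cnd x := by rw [cnd_eq_rd hx]; simp [grp]
      have e3 : rd (grp x 1) Set.univ = cnd x⁻¹ := by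
        rw [cnd_eq_rd (inv_ne_zero hx)]; simp [grp]
      have e4 : rd (grp x 2) Set.univ = cnd (x - 1) := by
        rw [cnd_eq_rd (sub_ne_zero.2 hx1)]; simp [grp]
      rw [e2, e3, e4]
      have : 0 ≤ l * c := mul_nonneg hl hc0
      nlinarith)
  refine ⟨r, e, S, ?_, ?_⟩
  · rcases hA with h | ⟨h, -⟩ <;> omega
  have hT : mkT r e S = mkT r e S := rfl
  have he : (mkT r e S).e = e := by unfold mkT; rw [dif_pos hA]
  have hF0 : (mkT r e S).F0 = ex (S (gz r)) := by unfold mkT; rw [dif_pos hA]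
  have hF1 : (mkT r e S).F1 = ex (S (gp r)) := by unfold mkT; rw [dif_pos hA]
  have hG : (mkT r e S).G = ex (S r) := by unfold mkT; rw [dif_pos hA]
  have hRK : RK (mkT r e S) (role r x) =
      ∑ g, ∑ i, if S g i then 0 else rd (grp x g) {n | cl n = i} := by
    unfold RK
    rw [hF0, hF1, hG, (role_rd hx hx1 r _).1, (role_rd hx hx1 r _).2.1, (role_rd hx hx1 r _).2.2,
      rd_compl (hg _), rd_compl (hg _), rd_compl (hg _), sum_all r]
  have hOv : Ov (mkT r e S) (role r x) ≤
      (∑ g, if g = r then 0 else ∑ i, if S g i then sz (grp x g) {n | cl n = i} else 0) / e +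
        (∑ i, if S r i then sz (grp x r) {n | cl n = i} else 0) - (hgt x + c) + 2 * c := by
    unfold Ov
    rw [he, hF0, hF1, hG, (role_sz hx hx1 r _).1, (role_sz hx hx1 r _).2.1,
      (role_sz hx hx1 r _).2.2, sz_ex (hg _), sz_ex (hg _), sz_compl (hg _), sum_ne r]
    have h1 := hgt_eq_arch_add (x := (role r x - 1)⁻¹)
      (inv_ne_zero (sub_ne_zero.2 (role_ne_one hx hx1 r)))
    rw [inv_inv, hgt_inv, (role_sz hx hx1 r _).2.2] at h1
    have h2 := role_hgt hx r
    rw [← hcdef] at h2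
    linarith
  rw [hRK]
  have hmax : max 0 (Ov (mkT r e S) (role r x)) ≤
      max 0 ((∑ g, if g = r then 0 else ∑ i, if S g i then sz (grp x g) {n | cl n = i} else 0) / e +
        (∑ i, if S r i then sz (grp x r) {n | cl n = i} else 0) - (hgt x + c)) + 2 * c := by
    apply max_le
    · have := le_max_left 0 ((∑ g, if g = r then 0 else
        ∑ i, if S g i then sz (grp x g) {n | cl n = i} else 0) / e +
        (∑ i, if S r i then sz (grp x r) {n | cl n = i} else 0) - (hgt x + c))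
      linarith
    · refine le_trans hOv ?_
      have := le_max_right 0 ((∑ g, if g = r then 0 else
        ∑ i, if S g i then sz (grp x g) {n | cl n = i} else 0) / e +
        (∑ i, if S r i then sz (grp x r) {n | cl n = i} else 0) - (hgt x + c))
      linarith
  unfold cost at hcost
  linarith

/-- The set which is counted. -/
def Exc (K : Type*) [Field K] [NumberField K] (l Y : ℝ) : Set K :=
  {x : K | x ≠ 0 ∧ x ≠ 1 ∧ hgt x ≤ Y ∧ cnd x + cnd x⁻¹ + cnd (x - 1) ≤ l * hgt x}

theorem exc_finite (l Y : ℝ) : (Exc K l Y).Finite := by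
  refine (NumberField.finite_setOfPred_logHeight₁_le K Y).subset ?_
  rintro x ⟨-, -, h, -⟩
  rw [hgt_eq] at h
  exact h

/-- The count. -/
theorem count (K : Type*) [Field K] [NumberField K] {ε : ℝ} (hε : 0 < ε) :
    ∃ C : ℝ, 0 < C ∧ ∀ l θ Y : ℝ, 0 ≤ l → 0 ≤ θ → θ ≤ 2 → 0 ≤ Y → LPprop l θ →
      ((Exc K l Y).ncard : ℝ) ≤ C * (Y + 1) * Real.exp ((θ + ε) * Y) := by
  classical
  choose Cf hCf0 hCf using fun T : Tool => tool_count K T hε
  set c : ℝ := Module.finrank ℚ K * Real.log 2 with hcdef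
  have hc0 : 0 ≤ c := by positivity
  obtain ⟨I, hI⟩ : ∃ I : Finset (Fin 3 × ℕ × (Fin 3 → Fin 5 → Bool)),
    I = Finset.univ ×ˢ Finset.range 5 ×ˢ Finset.univ := ⟨_, rfl⟩
  obtain ⟨C1, hC1⟩ : ∃ C1 : ℝ, C1 = ∑ i ∈ I, Cf (mkT i.1 i.2.1 i.2.2) := ⟨_, rfl⟩
  have hC1p : 0 ≤ C1 := by rw [hC1]; exact Finset.sum_nonneg fun i _ => (hCf0 _).le
  refine ⟨C1 * (c + 2) * Real.exp (2 * (1 + 3 * c) + 2 * c + ε * (1 + c)) + 1,
    by positivity, fun l θ Y hl hθ hθ2 hY hLP => ?_⟩
  set P : Finset K := (exc_finite (K := K) l Y).toFinset with hP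
  have hmem : ∀ x, x ∈ P ↔ x ∈ Exc K l Y := fun x => by rw [hP, Set.Finite.mem_toFinset]
  have hcard : (Exc K l Y).ncard = P.card := by
    rw [hP, Set.ncard_eq_toFinset_card _ (exc_finite (K := K) l Y)]
  set N : ℕ := ⌈Y + c⌉₊ with hN
  have hNle : (N : ℝ) ≤ Y + c + 1 := (Nat.ceil_lt_add_one (by positivity)).le
  set Z : (Fin 3 × ℕ × (Fin 3 → Fin 5 → Bool)) → ℕ → Set K := fun i n =>
    {y : K | y ≠ 0 ∧ y ≠ 1 ∧ (n : ℝ) - 1 ≤ hgt y ∧ hgt y ≤ n ∧
        RK (mkT i.1 i.2.1 i.2.2) y + max 0 (Ov (mkT i.1 i.2.1 i.2.2) y) ≤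
          θ * (n + 2 * c) + 2 * c} with hZ
  have hZfin : ∀ i n, (Z i n).Finite := by
    intro i n
    refine (NumberField.finite_setOfPred_logHeight₁_le K (n : ℝ)).subset ?_
    rintro x ⟨-, -, -, h, -⟩
    rw [hgt_eq] at h
    exact h
  have hcover : P ⊆ (I ×ˢ Finset.range (N + 1)).biUnion
      (fun p => P.filter (fun x => role p.1.1 x ∈ Z p.1 p.2)) := by
    intro x hx
    obtain ⟨hx0, hx1, hY', hcx⟩ := (hmem x).1 hx
    obtain ⟨r, e, S, he5, hcost⟩ := exists_tool hLP hl hx0 hx1 hcx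
    rw [← hcdef] at hcost
    obtain ⟨k1, k2⟩ := hgt_role_le hx0 hx1 r
    rw [← hcdef] at k1 k2
    rw [Finset.mem_biUnion]
    refine ⟨((r, e, S), ⌈hgt (role r x)⌉₊), ?_, ?_⟩
    · rw [Finset.mem_product, hI, Finset.mem_product, Finset.mem_product]
      refine ⟨⟨Finset.mem_univ _, Finset.mem_range.2 he5, Finset.mem_univ _⟩, ?_⟩
      rw [Finset.mem_range, Nat.lt_succ_iff]
      exact Nat.ceil_mono (by linarith)
    · rw [Finset.mem_filter]
      refine ⟨hx, role_ne_zero hx0 hx1 r, role_ne_one hx0 hx1 r, ?_, Nat.le_ceil _, ?_⟩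
      · have := Nat.ceil_lt_add_one (hgt_nonneg (role r x))
        linarith
      · refine le_trans hcost ?_
        have := Nat.le_ceil (hgt (role r x))
        have h5 : hgt x + c ≤ (⌈hgt (role r x)⌉₊ : ℝ) + 2 * c := by linarith
        have := mul_le_mul_of_nonneg_left h5 hθ
        linarith
  have hfib : ∀ p : (Fin 3 × ℕ × (Fin 3 → Fin 5 → Bool)) × ℕ,
      (P.filter (fun x => role p.1.1 x ∈ Z p.1 p.2)).card ≤ (Z p.1 p.2).ncard := by
    intro p
    rw [Set.ncard_eq_toFinset_card _ (hZfin p.1 p.2)]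
    refine Finset.card_le_card_of_injOn (fun x => role p.1.1 x) ?_ ?_
    · intro x hx
      have := (Finset.mem_filter.1 (Finset.mem_coe.1 hx)).2
      simpa using this
    · intro x hx y hy hxy
      have h1 := ((hmem x).1 (Finset.mem_filter.1 (Finset.mem_coe.1 hx)).1).2.1
      have h2 := ((hmem y).1 (Finset.mem_filter.1 (Finset.mem_coe.1 hy)).1).2.1
      exact role_inj h1 h2 _ hxy
  have h1 : (P.card : ℝ) ≤ ∑ p ∈ I ×ˢ Finset.range (N + 1), ((Z p.1 p.2).ncard : ℝ) := by
    have h2 := le_trans (Finset.card_le_card hcover) (Finset.card_biUnion_le)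
    have h3 := le_trans h2 (Finset.sum_le_sum fun p _ => hfib p)
    exact_mod_cast h3
  have h4 : ∀ p ∈ I ×ˢ Finset.range (N + 1), ((Z p.1 p.2).ncard : ℝ) ≤
      Cf (mkT p.1.1 p.1.2.1 p.1.2.2) *
        Real.exp (θ * (N + 2 * c) + 2 * c + ε * N) := by
    intro p hp
    refine le_trans (hCf _ (p.2 : ℝ) (θ * (p.2 + 2 * c) + 2 * c) (Nat.cast_nonneg _)) ?_
    refine mul_le_mul_of_nonneg_left (Real.exp_le_exp.2 ?_) (hCf0 _).le
    have : (p.2 : ℝ) ≤ N := by
      have := Finset.mem_range.1 (Finset.mem_product.1 hp).2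
      exact_mod_cast Nat.lt_succ_iff.1 this
    have h5 := mul_le_mul_of_nonneg_left this hθ
    have h6 := mul_le_mul_of_nonneg_left this hε.le
    linarith
  have h7 : (P.card : ℝ) ≤ C1 * (N + 1) * Real.exp (θ * (N + 2 * c) + 2 * c + ε * N) := by
    refine le_trans h1 (le_trans (Finset.sum_le_sum h4) (le_of_eq ?_))
    rw [Finset.sum_product, hC1]
    simp only [Finset.sum_const, Finset.card_range, nsmul_eq_mul]
    rw [Finset.sum_mul, Finset.sum_mul]
    refine Finset.sum_congr rfl fun i _ => ?_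
    push_cast
    ring
  rw [hcard]
  refine le_trans h7 ?_
  have h8 : Real.exp (θ * (N + 2 * c) + 2 * c + ε * N) ≤
      Real.exp (2 * (1 + 3 * c) + 2 * c + ε * (1 + c)) * Real.exp ((θ + ε) * Y) := by
    rw [← Real.exp_add]
    apply Real.exp_le_exp.2
    have h9 := mul_le_mul_of_nonneg_left hNle hθ
    have h10 := mul_le_mul_of_nonneg_left hNle hε.le
    have h11 : θ * (1 + 3 * c) ≤ 2 * (1 + 3 * c) :=
      mul_le_mul_of_nonneg_right hθ2 (by positivity)
    nlinarith
  have h12 : (N : ℝ) + 1 ≤ (c + 2) * (Y + 1) := by nlinarith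
  have hE := Real.exp_pos ((θ + ε) * Y)
  have hE2 := Real.exp_pos (2 * (1 + 3 * c) + 2 * c + ε * (1 + c))
  calc C1 * (N + 1) * Real.exp (θ * (N + 2 * c) + 2 * c + ε * N)
      ≤ C1 * ((c + 2) * (Y + 1)) *
        (Real.exp (2 * (1 + 3 * c) + 2 * c + ε * (1 + c)) * Real.exp ((θ + ε) * Y)) := by
        gcongr
    _ = C1 * (c + 2) * Real.exp (2 * (1 + 3 * c) + 2 * c + ε * (1 + c)) * (Y + 1) *
        Real.exp ((θ + ε) * Y) := by ring
    _ ≤ _ := by
        refine mul_le_mul_of_nonneg_right ?_ hE.le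
        refine mul_le_mul_of_nonneg_right ?_ (by positivity)
        linarith

end Pool.Agent.AbcE
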